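import Pool.Agent.NCP.Omega

/-! # MP_23cc9a_gt, module NCP/Amalg: `SplitData` for an amalgamated product of two groups

PROOF. Work in `P = Monoid.PushoutI φ`, all `φ k` injective, two indices `i ≠ j`,
`B = (base φ).range`. Define inductively `RW k x` : `x` is the product of a nonempty reduced word
with first index `k`:
* `of k g` for `g ∉ (φ k).range`;
* `of k g * x` for `g ∉ (φ k).range`, `RW l x`, `l ≠ k`.
(1) `RW k x`, `s ∈ (of l).range` ⟹ `RW k (x * s) ∨ x * s ∈ B` (induction on `RW`).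
(2) `RW k x` gives a `CoprodI.Word` `w`, `Reduced φ w`, `ofCoprodI w.prod = x`, `w.fstIdx = some k`.
(3) disjointness: `RW k x`, `RW l x` ⟹ `k = l`, and `RW k x` ⟹ `x ∉ B`
(`Reduced.exists_normalWord_prod_eq` and `NormalWord.prod_injective`; `Reduced.eq_empty_of_mem_range`).
(4) every `γ` is `of i g * x` with `x = 1 ∨ RW j x` (from `RW`-or-`B` classification of all
elements, by induction over letters on the left, or from normal words), and then `g` is unique
modulo `(φ i).range`: if `of i g * x = of i g' * x'` and `k = g'⁻¹ g ∉ (φ i).range`, then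
`RW i (of i k * x)`, but it equals `x'`, which is `1` or `RW j`.
Put `β γ = [g]` in `↥(of i).range ⧸ B.subgroupOf _`.  `γ ∈ (of i).range` iff `x = 1`.
`β_G, β_G'` from (1): `x * s` is again `RW j` or is in `B` (then `γ s ∈ G`; for `s ∈ G` this would
give `γ ∈ G`). `β_one`: `k ∈ (of j).range`, `k ∉ (of i).range` ⟹ `RW j k`, so `β k = [1]`.
`inf_eq`: `Monoid.PushoutI.inf_of_range_eq_base_range`. `gen`: `Monoid.PushoutI.induction_on`. -/

open Set Function

namespace Pool.Agent.NCP

open Monoid.PushoutI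

section RW

variable {ι : Type} {G : ι → Type} [∀ i, Group (G i)] {H : Type} [Group H]

/-- `x` is the product of a nonempty reduced word with first index `k` -/
inductive RW (φ : ∀ i, H →* G i) : ι → Monoid.PushoutI φ → Prop
  | one (k : ι) (g : G k) (hg : g ∉ (φ k).range) : RW φ k (of k g)
  | cons (k : ι) (g : G k) (l : ι) (x : Monoid.PushoutI φ) (hg : g ∉ (φ k).range) (hx : RW φ l x)
      (hl : l ≠ k) : RW φ k (of k g * x)

variable {φ : ∀ i, H →* G i}

theorem of_mem_base {k : ι} {g : G k} (hg : g ∈ (φ k).range) :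
    (of k g : Monoid.PushoutI φ) ∈ (base φ).range := by
  obtain ⟨h, rfl⟩ := hg
  exact ⟨h, (of_apply_eq_base φ k h).symm⟩

theorem base_le_of (k : ι) : (base φ).range ≤ (of (φ := φ) k).range := by
  rintro _ ⟨h, rfl⟩
  exact ⟨φ k h, of_apply_eq_base φ k h⟩

theorem of_classify (k : ι) (g : G k) :
    RW φ k (of k g) ∨ (of k g : Monoid.PushoutI φ) ∈ (base φ).range := by
  by_cases hg : g ∈ (φ k).range
  · exact Or.inr (of_mem_base hg)
  · exact Or.inl (RW.one k g hg)

/-- multiplication by an element of the base on the right -/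
theorem of_mul_base {k : ι} {g : G k} (hg : g ∉ (φ k).range) {b : Monoid.PushoutI φ}
    (hb : b ∈ (base φ).range) : RW φ k (of k g * b) := by
  obtain ⟨h, rfl⟩ := hb
  rw [← of_apply_eq_base φ k h, ← map_mul]
  refine RW.one k _ fun hc => hg ?_
  have := (φ k).range.mul_mem hc ((φ k).range.inv_mem ⟨h, rfl⟩)
  rwa [mul_inv_cancel_right] at this

theorem RW.mul_of {k : ι} {x : Monoid.PushoutI φ} (hx : RW φ k x) (l : ι) (s : G l) :
    RW φ k (x * of l s) ∨ x * of l s ∈ (base φ).range := by
  induction hx with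
  | one k g hg =>
    by_cases hs : s ∈ (φ l).range
    · exact Or.inl (of_mul_base hg (of_mem_base hs))
    · by_cases hkl : l = k
      · subst hkl
        rw [← map_mul]
        exact of_classify l _
      · exact Or.inl (RW.cons k g l _ hg (RW.one l s hs) hkl)
  | cons k g l' x hg hx hl ih =>
    rw [mul_assoc]
    rcases ih with ih | ih
    · exact Or.inl (RW.cons k g l' _ hg ih hl)
    · exact Or.inl (of_mul_base hg ih)

theorem RW.exists_word {k : ι} {x : Monoid.PushoutI φ} (hx : RW φ k x) :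
    ∃ w : Monoid.CoprodI.Word G, Reduced φ w ∧ ofCoprodI w.prod = x ∧ w.fstIdx = some k := by
  induction hx with
  | one k g hg =>
    have h1 : g ≠ 1 := fun h => hg (h ▸ one_mem _)
    refine ⟨Monoid.CoprodI.Word.cons g Monoid.CoprodI.Word.empty
      (by simp [Monoid.CoprodI.Word.fstIdx, Monoid.CoprodI.Word.empty]) h1, ?_, ?_, ?_⟩
    · intro a ha
      simp [Monoid.CoprodI.Word.cons, Monoid.CoprodI.Word.empty] at ha
      subst ha
      exact hg
    · simp [Monoid.CoprodI.Word.prod, Monoid.CoprodI.Word.cons, Monoid.CoprodI.Word.empty]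
    · simp [Monoid.CoprodI.Word.fstIdx, Monoid.CoprodI.Word.cons]
  | cons k g l x hg hx hl ih =>
    obtain ⟨w, hw, hp, hi⟩ := ih
    have h1 : g ≠ 1 := fun h => hg (h ▸ one_mem _)
    have h2 : w.fstIdx ≠ some k := by
      rw [hi]
      exact fun h => hl (Option.some_injective _ h)
    refine ⟨Monoid.CoprodI.Word.cons g w h2 h1, ?_, ?_, ?_⟩
    · intro a ha
      simp only [Monoid.CoprodI.Word.cons, List.mem_cons] at ha
      rcases ha with rfl | ha
      · exact hg
      · exact hw a ha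
    · simp [hp]
    · simp

theorem RW.notMem_base (hφ : ∀ i, Injective (φ i)) {k : ι} {x : Monoid.PushoutI φ}
    (hx : RW φ k x) : x ∉ (base φ).range := by
  obtain ⟨w, hw, rfl, hi⟩ := hx.exists_word
  intro h
  have := hw.eq_empty_of_mem_range hφ h
  subst this
  simp [Monoid.CoprodI.Word.fstIdx, Monoid.CoprodI.Word.empty] at hi

theorem RW.index_unique (hφ : ∀ i, Injective (φ i)) {k l : ι} {x : Monoid.PushoutI φ}
    (hx : RW φ k x) (hx' : RW φ l x) : k = l := by
  obtain ⟨w, hw, hp, hi⟩ := hx.exists_word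
  obtain ⟨w', hw', hp', hi'⟩ := hx'.exists_word
  obtain ⟨d⟩ := NormalWord.transversal_nonempty φ hφ
  obtain ⟨n, hn, hnl⟩ := hw.exists_normalWord_prod_eq d
  obtain ⟨n', hn', hnl'⟩ := hw'.exists_normalWord_prod_eq d
  have h1 : n = n' := NormalWord.prod_injective (by rw [hn, hn', hp, hp'])
  subst h1
  have h2 : w.toList.map Sigma.fst = w'.toList.map Sigma.fst := by rw [← hnl, ← hnl']
  have h3 : w.fstIdx = w'.fstIdx := by
    rw [Monoid.CoprodI.Word.fstIdx, Monoid.CoprodI.Word.fstIdx, ← List.head?_map, h2,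
      List.head?_map]
  rw [hi, hi'] at h3
  exact Option.some_injective _ h3

theorem classify (γ : Monoid.PushoutI φ) : γ ∈ (base φ).range ∨ ∃ k, RW φ k γ := by
  suffices h : ∀ γ : Monoid.PushoutI φ, ∀ x : Monoid.PushoutI φ,
      (x ∈ (base φ).range ∨ ∃ k, RW φ k x) →
      (x * γ ∈ (base φ).range ∨ ∃ k, RW φ k (x * γ)) by
    have := h γ 1 (Or.inl (one_mem _))
    rwa [one_mul] at this
  intro γ
  induction γ using Monoid.PushoutI.induction_on with
  | of i g =>
    rintro x (⟨h, rfl⟩ | ⟨k, hk⟩)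
    · rw [← of_apply_eq_base φ i h, ← map_mul]
      rcases of_classify (φ := φ) i (φ i h * g) with h | h
      · exact Or.inr ⟨i, h⟩
      · exact Or.inl h
    · rcases hk.mul_of i g with h | h
      · exact Or.inr ⟨k, h⟩
      · exact Or.inl h
  | base h =>
    rintro x (hx | ⟨k, hk⟩)
    · exact Or.inl (mul_mem hx ⟨h, rfl⟩)
    · rw [← of_apply_eq_base φ k h]
      rcases hk.mul_of k (φ k h) with h | h
      · exact Or.inr ⟨k, h⟩
      · exact Or.inl h
  | mul x y hx hy =>
    intro z hz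
    rw [← mul_assoc]
    exact hy _ (hx _ hz)

/-- the right factor of the decomposition `γ = of i g * x` -/
def Tail (φ : ∀ i, H →* G i) (j : ι) (x : Monoid.PushoutI φ) : Prop := x = 1 ∨ RW φ j x

theorem exists_tail (i j : ι) (hall : ∀ k, k = i ∨ k = j) (γ : Monoid.PushoutI φ) :
    ∃ (g : G i) (x : Monoid.PushoutI φ), Tail φ j x ∧ γ = of i g * x := by
  rcases classify γ with hγ | ⟨k, hk⟩
  · obtain ⟨g, hg⟩ := base_le_of i hγ
    exact ⟨g, 1, Or.inl rfl, by rw [hg, mul_one]⟩
  · rcases hall k with rfl | rfl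
    · cases hk with
      | one _ g hg => exact ⟨g, 1, Or.inl rfl, by rw [mul_one]⟩
      | cons _ g l x hg hx hl =>
        rcases hall l with rfl | rfl
        · exact absurd rfl hl
        · exact ⟨g, x, Or.inr hx, rfl⟩
    · exact ⟨1, γ, Or.inr hk, by rw [map_one, one_mul]⟩

theorem tail_unique (hφ : ∀ i, Injective (φ i)) {i j : ι} (hij : i ≠ j) {g g' : G i}
    {x x' : Monoid.PushoutI φ} (hx : Tail φ j x) (hx' : Tail φ j x')
    (h : of i g * x = of i g' * x') : g'⁻¹ * g ∈ (φ i).range := by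
  by_contra hc
  have h1 : of i (g'⁻¹ * g) * x = x' := by
    rw [map_mul, map_inv, mul_assoc, h, inv_mul_cancel_left]
  have h2 : RW φ i (of i (g'⁻¹ * g) * x) := by
    rcases hx with rfl | hx
    · rw [mul_one]; exact RW.one i _ hc
    · exact RW.cons i _ j x hc hx hij.symm
  rw [h1] at h2
  rcases hx' with rfl | hx'
  · exact h2.notMem_base hφ (one_mem _)
  · exact hij (h2.index_unique hφ hx')

end RW

theorem exists_split {ι : Type} {G : ι → Type} [∀ i, Group (G i)] {H : Type} [Group H]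
    (φ : ∀ i, H →* G i) (hφ : ∀ i, Injective (φ i)) (i j : ι) (hij : i ≠ j)
    (hall : ∀ k, k = i ∨ k = j) :
    ∃ S : SplitData (Monoid.PushoutI φ),
      S.G = (Monoid.PushoutI.of (φ := φ) i).range ∧
      S.G' = (Monoid.PushoutI.of (φ := φ) j).range ∧
      S.A = (Monoid.PushoutI.base φ).range := by
  choose r t ht hrt using exists_tail (φ := φ) i j hall
  set β : Monoid.PushoutI φ → ↥(of (φ := φ) i).range ⧸
      (base φ).range.subgroupOf (of (φ := φ) i).range :=
    fun γ => ((⟨of i (r γ), ⟨r γ, rfl⟩⟩ : ↥(of (φ := φ) i).range) : _ ⧸ _) with hβ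
  -- the value of `β` from any decomposition
  have key : ∀ (γ : Monoid.PushoutI φ) (g : G i) (x : Monoid.PushoutI φ), Tail φ j x →
      γ = of i g * x →
      β γ = ((⟨of i g, ⟨g, rfl⟩⟩ : ↥(of (φ := φ) i).range) : _ ⧸ _) := by
    intro γ g x hx hγ
    rw [hβ]
    rw [QuotientGroup.eq, Subgroup.mem_subgroupOf]
    have h1 : (r γ)⁻¹ * g ∈ (φ i).range :=
      tail_unique hφ hij hx (ht γ) (by rw [← hrt γ, ← hγ])
    have h2 := of_mem_base (φ := φ) h1
    simpa using h2
  have hG : ∀ γ : Monoid.PushoutI φ, γ ∉ (of (φ := φ) i).range → RW φ j (t γ) := by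
    intro γ hγ
    rcases ht γ with h | h
    · exact absurd ⟨r γ, by conv_rhs => rw [hrt γ, h, mul_one]⟩ hγ
    · exact h
  refine ⟨⟨(of (φ := φ) i).range, (of (φ := φ) j).range, (base φ).range,
    inf_of_range_eq_base_range hφ hij, ?_, β, ?_, ?_, ?_, ?_⟩, rfl, rfl, rfl⟩
  · rw [eq_top_iff]
    intro γ _
    induction γ using Monoid.PushoutI.induction_on with
    | of k g =>
      rcases hall k with rfl | rfl
      · exact Subgroup.mem_sup_left ⟨g, rfl⟩
      · exact Subgroup.mem_sup_right ⟨g, rfl⟩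
    | base h => exact Subgroup.mem_sup_left (base_le_of i ⟨h, rfl⟩)
    | mul x y hx hy => exact mul_mem (hx trivial) (hy trivial)
  · rintro ⟨_, a, rfl⟩ γ
    rw [key (of i a * γ) (a * r γ) (t γ) (ht γ) (by rw [map_mul, mul_assoc, ← hrt γ])]
    rw [hβ]
    refine congrArg (QuotientGroup.mk) (Subtype.ext ?_)
    simp
  · rintro γ s ⟨s, rfl⟩ hγ
    have h1 := hG γ hγ
    rcases h1.mul_of i s with h | h
    · exact key _ (r γ) _ (Or.inr h) (by rw [← mul_assoc, ← hrt γ])
    · exfalso
      apply hγ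
      have h2 : γ * of i s ∈ (of (φ := φ) i).range := by
        rw [hrt γ, mul_assoc]
        exact mul_mem ⟨r γ, rfl⟩ (base_le_of i h)
      have h3 := mul_mem h2 (inv_mem (⟨s, rfl⟩ : of i s ∈ (of (φ := φ) i).range))
      rwa [mul_inv_cancel_right] at h3
  · rintro γ s ⟨s, rfl⟩ hγ hγs
    have h1 := hG γ hγ
    rcases h1.mul_of j s with h | h
    · exact key _ (r γ) _ (Or.inr h) (by rw [← mul_assoc, ← hrt γ])
    · exfalso
      apply hγs
      rw [hrt γ, mul_assoc]
      exact mul_mem ⟨r γ, rfl⟩ (base_le_of i h)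
  · rintro k ⟨m, rfl⟩ hk
    have hm : m ∉ (φ j).range := fun hm => hk (base_le_of i (of_mem_base hm))
    rw [key (of j m) 1 (of j m) (Or.inr (RW.one j m hm)) (by rw [map_one, one_mul])]
    refine congrArg (QuotientGroup.mk) (Subtype.ext ?_)
    simp

end Pool.Agent.NCP
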