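import Pool.Agent.NCP.Displ

/-! # MP_23cc9a_gt, module NCP/Axis: axes and stable length

PROOF of `dist_pow_of_mid`: let `D = disp γ u > 0`, `c` the unit speed line with `c (-D/2) = u`,
`c 0 = m`, `c (D/2) = γ • u`. Apply `glue` to `c₁ t = c (t + D/2)`, `c₂ t = γ • c (t - D/2)`
(`c₁ 0 = c₂ 0 = γ • u`, `c₁ (-D/2) = m`, `c₂ (D/2) = γ • m`, `dist m (γ • m) = D`): `c₁ = c₂`, i.e.
`γ • c t = c (t + D)`, so `γ ^ k • c t = c (t + k D)`.
`disp_eq_ell_of_pow`: `k D = dist u (γ^k u) ≤ 2 dist u w + k disp γ w`, divide by `k → ∞`.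
`dist_pow_of_min`: the midpoint `m` has `disp γ m ≤ disp γ u = ell`, so equality.
`mul_ell_le`: with `w` a point of minimal displacement,
`m k ell = dist w (γ^(mk) w) ≤ 2 dist u w + m dist u (γ^k u)`, divide by `m → ∞`. -/

open Set Filter Topology

namespace Pool.Agent.NCP

variable {X : Type*} [MetricSpace X] {Γ : Type*} [Group Γ] [MulAction Γ X] [IsIsometricSMul Γ X]

private theorem le_of_mul_le {a b C : ℝ} (h : ∀ m : ℕ, m * a ≤ C + m * b) : a ≤ b := by
  by_contra hab
  rw [not_le] at hab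
  obtain ⟨m, hm⟩ := exists_nat_gt (C / (a - b))
  have := h m
  rw [div_lt_iff₀ (by linarith)] at hm
  linarith

private theorem dist_pow_le (γ : Γ) (w : X) (k : ℕ) : dist w (γ ^ k • w) ≤ k * disp γ w := by
  induction k with
  | zero => simp
  | succ k ih =>
    calc dist w (γ ^ (k + 1) • w) ≤ dist w (γ ^ k • w) + dist (γ ^ k • w) (γ ^ (k + 1) • w) :=
          dist_triangle _ _ _
      _ = dist w (γ ^ k • w) + disp γ w := by
          rw [pow_succ, mul_smul, dist_smul]; rfl
      _ ≤ k * disp γ w + disp γ w := by linarith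
      _ = (k + 1 : ℕ) * disp γ w := by push_cast; ring

/-- Local geodesic criterion.  If the midpoint `m` of `[u, γ u]` satisfies
`dist m (γ m) = disp γ u`, then the translates of the segment `[u, γ u]` form a geodesic line,
so `dist u (γ^k u) = k * disp γ u`. -/
theorem dist_pow_of_mid (hX : Straight X) {γ : Γ} {u : X}
    (h : dist (pt u (γ • u) (1 / 2)) (γ • pt u (γ • u) (1 / 2)) = disp γ u) (k : ℕ) :
    dist u (γ ^ k • u) = k * disp γ u := by
  rcases (disp_nonneg γ u).eq_or_lt with h0 | h0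
  · have h1 := dist_pow_le γ u k
    rw [← h0, mul_zero] at h1 ⊢
    exact le_antisymm h1 dist_nonneg
  · have g1 : IsGeod (fun t => pt u (γ • u) (t + 1)) (disp γ u) := by
      refine ⟨h0.le, fun _ => ⟨1, one_pos, fun s _ s' _ => ?_⟩⟩
      rw [dist_pt hX, add_sub_add_right_eq_sub]
      rfl
    have g2 : IsGeod (fun t => γ • pt u (γ • u) t) (disp γ u) := by
      refine ⟨h0.le, fun _ => ⟨1, one_pos, fun s _ s' _ => ?_⟩⟩
      rw [dist_smul, dist_pt hX]
      rfl
    have e := (glue hX g1 g2 (s := 1 / 2) (s' := 1 / 2)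
      (by simp only [zero_add, pt_one hX, pt_zero]) (by norm_num) (by norm_num)
      (by
        rw [show (-(1 / 2) + 1 : ℝ) = 1 / 2 by norm_num, h]
        ring)).2 h0
    have e' : ∀ t, γ • pt u (γ • u) t = pt u (γ • u) (t + 1) := fun t => (congrFun e t).symm
    have e'' : ∀ k : ℕ, γ ^ k • u = pt u (γ • u) k := by
      intro k
      induction k with
      | zero => simp [pt_zero]
      | succ k ih => rw [pow_succ', mul_smul, ih, e']; push_cast; rfl
    rw [e'', dist_left_pt hX, abs_of_nonneg (Nat.cast_nonneg k), mul_comm]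
    rfl

/-- if `dist u (γ^k u) = k * disp γ u` for all `k` then `u` has minimal displacement -/
theorem disp_eq_ell_of_pow {γ : Γ} {u : X}
    (h : ∀ k : ℕ, dist u (γ ^ k • u) = k * disp γ u) : disp γ u = ell X γ := by
  have : Nonempty X := ⟨u⟩
  refine le_antisymm (le_ciInf fun w => ?_) (ell_le γ u)
  refine le_of_mul_le (C := 2 * dist u w) fun k => ?_
  rw [← h k]
  calc dist u (γ ^ k • u) ≤ dist u w + dist w (γ ^ k • w) + dist (γ ^ k • w) (γ ^ k • u) :=
        dist_triangle4 _ _ _ _
    _ ≤ dist u w + k * disp γ w + dist u w := by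
        rw [dist_smul, dist_comm w u]
        linarith [dist_pow_le γ w k]
    _ = 2 * dist u w + k * disp γ w := by ring

/-- points of minimal displacement lie on an axis -/
theorem dist_pow_of_min (hX : Straight X) {γ : Γ} {u : X} (h : disp γ u = ell X γ) (k : ℕ) :
    dist u (γ ^ k • u) = k * ell X γ := by
  rw [← h]
  refine dist_pow_of_mid hX (le_antisymm ?_ ?_) k
  · calc dist (pt u (γ • u) (1 / 2)) (γ • pt u (γ • u) (1 / 2))
        ≤ dist (pt u (γ • u) (1 / 2)) (γ • u) + dist (γ • u) (γ • pt u (γ • u) (1 / 2)) :=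
          dist_triangle _ _ _
      _ = disp γ u := by
          rw [dist_smul, dist_left_pt hX, dist_pt_right hX]
          unfold disp
          norm_num [abs_of_pos]
          ring
  · rw [h]
    exact ell_le γ _

/-- stable length: `k * ell γ ≤ dist u (γ^k u)` for every `u` -/
theorem mul_ell_le [ProperSpace X] (hX : Straight X) (hA : GoodAction Γ X) (γ : Γ) (u : X)
    (k : ℕ) : k * ell X γ ≤ dist u (γ ^ k • u) := by
  have : Nonempty X := ⟨u⟩
  obtain ⟨w, hw⟩ := exists_disp_eq_ell hA γ
  refine le_of_mul_le (C := 2 * dist u w) fun m => ?_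
  have h1 := dist_pow_of_min hX hw (k * m)
  have h2 := dist_pow_le (γ ^ k) u m
  rw [← pow_mul] at h2
  calc (m : ℝ) * (k * ell X γ) = ((k * m : ℕ) : ℝ) * ell X γ := by push_cast; ring
    _ = dist w (γ ^ (k * m) • w) := h1.symm
    _ ≤ dist w u + dist u (γ ^ (k * m) • u) + dist (γ ^ (k * m) • u) (γ ^ (k * m) • w) :=
        dist_triangle4 _ _ _ _
    _ ≤ dist u w + m * disp (γ ^ k) u + dist u w := by
        rw [dist_smul, dist_comm w u]
        linarith
    _ = 2 * dist u w + m * dist u (γ ^ k • u) := by unfold disp; ring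

end Pool.Agent.NCP
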