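import Mathlib

/-! # MP_23cc9a_gt: straight spaces, group actions (definitions)

Abstract metric part of the proof that the glued graph manifold has no metric without
conjugate points.  `X` is a metric space in which every geodesic is globally minimising and every
two distinct points lie on exactly one geodesic. -/

open Set Filter Topology

namespace Pool.Agent.NCP

variable {X : Type*} [MetricSpace X]

/-- `c : ℝ → X` is a geodesic of speed `v` : locally `dist (c s) (c s') = v * |s - s'|`. -/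
def IsGeod (c : ℝ → X) (v : ℝ) : Prop :=
  0 ≤ v ∧ ∀ t : ℝ, ∃ ε > 0, ∀ s ∈ Ioo (t - ε) (t + ε), ∀ s' ∈ Ioo (t - ε) (t + ε),
    dist (c s) (c s') = v * |s - s'|

/-- Every geodesic is globally minimising, and any two distinct points are joined by exactly one
complete geodesic `c` with `c 0 = p`, `c 1 = q`. -/
structure Straight (X : Type*) [MetricSpace X] : Prop where
  glob : ∀ (c : ℝ → X) (v : ℝ), IsGeod c v → ∀ s t, dist (c s) (c t) = v * |s - t|
  line : ∀ p q : X, p ≠ q → ∃! c : ℝ → X, (∃ v, IsGeod c v) ∧ c 0 = p ∧ c 1 = q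

open Classical in
/-- The point with parameter `t` on the line through `p` (parameter `0`) and `q` (parameter `1`);
`p` if `p = q`. -/
noncomputable def pt (p q : X) (t : ℝ) : X :=
  if h : ∃ c : ℝ → X, ((∃ v, IsGeod c v) ∧ c 0 = p ∧ c 1 = q) ∧ p ≠ q then h.choose t else p

/-- Lipschitz fillings of geodesic triangles. -/
def LipTri (X : Type*) [MetricSpace X] : Prop :=
  ∀ u v w : X, ∃ (Φ : ℝ → ℝ → X) (L : ℝ),
    (∀ s ∈ Icc (0:ℝ) 1, ∀ s' ∈ Icc (0:ℝ) 1, ∀ t ∈ Icc (0:ℝ) 1, ∀ t' ∈ Icc (0:ℝ) 1,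
      dist (Φ s t) (Φ s' t') ≤ L * (|s - s'| + |t - t'|)) ∧
    (∀ s ∈ Icc (0:ℝ) 1, Φ s 0 = u) ∧ (∀ s ∈ Icc (0:ℝ) 1, Φ s 1 = pt v w s) ∧
    (∀ t ∈ Icc (0:ℝ) 1, Φ 0 t = pt u v t) ∧ (∀ t ∈ Icc (0:ℝ) 1, Φ 1 t = pt u w t)

/-- Uniform local semiconcavity of the distance functions away from their centre. -/
def Semi (X : Type*) [MetricSpace X] : Prop :=
  ∀ l₀ > (0:ℝ), ∃ C ≥ (0:ℝ), ∃ r₀ > (0:ℝ), ∀ u u' : X, dist u u' ≤ r₀ → ∃ u'' : X, ∀ p : X,
    l₀ ≤ dist p u → dist p u' + dist p u'' ≤ 2 * dist p u + C * (dist u u') ^ 2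

section action

variable {Γ : Type*} [Group Γ] [MulAction Γ X]

/-- Free, properly discontinuous, cocompact action. -/
structure GoodAction (Γ : Type*) [Group Γ] (X : Type*) [MetricSpace X] [MulAction Γ X] : Prop where
  free : ∀ (γ : Γ) (x : X), γ • x = x → γ = 1
  disc : ∀ K : Set X, IsCompact K → {γ : Γ | ∃ x ∈ K, γ • x ∈ K}.Finite
  cocpt : ∃ K : Set X, IsCompact K ∧ ∀ x, ∃ γ : Γ, γ • x ∈ K

/-- displacement of `γ` at `u` -/
noncomputable def disp (γ : Γ) (u : X) : ℝ := dist u (γ • u)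

variable (X) in
/-- minimal displacement (= stable length) -/
noncomputable def ell (γ : Γ) : ℝ := ⨅ u : X, disp γ u

/-- excess of the displacement -/
noncomputable def exc (γ : Γ) (u : X) : ℝ := disp γ u - ell X γ

/-- The upward map: extend the segment from `γ • u` to `u` beyond `u` by half its length. -/
noncomputable def upM (γ : Γ) (u : X) : X := pt (γ • u) u (3 / 2)

/-- potentials of `h` : 1-Lipschitz functions decreasing by `ell h` under `h`. -/
def IsPot (h : Γ) (f : X → ℝ) : Prop :=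
  (∀ x y, |f x - f y| ≤ dist x y) ∧ ∀ x, f (h • x) = f x - ell X h

end action

end Pool.Agent.NCP
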