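import Pool.Agent.NCP.Base

/-! # MP_23cc9a_gt, module NCP/CData: the cochain data (definitions) -/

open Set Filter Topology

namespace Pool.Agent.NCP

/-- Data for the discrete Stokes argument. `e` is the excess, `F q` (for a label `q`) an exact
(additive) cochain, `W` the background cochain used near `e = 0`, `τ` the label. -/
structure CData (𝒢 X Q : Type*) [Group 𝒢] [MetricSpace X] [MulAction 𝒢 X] [MulAction 𝒢 Q] where
  e : X → ℝ
  W : X → X → ℝ
  F : Q → X → X → ℝ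
  τ : X → Q
  C : ℝ
  r₀ : ℝ
  C_nonneg : 0 ≤ C
  r₀_pos : 0 < r₀
  e_nonneg : ∀ u, 0 ≤ e u
  e_cont : Continuous e
  e_smul : ∀ (g : 𝒢) u, e (g • u) = e u
  e_bd : ∀ u u', dist u u' ≤ r₀ → e u' ≤ 2 * e u + C * (dist u u') ^ 2
  F_add : ∀ q u v w, F q u v + F q v w = F q u w
  F_smul : ∀ (g : 𝒢) q u v, F (g • q) (g • u) (g • v) = F q u v
  F_lip : ∀ q u v, |F q u v| ≤ dist u v
  F_bd : ∀ q q' u v, dist u v ≤ r₀ → |F q u v - F q' u v| ≤ 4 * e u + C * (dist u v) ^ 2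
  τ_loc : ∀ u, 0 < e u → ∀ᶠ u' in 𝓝 u, τ u' = τ u
  τ_smul : ∀ (g : 𝒢) u, 0 < e u → τ (g • u) = g • τ u
  W_smul : ∀ (g : 𝒢) u v, W (g • u) (g • v) = W u v
  W_self : ∀ u, W u u = 0
  W_lip : ∀ u v, |W u v| ≤ dist u v
  W_bd : ∀ q u v, dist u v ≤ r₀ → |W u v - F q u v| ≤ 4 * e u + C * (dist u v) ^ 2
  W_diff : ∀ u u' v v', dist v v' ≤ r₀ →
    |(W u v - W u v') - (W u' v - W u' v')| ≤ C * dist u u' * (4 * e v + C * (dist v v') ^ 2)

namespace CData

variable {𝒢 X Q : Type*} [Group 𝒢] [MetricSpace X] [MulAction 𝒢 X] [MulAction 𝒢 Q]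
  (D : CData 𝒢 X Q)

/-- the cochain at scale `N` : exact cochain of the label outside `{e ≤ 1/N²}`, `W` inside -/
noncomputable def lam (N : ℕ) (u v : X) : ℝ :=
  open Classical in if 1 / (N : ℝ) ^ 2 < D.e u then D.F (D.τ u) u v else D.W u v

/-- antisymmetrised cochain -/
noncomputable def lamA (N : ℕ) (u v : X) : ℝ := (D.lam N u v - D.lam N v u) / 2

/-- sum of the cochain along the segment `[u, v]` subdivided into `N` pieces -/
noncomputable def JN (N : ℕ) (u v : X) : ℝ :=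
  ∑ i ∈ Finset.range N, D.lamA N (pt u v ((i : ℝ) / N)) (pt u v (((i : ℝ) + 1) / N))

end CData

end Pool.Agent.NCP
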