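import Pool.Agent.NCP.Base

/-! # MP_23cc9a_gt, module NCP/Lines: segments and lines of a straight space

`pt p q t` is the point with parameter `t` on the line through `p` and `q`.
Key trick for uniqueness: if `dist p m + dist m q = dist p q`, concatenate the line through `p, m`
(up to `m`) with the line through `m, q` (from `m` on); the result is locally minimising (near `m`
because `p, m, q` is minimising), so it is a geodesic, hence by `Straight.line` it is the line
through `p` and `q`. Extensions are unique for the same reason. Continuity: properness and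
uniqueness. -/

open Set Filter Topology

namespace Pool.Agent.NCP

variable {X : Type*} [MetricSpace X]

private theorem of_glob {c : ℝ → X} {v : ℝ} (hv : 0 ≤ v)
    (h : ∀ s t, dist (c s) (c t) = v * |s - t|) : IsGeod c v :=
  ⟨hv, fun _ => ⟨1, one_pos, fun s _ s' _ => h s s'⟩⟩

private theorem reparam (hX : Straight X) {c : ℝ → X} {v : ℝ} (h : IsGeod c v) (a b : ℝ) :
    IsGeod (fun t => c (a + t * b)) (v * |b|) := by
  refine of_glob (mul_nonneg h.1 (abs_nonneg _)) fun s t => ?_
  rw [hX.glob c v h, show a + s * b - (a + t * b) = (s - t) * b by ring, abs_mul]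
  ring

private theorem unique (hX : Straight X) {c c' : ℝ → X} {v v' : ℝ} (h : IsGeod c v)
    (h' : IsGeod c' v') {a b : ℝ} (hab : a ≠ b) (h1 : c a = c' a) (h2 : c b = c' b)
    (hne : c a ≠ c b) : c = c' := by
  have hba : b - a ≠ 0 := sub_ne_zero.mpr hab.symm
  have e := (hX.line _ _ hne).unique
    (y₁ := fun t => c (a + t * (b - a))) (y₂ := fun t => c' (a + t * (b - a)))
    ⟨⟨_, reparam hX h a (b - a)⟩, by simp, by simp⟩
    ⟨⟨_, reparam hX h' a (b - a)⟩, by simp [h1], by simp [h2]⟩
  funext t
  have := congrFun e ((t - a) / (b - a))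
  simp only [div_mul_cancel₀ _ hba, add_sub_cancel] at this
  exact this

/-- Gluing two geodesics: if `dist (a.1) ..` is minimising through the middle point, the
concatenation is a geodesic. `m = c₁ 0 = c₂ 0`, both of speed `v`, and
`dist (c₁ (-s)) (c₂ s') = v * (s + s')` for some small `s, s' > 0`. -/
theorem glue (hX : Straight X) {c₁ c₂ : ℝ → X} {v : ℝ} (h₁ : IsGeod c₁ v) (h₂ : IsGeod c₂ v)
    (h0 : c₁ 0 = c₂ 0) {s s' : ℝ} (hs : 0 < s) (hs' : 0 < s')
    (h : dist (c₁ (-s)) (c₂ s') = v * (s + s')) :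
    IsGeod (fun t => if t ≤ 0 then c₁ t else c₂ t) v ∧ (0 < v → c₁ = c₂) := by
  have g1 := hX.glob c₁ v h₁
  have g2 := hX.glob c₂ v h₂
  -- the mixed distances near `0`
  have key : ∀ u u' : ℝ, -s ≤ u → u ≤ 0 → 0 ≤ u' → u' ≤ s' →
      dist (c₁ u) (c₂ u') = v * |u - u'| := by
    intro u u' hu1 hu2 hu3 hu4
    have e1 : dist (c₁ u) (c₁ 0) = v * (-u) := by
      rw [g1, sub_zero, abs_of_nonpos hu2]
    have e2 : dist (c₂ 0) (c₂ u') = v * u' := by
      rw [g2, zero_sub, abs_neg, abs_of_nonneg hu3]
    have e3 : dist (c₁ (-s)) (c₁ u) = v * (u + s) := by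
      rw [g1, abs_of_nonpos (by linarith)]; ring
    have e4 : dist (c₂ u') (c₂ s') = v * (s' - u') := by
      rw [g2, abs_of_nonpos (by linarith)]; ring
    have t1 : dist (c₁ u) (c₂ u') ≤ dist (c₁ u) (c₁ 0) + dist (c₂ 0) (c₂ u') := by
      rw [← h0]; exact dist_triangle _ _ _
    have t2 : dist (c₁ (-s)) (c₂ s') ≤
        dist (c₁ (-s)) (c₁ u) + dist (c₁ u) (c₂ u') + dist (c₂ u') (c₂ s') :=
      dist_triangle4 _ _ _ _
    rw [abs_of_nonpos (by linarith : u - u' ≤ 0)]
    rw [e1, e2] at t1
    rw [h, e3, e4] at t2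
    apply le_antisymm
    · linarith [t1]
    · have : v * (s + s') = v * (u + s) + v * (-(u - u')) + v * (s' - u') := by ring
      linarith
  have hg : IsGeod (fun t => if t ≤ 0 then c₁ t else c₂ t) v := by
    refine ⟨h₁.1, fun t => ?_⟩
    rcases lt_trichotomy t 0 with ht | ht | ht
    · refine ⟨-t, by linarith, fun u hu u' hu' => ?_⟩
      simp only [mem_Ioo] at hu hu'
      have a1 : u ≤ 0 := by linarith
      have a2 : u' ≤ 0 := by linarith
      simp only [a1, a2, if_true]
      exact g1 _ _
    · subst ht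
      refine ⟨min s s', lt_min hs hs', fun u hu u' hu' => ?_⟩
      simp only [mem_Ioo, zero_sub, zero_add] at hu hu'
      have m1 := min_le_left s s'
      have m2 := min_le_right s s'
      by_cases a1 : u ≤ 0 <;> by_cases a2 : u' ≤ 0
      · simp only [a1, a2, if_true]
        exact g1 _ _
      · simp only [a1, a2, if_true, if_false]
        exact key u u' (by linarith) a1 (by linarith) (by linarith)
      · simp only [a1, a2, if_true, if_false]
        rw [dist_comm, abs_sub_comm]
        exact key u' u (by linarith) a2 (by linarith) (by linarith)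
      · simp only [a1, a2, if_false]
        exact g2 _ _
    · refine ⟨t, ht, fun u hu u' hu' => ?_⟩
      simp only [mem_Ioo] at hu hu'
      have a1 : ¬ u ≤ 0 := by linarith
      have a2 : ¬ u' ≤ 0 := by linarith
      simp only [a1, a2, if_false]
      exact g2 _ _
  refine ⟨hg, fun hv => ?_⟩
  have e1 : (fun t => if t ≤ 0 then c₁ t else c₂ t) = c₁ := by
    refine unique hX hg h₁ (a := -1) (b := 0) (by norm_num) ?_ ?_ ?_
    · simp
    · simp
    · have : dist (c₁ (-1)) (c₁ 0) = v := by rw [g1]; simp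
      simp only [show (-1 : ℝ) ≤ 0 by norm_num, le_refl, if_true]
      rw [← dist_pos, this]
      exact hv
  have e2 : (fun t => if t ≤ 0 then c₁ t else c₂ t) = c₂ := by
    refine unique hX hg h₂ (a := 0) (b := 1) (by norm_num) ?_ ?_ ?_
    · simp [h0]
    · simp
    · have : dist (c₂ 0) (c₂ 1) = v := by rw [g2]; simp
      simp only [show ¬ (1 : ℝ) ≤ 0 by norm_num, le_refl, if_true, if_false]
      rw [← dist_pos, h0, this]
      exact hv
  rw [← e1]
  exact e2

theorem pt_self (p : X) (t : ℝ) : pt p p t = p := by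
  unfold pt
  rw [dif_neg]
  rintro ⟨c, _, h⟩
  exact h rfl

theorem pt_zero (p q : X) : pt p q 0 = p := by
  unfold pt
  by_cases h : ∃ c : ℝ → X, ((∃ v, IsGeod c v) ∧ c 0 = p ∧ c 1 = q) ∧ p ≠ q
  · rw [dif_pos h]
    exact h.choose_spec.1.2.1
  · rw [dif_neg h]

private theorem pt_spec (hX : Straight X) {p q : X} (hpq : p ≠ q) :
    (∃ v, IsGeod (pt p q) v) ∧ pt p q 1 = q := by
  obtain ⟨c, hc, _⟩ := hX.line p q hpq
  have h : ∃ c : ℝ → X, ((∃ v, IsGeod c v) ∧ c 0 = p ∧ c 1 = q) ∧ p ≠ q := ⟨c, hc, hpq⟩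
  have e : pt p q = h.choose := by
    funext t
    unfold pt
    rw [dif_pos h]
  rw [e]
  exact ⟨h.choose_spec.1.1, h.choose_spec.1.2.2⟩

theorem pt_one (hX : Straight X) (p q : X) : pt p q 1 = q := by
  by_cases h : p = q
  · subst h
    exact pt_self p 1
  · exact (pt_spec hX h).2

theorem dist_pt (hX : Straight X) (p q : X) (s t : ℝ) :
    dist (pt p q s) (pt p q t) = dist p q * |s - t| := by
  by_cases h : p = q
  · subst h
    rw [pt_self, pt_self]
    simp
  · obtain ⟨⟨v, hv⟩, h1⟩ := pt_spec hX h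
    have g := hX.glob _ v hv
    have e := g 0 1
    rw [pt_zero, h1] at e
    rw [g, e]
    simp

theorem isGeod_pt (hX : Straight X) (p q : X) : IsGeod (pt p q) (dist p q) :=
  of_glob dist_nonneg (dist_pt hX p q)

theorem dist_left_pt (hX : Straight X) (p q : X) (t : ℝ) :
    dist p (pt p q t) = dist p q * |t| := by
  have := dist_pt hX p q 0 t
  rwa [pt_zero, zero_sub, abs_neg] at this

theorem dist_pt_right (hX : Straight X) (p q : X) (t : ℝ) :
    dist (pt p q t) q = dist p q * |1 - t| := by
  have := dist_pt hX p q t 1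
  rwa [pt_one hX, abs_sub_comm] at this

/-- Any geodesic is `pt` of two of its points. -/
theorem geod_eq_pt (hX : Straight X) {c : ℝ → X} {v : ℝ} (hc : IsGeod c v) {a b : ℝ}
    (hab : a ≠ b) (t : ℝ) : c (a + t * (b - a)) = pt (c a) (c b) t := by
  by_cases h : c a = c b
  · rw [← h, pt_self]
    have e := hX.glob c v hc a b
    rw [h, dist_self] at e
    have hv : v = 0 := by
      rcases mul_eq_zero.mp e.symm with h | h
      · exact h
      · exact absurd (sub_eq_zero.mp (abs_eq_zero.mp h)) hab
    rw [← dist_le_zero, hX.glob c v hc, hv, zero_mul]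
  · have e := (hX.line _ _ h).unique
      (y₁ := fun t => c (a + t * (b - a))) (y₂ := pt (c a) (c b))
      ⟨⟨_, reparam hX hc a (b - a)⟩, by simp, by simp⟩
      ⟨⟨_, isGeod_pt hX _ _⟩, pt_zero _ _, pt_one hX _ _⟩
    exact congrFun e t

/-- uniqueness of the point between -/
theorem eq_pt_of_between (hX : Straight X) {p q m : X} (hpq : p ≠ q)
    (h : dist p m + dist m q = dist p q) : m = pt p q (dist p m / dist p q) := by
  by_cases h1 : p = m
  · subst h1
    rw [dist_self, zero_div, pt_zero]
  by_cases h2 : m = q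
  · subst h2
    rw [div_self (dist_ne_zero.mpr hpq), pt_one hX]
  have d1 : 0 < dist p m := dist_pos.mpr h1
  have d2 : 0 < dist m q := dist_pos.mpr h2
  have g1 : IsGeod (fun t => pt p m (1 + t * (dist p m)⁻¹)) 1 := by
    have := reparam hX (isGeod_pt hX p m) 1 (dist p m)⁻¹
    rwa [abs_of_pos (inv_pos.mpr d1), mul_inv_cancel₀ d1.ne'] at this
  have g2 : IsGeod (fun t => pt m q (0 + t * (dist m q)⁻¹)) 1 := by
    have := reparam hX (isGeod_pt hX m q) 0 (dist m q)⁻¹
    rwa [abs_of_pos (inv_pos.mpr d2), mul_inv_cancel₀ d2.ne'] at this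
  have e1 : pt p m (1 + -dist p m * (dist p m)⁻¹) = p := by
    rw [neg_mul, mul_inv_cancel₀ d1.ne', add_neg_cancel, pt_zero]
  have e2 : pt m q (0 + dist m q * (dist m q)⁻¹) = q := by
    rw [mul_inv_cancel₀ d2.ne', zero_add, pt_one hX]
  have e3 : pt p m (1 + 0 * (dist p m)⁻¹) = m := by
    rw [zero_mul, add_zero, pt_one hX]
  have e4 : pt m q (0 + 0 * (dist m q)⁻¹) = m := by
    rw [zero_mul, add_zero, pt_zero]
  have hcc := (glue hX g1 g2 (s := dist p m) (s' := dist m q) (by simp only [e3, e4]) d1 d2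
    (by simp only [e1, e2, one_mul]; exact h.symm)).2 one_pos
  have e5 := geod_eq_pt hX g1 (a := -dist p m) (b := dist m q) (by linarith)
    (dist p m / dist p q)
  have e6 : -dist p m + dist p m / dist p q * (dist m q - -dist p m) = 0 := by
    rw [← h]
    field_simp
    ring
  rw [e6] at e5
  have e7 : pt p m (1 + dist m q * (dist p m)⁻¹) = q := by
    have := congrFun hcc (dist m q)
    exact this.trans e2
  simp only [e1, e3, e7] at e5
  exact e5

/-- uniqueness of the extension beyond `q` -/
theorem eq_pt_of_beyond (hX : Straight X) {p q m : X} (hpq : p ≠ q)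
    (h : dist p m = dist p q + dist q m) : m = pt p q (dist p m / dist p q) := by
  have d1 : 0 < dist p q := dist_pos.mpr hpq
  have d2 : 0 < dist p m := by
    have := dist_nonneg (x := q) (y := m)
    linarith
  have e := eq_pt_of_between hX (dist_pos.mp d2) h.symm
  have hs : 0 < dist p q / dist p m := div_pos d1 d2
  have e5 := geod_eq_pt hX (isGeod_pt hX p m) (a := 0) (b := dist p q / dist p m) hs.ne
    (dist p m / dist p q)
  rw [← e, pt_zero, zero_add, sub_zero] at e5
  have e6 : dist p m / dist p q * (dist p q / dist p m) = 1 := by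
    field_simp
  rw [e6, pt_one hX] at e5
  exact e5

theorem pt_symm (hX : Straight X) (p q : X) (t : ℝ) : pt q p t = pt p q (1 - t) := by
  have e := geod_eq_pt hX (isGeod_pt hX p q) (a := 1) (b := 0) one_ne_zero t
  rw [pt_one hX, pt_zero] at e
  rw [← e]
  congr 1
  ring

theorem pt_pt (hX : Straight X) (p q : X) (a b t : ℝ) :
    pt (pt p q a) (pt p q b) t = pt p q (a + t * (b - a)) := by
  by_cases h : a = b
  · subst h
    rw [pt_self]
    simp
  · exact (geod_eq_pt hX (isGeod_pt hX p q) h t).symm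

theorem smul_pt (hX : Straight X) {Γ : Type*} [Group Γ] [MulAction Γ X] [IsIsometricSMul Γ X]
    (γ : Γ) (p q : X) (t : ℝ) : γ • pt p q t = pt (γ • p) (γ • q) t := by
  have hg : IsGeod (fun t => γ • pt p q t) (dist p q) :=
    of_glob dist_nonneg fun s t => by rw [dist_smul, dist_pt hX]
  have e := geod_eq_pt hX hg (a := 0) (b := 1) zero_ne_one t
  simp only [pt_zero, pt_one hX, zero_add, sub_zero, mul_one] at e
  exact e

end Pool.Agent.NCP
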