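import Pool.Agent.NCP.CData
import Pool.Agent.NCP.Lines

/-! # MP_23cc9a_gt, module NCP/Cell: curvature of a small quadrilateral

Four points at mutual distance `≤ L/N`, threshold `1/N²`.
* all `e > 1/N²`, all labels equal: the sum is exactly `0`;
* all `e ≤ 1/N²`: compare `W u_i u_{i+1} - W u_i u_i` with `W u₁ u_{i+1} - W u₁ u_i` (`W_diff`):
  `O(1/N³)`;
* otherwise all `e ≤ C₁/N²` (either some `e ≤ 1/N²`, use `e_bd`; or two labels differ, and then the
  segment between the two points meets `{e = 0}` because `τ` is locally constant on `{e > 0}`), some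
  `e` is `> 0`, and by `F_bd`, `W_bd` every term is within `O(1/N²)` of a fixed exact cochain. -/

open Set Filter Topology

namespace Pool.Agent.NCP

variable {𝒢 X Q : Type*} [Group 𝒢] [MetricSpace X] [MulAction 𝒢 X] [MulAction 𝒢 Q]

theorem CData.F_self (D : CData 𝒢 X Q) (q : Q) (u : X) : D.F q u u = 0 := by
  have := D.F_add q u u u
  linarith

theorem CData.F_swap (D : CData 𝒢 X Q) (q : Q) (u v : X) : D.F q v u = - D.F q u v := by
  have := D.F_add q u v u
  rw [D.F_self] at this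
  linarith

/-- if the labels of the endpoints differ, the segment meets `{e = 0}` -/
theorem CData.exists_zero (D : CData 𝒢 X Q) (hX : Straight X) {u v : X}
    (h : D.τ u ≠ D.τ v) : ∃ t ∈ Icc (0:ℝ) 1, D.e (pt u v t) = 0 := by
  by_contra hcon
  push Not at hcon
  have hpos : ∀ t ∈ Icc (0:ℝ) 1, 0 < D.e (pt u v t) := fun t ht =>
    lt_of_le_of_ne (D.e_nonneg _) (Ne.symm (hcon t ht))
  let _ : TopologicalSpace Q := ⊥
  have : DiscreteTopology Q := ⟨rfl⟩
  have hcont : Continuous (fun t : ℝ => pt u v t) := by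
    refine (LipschitzWith.of_dist_le_mul (K := ⟨dist u v, dist_nonneg⟩) fun s t => ?_).continuous
    rw [dist_pt hX, Real.dist_eq]
    exact le_rfl
  have hτ : ContinuousOn (fun t : ℝ => D.τ (pt u v t)) (Icc 0 1) := by
    intro t ht
    apply ContinuousAt.continuousWithinAt
    have h1 := hcont.continuousAt.eventually (D.τ_loc _ (hpos t ht))
    exact tendsto_nhds_of_eventually_eq h1
  have := isPreconnected_Icc.constant hτ (left_mem_Icc.mpr zero_le_one)
    (right_mem_Icc.mpr zero_le_one)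
  simp only [pt_zero, pt_one hX] at this
  exact h this

theorem CData.cell (D : CData 𝒢 X Q) (hX : Straight X) (L : ℝ) (hL : 0 ≤ L) :
    ∃ C₁ ≥ (0:ℝ), ∃ N₀ : ℕ, ∀ N ≥ N₀, 0 < N → ∀ u : Fin 4 → X, (∀ i j, dist (u i) (u j) ≤ L / N) →
      (|D.lamA N (u 0) (u 1) + D.lamA N (u 1) (u 2) + D.lamA N (u 2) (u 3) + D.lamA N (u 3) (u 0)|
          ≤ C₁ / (N : ℝ) ^ 3) ∨
      ((|D.lamA N (u 0) (u 1) + D.lamA N (u 1) (u 2) + D.lamA N (u 2) (u 3) + D.lamA N (u 3) (u 0)|
          ≤ C₁ / (N : ℝ) ^ 2) ∧ ∃ i, 0 < D.e (u i) ∧ D.e (u i) ≤ C₁ / (N : ℝ) ^ 2) := by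
  have hC := D.C_nonneg
  have hr := D.r₀_pos
  set K : ℝ := 2 + 3 * D.C * L ^ 2 with hK
  have hK0 : 0 ≤ K := by positivity
  set B₁ : ℝ := D.C * L * (4 + D.C * L ^ 2) with hB₁
  have hB₁0 : 0 ≤ B₁ := by positivity
  set B₂ : ℝ := 4 * K + D.C * L ^ 2 with hB₂
  have hB₂0 : 0 ≤ B₂ := by positivity
  refine ⟨4 * B₁ + 4 * B₂ + K, by positivity, ⌈L / D.r₀⌉₊, fun N hN hN0 u hu => ?_⟩
  have hNpos : (0:ℝ) < N := by exact_mod_cast hN0
  have hLN : L / N ≤ D.r₀ := by
    have h1 : L / D.r₀ ≤ N := (Nat.le_ceil _).trans (by exact_mod_cast hN)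
    rw [div_le_iff₀ hNpos]
    rw [div_le_iff₀ hr] at h1
    linarith
  have hr' : ∀ i j, dist (u i) (u j) ≤ D.r₀ := fun i j => (hu i j).trans hLN
  have hsq : ∀ i j, dist (u i) (u j) ^ 2 ≤ L ^ 2 / (N : ℝ) ^ 2 := fun i j => by
    rw [← div_pow]
    exact pow_le_pow_left₀ dist_nonneg (hu i j) 2
  have hN2 : (0:ℝ) < (N : ℝ) ^ 2 := by positivity
  have hN3 : (0:ℝ) < (N : ℝ) ^ 3 := by positivity
  by_cases hall : ∀ i, D.e (u i) ≤ 1 / (N : ℝ) ^ 2
  · -- everything in the region of `W`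
    left
    have hlam : ∀ i j, D.lam N (u i) (u j) = D.W (u i) (u j) := fun i j => by
      unfold CData.lam
      rw [if_neg (not_lt.mpr (hall i))]
    have hd : ∀ i j, |D.W (u i) (u j) - (D.W (u 0) (u j) - D.W (u 0) (u i))| ≤
        B₁ / (N : ℝ) ^ 3 := fun i j => by
      have h1 := D.W_diff (u i) (u 0) (u j) (u i) (hr' j i)
      rw [D.W_self, sub_zero] at h1
      refine h1.trans ?_
      have h2 : 4 * D.e (u j) + D.C * dist (u j) (u i) ^ 2 ≤
          (4 + D.C * L ^ 2) / (N : ℝ) ^ 2 := by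
        have h3 := hall j
        have h4 := mul_le_mul_of_nonneg_left (hsq j i) hC
        calc 4 * D.e (u j) + D.C * dist (u j) (u i) ^ 2
            ≤ 4 * (1 / (N : ℝ) ^ 2) + D.C * (L ^ 2 / (N : ℝ) ^ 2) := by linarith
          _ = (4 + D.C * L ^ 2) / (N : ℝ) ^ 2 := by ring
      have h5 : D.C * dist (u i) (u 0) ≤ D.C * (L / N) := mul_le_mul_of_nonneg_left (hu i 0) hC
      have h6 : 0 ≤ 4 * D.e (u j) + D.C * dist (u j) (u i) ^ 2 := by
        have := D.e_nonneg (u j)
        positivity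
      calc D.C * dist (u i) (u 0) * (4 * D.e (u j) + D.C * dist (u j) (u i) ^ 2)
          ≤ D.C * (L / N) * ((4 + D.C * L ^ 2) / (N : ℝ) ^ 2) :=
            mul_le_mul h5 h2 h6 (by positivity)
        _ = B₁ / (N : ℝ) ^ 3 := by
            rw [hB₁]
            field_simp
    have hdA : ∀ i j, |D.lamA N (u i) (u j) - (D.W (u 0) (u j) - D.W (u 0) (u i))| ≤
        B₁ / (N : ℝ) ^ 3 := fun i j => by
      unfold CData.lamA
      rw [hlam, hlam]
      have h1 := abs_le.mp (hd i j)
      have h2 := abs_le.mp (hd j i)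
      rw [abs_le]
      constructor <;> linarith [h1.1, h1.2, h2.1, h2.2]
    have h1 := abs_le.mp (hdA 0 1)
    have h2 := abs_le.mp (hdA 1 2)
    have h3 := abs_le.mp (hdA 2 3)
    have h4 := abs_le.mp (hdA 3 0)
    have h5 : 4 * (B₁ / (N : ℝ) ^ 3) ≤ (4 * B₁ + 4 * B₂ + K) / (N : ℝ) ^ 3 := by
      rw [← mul_div_assoc]
      apply div_le_div_of_nonneg_right _ hN3.le
      linarith
    rw [abs_le]
    constructor <;> linarith [h1.1, h1.2, h2.1, h2.2, h3.1, h3.2, h4.1, h4.2]
  · push Not at hall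
    obtain ⟨i₀, hi₀⟩ := hall
    by_cases hsame : (∀ i, 1 / (N : ℝ) ^ 2 < D.e (u i)) ∧ ∀ i, D.τ (u i) = D.τ (u 0)
    · -- flat region
      left
      obtain ⟨hbig, hτ⟩ := hsame
      have hlamA : ∀ i j, D.lamA N (u i) (u j) = D.F (D.τ (u 0)) (u i) (u j) := fun i j => by
        unfold CData.lamA CData.lam
        rw [if_pos (hbig i), if_pos (hbig j), hτ i, hτ j, D.F_swap _ (u i) (u j)]
        ring
      rw [hlamA, hlamA, hlamA, hlamA, D.F_add, D.F_add, D.F_add, D.F_self, abs_zero]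
      positivity
    · right
      -- all excesses are small
      have hsmall : ∀ k, D.e (u k) ≤ K / (N : ℝ) ^ 2 := by
        by_cases hex : ∀ i, 1 / (N : ℝ) ^ 2 < D.e (u i)
        · have hτ : ¬ ∀ i, D.τ (u i) = D.τ (u 0) := fun h => hsame ⟨hex, h⟩
          push Not at hτ
          obtain ⟨j, hj⟩ := hτ
          obtain ⟨t, ht, h0⟩ := D.exists_zero hX hj
          have hdt : dist (pt (u j) (u 0) t) (u j) ≤ L / N := by
            rw [dist_comm, dist_left_pt hX]
            have h1 : |t| ≤ 1 := by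
              rw [abs_of_nonneg ht.1]
              exact ht.2
            calc dist (u j) (u 0) * |t| ≤ dist (u j) (u 0) * 1 :=
                  mul_le_mul_of_nonneg_left h1 dist_nonneg
              _ ≤ L / N := by rw [mul_one]; exact hu j 0
          have h1 := D.e_bd _ _ (hdt.trans hLN)
          rw [h0, mul_zero, zero_add] at h1
          have h2 : dist (pt (u j) (u 0) t) (u j) ^ 2 ≤ L ^ 2 / (N : ℝ) ^ 2 := by
            rw [← div_pow]
            exact pow_le_pow_left₀ dist_nonneg hdt 2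
          have h3 := mul_le_mul_of_nonneg_left h2 hC
          intro k
          have h4 := D.e_bd _ _ (hr' j k)
          have h5 := mul_le_mul_of_nonneg_left (hsq j k) hC
          calc D.e (u k) ≤ 2 * (D.C * (L ^ 2 / (N : ℝ) ^ 2)) + D.C * (L ^ 2 / (N : ℝ) ^ 2) := by
                linarith
            _ = (3 * D.C * L ^ 2) / (N : ℝ) ^ 2 := by ring
            _ ≤ K / (N : ℝ) ^ 2 := by
                apply div_le_div_of_nonneg_right _ hN2.le
                linarith
        · push Not at hex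
          obtain ⟨j, hj⟩ := hex
          intro k
          have h4 := D.e_bd _ _ (hr' j k)
          have h5 := mul_le_mul_of_nonneg_left (hsq j k) hC
          calc D.e (u k) ≤ 2 * (1 / (N : ℝ) ^ 2) + D.C * (L ^ 2 / (N : ℝ) ^ 2) := by
                linarith
            _ = (2 + D.C * L ^ 2) / (N : ℝ) ^ 2 := by ring
            _ ≤ K / (N : ℝ) ^ 2 := by
                apply div_le_div_of_nonneg_right _ hN2.le
                have : 0 ≤ D.C * L ^ 2 := by positivity
                linarith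
      have hlam : ∀ i j, |D.lam N (u i) (u j) - D.F (D.τ (u 0)) (u i) (u j)| ≤
          B₂ / (N : ℝ) ^ 2 := fun i j => by
        have h0 : |D.lam N (u i) (u j) - D.F (D.τ (u 0)) (u i) (u j)| ≤
            4 * D.e (u i) + D.C * dist (u i) (u j) ^ 2 := by
          unfold CData.lam
          split_ifs with h
          · exact D.F_bd _ _ _ _ (hr' i j)
          · exact D.W_bd _ _ _ (hr' i j)
        have h1 := hsmall i
        have h5 := mul_le_mul_of_nonneg_left (hsq i j) hC
        calc |D.lam N (u i) (u j) - D.F (D.τ (u 0)) (u i) (u j)|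
            ≤ 4 * (K / (N : ℝ) ^ 2) + D.C * (L ^ 2 / (N : ℝ) ^ 2) := by linarith
          _ = B₂ / (N : ℝ) ^ 2 := by rw [hB₂]; ring
      have hlamA : ∀ i j, |D.lamA N (u i) (u j) - D.F (D.τ (u 0)) (u i) (u j)| ≤
          B₂ / (N : ℝ) ^ 2 := fun i j => by
        have h1 := abs_le.mp (hlam i j)
        have h2 := abs_le.mp (hlam j i)
        rw [D.F_swap _ (u i) (u j)] at h2
        unfold CData.lamA
        rw [abs_le]
        constructor <;> linarith [h1.1, h1.2, h2.1, h2.2]
      have hsum : D.F (D.τ (u 0)) (u 0) (u 1) + D.F (D.τ (u 0)) (u 1) (u 2) +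
          D.F (D.τ (u 0)) (u 2) (u 3) + D.F (D.τ (u 0)) (u 3) (u 0) = 0 := by
        rw [D.F_add, D.F_add, D.F_add, D.F_self]
      refine ⟨?_, i₀, lt_trans (by positivity) hi₀, (hsmall i₀).trans ?_⟩
      · have h1 := abs_le.mp (hlamA 0 1)
        have h2 := abs_le.mp (hlamA 1 2)
        have h3 := abs_le.mp (hlamA 2 3)
        have h4 := abs_le.mp (hlamA 3 0)
        have h5 : 4 * (B₂ / (N : ℝ) ^ 2) ≤ (4 * B₁ + 4 * B₂ + K) / (N : ℝ) ^ 2 := by
          rw [← mul_div_assoc]
          apply div_le_div_of_nonneg_right _ hN2.le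
          linarith
        rw [abs_le]
        constructor <;> linarith [h1.1, h1.2, h2.1, h2.2, h3.1, h3.2, h4.1, h4.2]
      · apply div_le_div_of_nonneg_right _ hN2.le
        linarith

end Pool.Agent.NCP
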