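import Mathlib

/-! # MP_23cc9a_gt: smooth Riemannian metrics on `ℝⁿ` by their coefficients, distance, geodesics
(the definitions used in the final statement) -/

open Set Filter Topology
open scoped ContDiff

namespace Pool.Agent.NCP

/-- A smooth Riemannian metric on `ℝⁿ`, given by its coefficients. -/
structure SMetric (n : ℕ) where
  /-- the coefficients `g_ij` -/
  coef : Fin n → Fin n → EuclideanSpace ℝ (Fin n) → ℝ
  smooth : ∀ i j, ContDiff ℝ ∞ (coef i j)
  symm : ∀ i j x, coef i j x = coef j i x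
  pos : ∀ x v : EuclideanSpace ℝ (Fin n), v ≠ 0 → 0 < ∑ i, ∑ j, coef i j x * v i * v j

namespace SMetric

variable {n : ℕ}

/-- length of the curve `c` between the parameters `0` and `1` -/
noncomputable def length (g : SMetric n) (c : ℝ → EuclideanSpace ℝ (Fin n)) : ℝ :=
  ∫ t in (0 : ℝ)..1, √(∑ i, ∑ j, g.coef i j (c t) * deriv c t i * deriv c t j)

/-- Riemannian distance: infimum of the lengths of `C¹` curves from `x` to `y` -/
noncomputable def dist (g : SMetric n) (x y : EuclideanSpace ℝ (Fin n)) : ℝ :=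
  sInf {L : ℝ | ∃ c : ℝ → EuclideanSpace ℝ (Fin n),
    ContDiff ℝ 1 c ∧ c 0 = x ∧ c 1 = y ∧ L = g.length c}

/-- `c` is a (complete) geodesic of constant speed `v` : locally distance minimising -/
def IsGeodesic (g : SMetric n) (c : ℝ → EuclideanSpace ℝ (Fin n)) (v : ℝ) : Prop :=
  0 ≤ v ∧ ∀ t : ℝ, ∃ ε > 0, ∀ s ∈ Ioo (t - ε) (t + ε), ∀ s' ∈ Ioo (t - ε) (t + ε),
    g.dist (c s) (c s') = v * |s - s'|

/-- No conjugate points (for a complete metric on the simply connected manifold `ℝⁿ`): every
geodesic is minimising, and any two distinct points are joined by exactly one geodesic. -/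
structure NoConjugatePoints (g : SMetric n) : Prop where
  minimising : ∀ (c : ℝ → EuclideanSpace ℝ (Fin n)) (v : ℝ), g.IsGeodesic c v →
    ∀ s t, g.dist (c s) (c t) = v * |s - t|
  unique : ∀ p q : EuclideanSpace ℝ (Fin n), p ≠ q →
    ∃! c : ℝ → EuclideanSpace ℝ (Fin n), (∃ v, g.IsGeodesic c v) ∧ c 0 = p ∧ c 1 = q

/-- `ρ` is a free, properly discontinuous, cocompact action of `Γ` by isometries of `g` (the deck
transformation action of the fundamental group of a closed Riemannian manifold with universal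
covering `(ℝⁿ, g)`). -/
structure IsDeckAction (g : SMetric n) {Γ : Type*} [Group Γ]
    (ρ : Γ →* Equiv.Perm (EuclideanSpace ℝ (Fin n))) : Prop where
  isometric : ∀ γ x y, g.dist (ρ γ x) (ρ γ y) = g.dist x y
  free : ∀ γ x, ρ γ x = x → γ = 1
  disc : ∀ K, IsCompact K → {γ : Γ | ∃ x ∈ K, ρ γ x ∈ K}.Finite
  cocompact : ∃ K, IsCompact K ∧ ∀ x, ∃ γ : Γ, ρ γ x ∈ K

end SMetric

end Pool.Agent.NCP
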