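import Pool.Agent.NCP.RDefs
import Pool.Agent.NCP.SDefs

/-! # MP_23cc9a_gt: metrics by coefficients are metrics -/

open Set Filter Topology
open scoped ContDiff

namespace Pool.Agent.NCP

namespace SMetric

variable {n : ℕ}

/-- the elementary bilinear form `(v, w) ↦ v i * w j` -/
noncomputable def elem (i j : Fin n) : E n →L[ℝ] E n →L[ℝ] ℝ :=
  (ContinuousLinearMap.smulRightL ℝ (E n) (E n →L[ℝ] ℝ)
    (EuclideanSpace.proj i : E n →L[ℝ] ℝ)) (EuclideanSpace.proj j : E n →L[ℝ] ℝ)

@[simp] theorem elem_apply (i j : Fin n) (v w : E n) : elem i j v w = v i * w j := by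
  simp [elem]

/-- the metric as a field of inner products -/
noncomputable def toRMetric (g : SMetric n) : RMetric n where
  form x := ∑ i, ∑ j, g.coef i j x • elem i j
  smooth := by
    rw [contDiff_clm_apply_iff]
    intro v
    rw [contDiff_clm_apply_iff]
    intro w
    simp only [sum_apply, smul_apply, elem_apply]
    refine ContDiff.sum fun i _ => ContDiff.sum fun j _ => ?_
    exact (g.smooth i j).smul contDiff_const
  symm x v w := by
    simp only [sum_apply, smul_apply, elem_apply,
      smul_eq_mul]
    rw [Finset.sum_comm]
    refine Finset.sum_congr rfl fun i _ => Finset.sum_congr rfl fun j _ => ?_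
    rw [g.symm i j]
    ring
  pos x v hv := by
    have := g.pos x v hv
    simpa [mul_assoc] using this

theorem toRMetric_form (g : SMetric n) (x v w : E n) :
    g.toRMetric.form x v w = ∑ i, ∑ j, g.coef i j x * v i * w j := by
  simp [toRMetric, mul_assoc]

theorem toRMetric_length (g : SMetric n) (c : ℝ → E n) : g.toRMetric.length c = g.length c := by
  simp only [RMetric.length, RMetric.speed, length, toRMetric_form]

theorem toRMetric_dist (g : SMetric n) (x y : E n) : g.toRMetric.dist x y = g.dist x y := by
  simp only [RMetric.dist, dist, toRMetric_length]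

theorem toRMetric_isGeodesic (g : SMetric n) (c : ℝ → E n) (v : ℝ) :
    g.toRMetric.IsGeodesic c v ↔ g.IsGeodesic c v := by
  simp only [RMetric.IsGeodesic, IsGeodesic, toRMetric_dist]

theorem NoConjugatePoints.toRMetric {g : SMetric n} (h : g.NoConjugatePoints) :
    g.toRMetric.NoConjugatePoints where
  minimising c v hc s t := by
    rw [toRMetric_dist]
    exact h.minimising c v ((g.toRMetric_isGeodesic c v).1 hc) s t
  unique p q hpq := by
    simp only [toRMetric_isGeodesic]
    exact h.unique p q hpq

theorem IsDeckAction.toRMetric {g : SMetric n} {Γ : Type*} [Group Γ]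
    {ρ : Γ →* Equiv.Perm (E n)} (h : g.IsDeckAction ρ) : g.toRMetric.IsDeckAction ρ where
  isometric γ x y := by
    rw [toRMetric_dist, toRMetric_dist]
    exact h.isometric γ x y
  free := h.free
  disc := h.disc
  cocompact := h.cocompact

end SMetric

end Pool.Agent.NCP
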