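import Pool.Agent.NCP.Main
import Pool.Agent.NCP.SBridge

set_option autoImplicit false

/-! # No metric without conjugate points on the glued graph manifold if both diagonal entries of
the gluing matrix are nonzero

The definitions used in the statement are in `Pool/Agent/NCP/GDefs.lean` (the fundamental group)
and `Pool/Agent/NCP/SDefs.lean` (Riemannian metrics on `ℝⁿ`, distance, geodesics, deck actions). -/

namespace Pool.Agent.NCP.DiagonalNonzero

open Pool.Agent.NCP

/-- Let `A` be in `SL(2, ℤ)` with `|trace A| > 2` and both diagonal entries nonzero, with respect to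
the basis (boundary curve of the one-holed torus, fibre) of the boundary torus group. Then there is
no smooth Riemannian metric `g` on some `ℝⁿ` such that every geodesic of `g` is minimising, any two
distinct points are joined by exactly one geodesic, and the fundamental group of the glued graph
manifold acts on `(ℝⁿ, g)` freely, properly discontinuously and cocompactly by isometries. -/
theorem result (A : Matrix.SpecialLinearGroup (Fin 2) ℤ) (htr : 2 < |Matrix.trace A.1|)
    (ha : A.1 0 0 ≠ 0) (hd : A.1 1 1 ≠ 0) :
    ¬ ∃ (n : ℕ) (g : SMetric n) (ρ : GMGroup A →* Equiv.Perm (EuclideanSpace ℝ (Fin n))),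
      g.NoConjugatePoints ∧ g.IsDeckAction ρ := by
  rintro ⟨n, g, ρ, hg, hρ⟩
  rw [Matrix.trace_fin_two] at htr
  exact main A htr ha hd n g.toRMetric ρ hg.toRMetric hρ.toRMetric

end Pool.Agent.NCP.DiagonalNonzero
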