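import Pool.Agent.NCP.Main
import Pool.Agent.NCP.SBridge
import Pool.Agent.NCQ.MainPos

set_option autoImplicit false

/-! # The graph manifold `Σ × S¹ ∪_A Σ × S¹` has a metric without conjugate points if and only if a
diagonal entry of `A` is zero

The definitions used in the statement are in `Pool/Agent/NCQ/MDefs.lean` (the closed manifold, its
Riemannian metrics, geodesics, Jacobi fields), `Pool/Agent/NCP/GDefs.lean` (its fundamental group)
and `Pool/Agent/NCP/SDefs.lean` (metrics on `ℝⁿ`, distance, deck actions). -/

namespace Pool.Agent.NCP.DichotomyOld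

open Pool.Agent

/-- Let `A` be in `SL(2, ℤ)` with `|trace A| > 2`, with respect to the basis (boundary curve of the
one-holed torus, fibre) of the boundary torus.

If a diagonal entry of `A` is zero, then the closed graph manifold `MBar A` has a smooth Riemannian
metric without conjugate points.

If both diagonal entries are nonzero, then there is none: there is no smooth Riemannian metric on some
`ℝⁿ` without conjugate points on which the fundamental group of the graph manifold acts freely,
properly discontinuously and cocompactly by isometries (such a metric would be the universal covering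
of a metric without conjugate points on the closed manifold). -/
theorem result (A : Matrix.SpecialLinearGroup (Fin 2) ℤ) (htr : 2 < |Matrix.trace A.1|) :
    ((A.1 0 0 = 0 ∨ A.1 1 1 = 0) → ∃ g : NCQ.GMMetric A, g.NoConjugatePoints) ∧
    ((A.1 0 0 ≠ 0 ∧ A.1 1 1 ≠ 0) →
      ¬ ∃ (n : ℕ) (g : NCP.SMetric n)
        (ρ : NCP.GMGroup A →* Equiv.Perm (EuclideanSpace ℝ (Fin n))),
        g.NoConjugatePoints ∧ g.IsDeckAction ρ) := by
  refine ⟨NCQ.exists_noConjugatePoints A, ?_⟩
  rintro ⟨ha, hd⟩ ⟨n, g, ρ, hg, hρ⟩
  rw [Matrix.trace_fin_two] at htr
  exact NCP.main A htr ha hd n g.toRMetric ρ hg.toRMetric hρ.toRMetric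

end Pool.Agent.NCP.DichotomyOld
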