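import Pool.Agent.NCP.Lines

/-! # MP_23cc9a_gt, module NCP/Displ: displacement, axes

`disp γ u = dist u (γ • u)`, `ell X γ = inf disp γ`.

`finite_small_disp`: `K' = cthickening R K` is compact, `GoodAction.disc`.
`exists_disp_eq_ell`: let `Γ K = X` (from `cocpt`). Every value `disp γ u` is a value
`disp δ x`, `x ∈ K`, `δ = k γ k⁻¹`, `x = k • u`; only finitely many such `δ` have a point `x ∈ K` with
`disp δ x ≤ ell + 1`; each `disp δ` attains its minimum on `K`; take the smallest of the minima over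
the finite set of conjugates `δ` of `γ`. -/

open Set Filter Topology

namespace Pool.Agent.NCP

variable {X : Type*} [MetricSpace X] {Γ : Type*} [Group Γ] [MulAction Γ X] [IsIsometricSMul Γ X]

omit [IsIsometricSMul Γ X] in
theorem disp_nonneg (γ : Γ) (u : X) : 0 ≤ disp γ u := dist_nonneg

omit [IsIsometricSMul Γ X] in
theorem ell_le (γ : Γ) (u : X) : ell X γ ≤ disp γ u :=
  ciInf_le ⟨0, by rintro _ ⟨x, rfl⟩; exact disp_nonneg γ x⟩ u

omit [IsIsometricSMul Γ X] in
theorem ell_nonneg (γ : Γ) : 0 ≤ ell X γ :=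
  Real.iInf_nonneg fun u => disp_nonneg γ u

omit [IsIsometricSMul Γ X] in
theorem exc_nonneg (γ : Γ) (u : X) : 0 ≤ exc γ u := sub_nonneg.mpr (ell_le γ u)

theorem continuous_disp (γ : Γ) : Continuous (fun u : X => disp γ u) := by
  have h : Continuous (fun u : X => γ • u) := (isometry_smul X γ).continuous
  exact continuous_id.dist h

theorem continuous_exc (γ : Γ) : Continuous (fun u : X => exc γ u) :=
  (continuous_disp γ).sub continuous_const

/-- conjugation: `disp (g γ g⁻¹) (g u) = disp γ u` -/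
theorem disp_conj (g γ : Γ) (u : X) : disp (g * γ * g⁻¹) (g • u) = disp γ u := by
  unfold disp
  rw [smul_smul, inv_mul_cancel_right, mul_smul, dist_smul]

theorem ell_conj (g γ : Γ) : ell X (g * γ * g⁻¹) = ell X γ := by
  unfold ell
  rw [← (MulAction.toPerm g : Equiv.Perm X).iInf_comp (g := fun u => disp (g * γ * g⁻¹) u)]
  exact iInf_congr fun u => disp_conj g γ u

theorem disp_smul_of_comm {g γ : Γ} (h : g * γ = γ * g) (u : X) : disp γ (g • u) = disp γ u := by
  have e : g * γ * g⁻¹ = γ := by rw [h, mul_inv_cancel_right]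
  conv_lhs => rw [← e]
  exact disp_conj g γ u

theorem exc_smul_of_comm {g γ : Γ} (h : g * γ = γ * g) (u : X) : exc γ (g • u) = exc γ u := by
  unfold exc
  rw [disp_smul_of_comm h]

/-- only finitely many group elements move a point of a compact set by at most `R` -/
theorem finite_small_disp [ProperSpace X] (hA : GoodAction Γ X) {K : Set X} (hK : IsCompact K)
    (R : ℝ) : {γ : Γ | ∃ x ∈ K, dist x (γ • x) ≤ R}.Finite := by
  refine (hA.disc (Metric.cthickening R K) hK.cthickening).subset ?_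
  rintro γ ⟨x, hx, hd⟩
  exact ⟨x, Metric.self_subset_cthickening K hx,
    Metric.mem_cthickening_of_dist_le _ x _ _ hx (by rwa [dist_comm])⟩

/-- the infimum of the displacement is attained -/
theorem exists_disp_eq_ell [ProperSpace X] [Nonempty X] (hA : GoodAction Γ X) (γ : Γ) :
    ∃ u : X, disp γ u = ell X γ := by
  obtain ⟨K, hK, hcov⟩ := hA.cocpt
  set F : Set Γ := {δ : Γ | (∃ k : Γ, δ = k * γ * k⁻¹) ∧ ∃ x ∈ K, dist x (δ • x) ≤ ell X γ + 1}
    with hF
  have hFfin : F.Finite := (finite_small_disp hA hK (ell X γ + 1)).subset fun δ h => h.2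
  have hmem : ∀ u : X, disp γ u ≤ ell X γ + 1 → ∃ k : Γ, k • u ∈ K ∧ k * γ * k⁻¹ ∈ F := by
    intro u hu
    obtain ⟨k, hk⟩ := hcov u
    refine ⟨k, hk, ⟨k, rfl⟩, k • u, hk, ?_⟩
    have := disp_conj k γ u
    unfold disp at this
    rw [this]; exact hu
  obtain ⟨u₀, hu₀⟩ : ∃ u : X, disp γ u < ell X γ + 1 :=
    exists_lt_of_ciInf_lt (by linarith [show (⨅ u : X, disp γ u) = ell X γ from rfl])
  obtain ⟨k₀, hk₀, hk₀F⟩ := hmem u₀ hu₀.le
  have hmin : ∀ δ : Γ, ∃ x ∈ K, ∀ y ∈ K, disp δ x ≤ disp δ y := fun δ =>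
    hK.exists_isMinOn ⟨_, hk₀⟩ (continuous_disp δ).continuousOn
  choose m hmK hmmin using hmin
  obtain ⟨δ, hδF, hδ⟩ := Set.exists_min_image F (fun δ => disp δ (m δ)) hFfin ⟨_, hk₀F⟩
  obtain ⟨k, rfl⟩ := hδF.1
  have hle : ∀ u : X, disp (k * γ * k⁻¹) (m (k * γ * k⁻¹)) ≤ disp γ u := by
    intro u
    rcases le_total (disp γ u) (ell X γ + 1) with h | h
    · obtain ⟨l, hl, hlF⟩ := hmem u h
      calc disp (k * γ * k⁻¹) (m (k * γ * k⁻¹)) ≤ disp (l * γ * l⁻¹) (m (l * γ * l⁻¹)) := hδ _ hlF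
        _ ≤ disp (l * γ * l⁻¹) (l • u) := hmmin _ _ hl
        _ = disp γ u := disp_conj l γ u
    · obtain ⟨x, hx, hd⟩ := hδF.2
      exact (hmmin _ x hx).trans (le_trans hd h)
  refine ⟨k⁻¹ • m (k * γ * k⁻¹), le_antisymm ?_ (ell_le γ _)⟩
  have e : disp γ (k⁻¹ • m (k * γ * k⁻¹)) = disp (k * γ * k⁻¹) (m (k * γ * k⁻¹)) := by
    rw [← disp_conj k γ, smul_inv_smul]
  rw [e]
  exact le_ciInf hle

theorem ell_pos [ProperSpace X] [Nonempty X] (hA : GoodAction Γ X) {γ : Γ} (hγ : γ ≠ 1) :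
    0 < ell X γ := by
  obtain ⟨u, hu⟩ := exists_disp_eq_ell hA γ
  rw [← hu]
  exact dist_pos.mpr fun h => hγ (hA.free γ u h.symm)

end Pool.Agent.NCP
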