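import Pool.Agent.NCP.Axis

/-! # MP_23cc9a_gt, module NCP/Est: the two quadratic estimates

`S w = dist (h⁻¹ u) w + dist w (h u)`.  For potentials `f, f'`,
`f u' - f u ≤ dist u' (h u) - dist u (h u) + exc h u` and
`f' u' - f' u ≥ -(dist (h⁻¹ u) u' - disp h u) - exc h u`, so the difference of increments is at most
`S u' - S u + 2 exc h u`; semiconcavity with the reflected point `u''` and
`S u'' ≥ dist (h⁻¹ u) (h u) ≥ 2 ell h = S u - 2 exc h u` give
`S u' ≤ S u + 2 exc h u + 2 C dist²`.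
For the excess use the midpoint `m` of `[u, h u]` and of course `h⁻¹ m`. -/

open Set Filter Topology

namespace Pool.Agent.NCP

variable {X : Type*} [MetricSpace X] {Γ : Type*} [Group Γ] [MulAction Γ X] [IsIsometricSMul Γ X]

private theorem half [ProperSpace X] [Nonempty X] (hX : Straight X) (hA : GoodAction Γ X)
    {h : Γ} {C : ℝ} {u u' : X} {d : ℝ}
    (hs : ∃ u'' : X, ∀ p : X, ell X h ≤ dist p u → dist p u' + dist p u'' ≤ 2 * dist p u + C * d ^ 2)
    {f f' : X → ℝ} (hf : IsPot h f) (hf' : IsPot h f') :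
    (f u' - f u) - (f' u' - f' u) ≤ 4 * exc h u + 2 * C * d ^ 2 := by
  obtain ⟨u'', hu''⟩ := hs
  have a1 : dist (h • u) u = disp h u := dist_comm _ _
  have a2 : dist (h⁻¹ • u) u = disp h u := by
    rw [← dist_smul h, smul_inv_smul]
    rfl
  have e1 := hu'' (h • u) (by rw [a1]; exact ell_le h u)
  have e2 := hu'' (h⁻¹ • u) (by rw [a2]; exact ell_le h u)
  rw [a1] at e1
  rw [a2] at e2
  have b1 : f u' - f (h • u) ≤ dist (h • u) u' := by
    rw [dist_comm]
    exact (le_abs_self _).trans (hf.1 _ _)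
  have b2 : f' (h⁻¹ • u) - f' u' ≤ dist (h⁻¹ • u) u' := (le_abs_self _).trans (hf'.1 _ _)
  have b3 := hf.2 u
  have b4 := hf'.2 (h⁻¹ • u)
  rw [smul_inv_smul] at b4
  have b5 := mul_ell_le hX hA h (h⁻¹ • u) 2
  have b6 : h ^ 2 • h⁻¹ • u = h • u := by
    rw [smul_smul, pow_two, mul_inv_cancel_right]
  rw [b6] at b5
  have b7 := dist_triangle (h⁻¹ • u) u'' (h • u)
  rw [dist_comm u'' (h • u)] at b7
  have b8 : exc h u = disp h u - ell X h := rfl
  push_cast at b5
  rw [b8]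
  linarith

theorem pot_increments [ProperSpace X] [Nonempty X] (hX : Straight X) (hA : GoodAction Γ X)
    (hS : Semi X) {h : Γ} (hh : h ≠ 1) :
    ∃ C ≥ (0:ℝ), ∃ r₀ > (0:ℝ), ∀ f f' : X → ℝ, IsPot h f → IsPot h f' → ∀ u u' : X,
      dist u u' ≤ r₀ →
        |(f u' - f u) - (f' u' - f' u)| ≤ 4 * exc h u + C * (dist u u') ^ 2 := by
  obtain ⟨C, hC, r₀, hr, H⟩ := hS (ell X h) (ell_pos hA hh)
  refine ⟨2 * C, by positivity, r₀, hr, fun f f' hf hf' u u' hu => ?_⟩
  have hs := H u u' hu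
  rw [abs_le]
  constructor
  · have := half hX hA hs hf' hf
    linarith
  · exact half hX hA hs hf hf'

theorem exc_quad [ProperSpace X] [Nonempty X] (hX : Straight X) (hA : GoodAction Γ X)
    (hS : Semi X) {h : Γ} (hh : h ≠ 1) :
    ∃ C ≥ (0:ℝ), ∃ r₀ > (0:ℝ), ∀ u u' : X, dist u u' ≤ r₀ →
      exc h u' ≤ 2 * exc h u + C * (dist u u') ^ 2 := by
  obtain ⟨C, hC, r₀, hr, H⟩ := hS (ell X h / 2) (half_pos (ell_pos hA hh))
  refine ⟨2 * C, by positivity, r₀, hr, fun u u' hu => ?_⟩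
  obtain ⟨u'', hu''⟩ := H u u' hu
  set m := pt u (h • u) (1 / 2) with hm
  have a1 : dist m u = disp h u / 2 := by
    rw [dist_comm, hm, dist_left_pt hX, abs_of_pos (by norm_num)]
    unfold disp
    ring
  have a2 : dist (h⁻¹ • m) u = disp h u / 2 := by
    rw [← dist_smul h, smul_inv_smul, hm, dist_pt_right hX, show |(1:ℝ) - 1 / 2| = 1 / 2 by
      norm_num [abs_of_pos]]
    unfold disp
    ring
  have hl := ell_le h u
  have e1 := hu'' m (by rw [a1]; linarith)
  have e2 := hu'' (h⁻¹ • m) (by rw [a2]; linarith)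
  rw [a1] at e1
  rw [a2] at e2
  have b1 : disp h u' ≤ dist m u' + dist (h⁻¹ • m) u' := by
    have t := dist_triangle u' m (h • u')
    have t2 : dist m (h • u') = dist (h⁻¹ • m) u' := by
      rw [← dist_smul h (h⁻¹ • m), smul_inv_smul]
    rw [t2, dist_comm u' m] at t
    exact t
  have b2 : ell X h ≤ dist m u'' + dist (h⁻¹ • m) u'' := by
    have t := dist_triangle (h⁻¹ • m) u'' m
    have t2 : dist (h⁻¹ • m) m = disp h (h⁻¹ • m) := by
      unfold disp
      rw [smul_inv_smul]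
    have t3 := ell_le h (h⁻¹ • m)
    rw [t2, dist_comm u'' m] at t
    linarith
  have b8 : exc h u = disp h u - ell X h := rfl
  have b9 : exc h u' = disp h u' - ell X h := rfl
  rw [b8, b9]
  linarith

end Pool.Agent.NCP
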