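import Pool.Agent.NCP.Omega
import Pool.Agent.NCP.Lines

/-! # MP_23cc9a_gt, module NCP/Far: a far translate of a segment, in the region of label `1`

PROOF. Let `q₀` be any point, `σ t = pt q₀ (h' • q₀) t`, `t ∈ [0,1]`, compact image `K₂`.
`q = k ^ n • q₀` with `n` large: `h' • q = k ^ n • (h' • q₀)`, so `pt q (h' • q) t = k ^ n • σ t`
(`smul_pt`). `exc h (k ^ n • x) = dist x ((k⁻ⁿ h kⁿ) • x) - ell X h`; for given `R` only finitely many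
group elements move a point of `K₂` by at most `R + ell X h` (`finite_small_disp`) and the conjugates
`k⁻ⁿ h kⁿ` are pairwise distinct, so `exc h (k ^ n • x) > R` for all `x ∈ K₂`, `n ≥ n₀ R`.
The finite set `Δ = {δ | ∃ x ∈ K₂, δ⁻¹ • x ∈ K}`; write each `δ ∈ Δ` as a product of letters
`s₁ ⋯ s_j`; take `R ≥ R₀` larger than `exc h` on all the compact sets `(s₁ ⋯ s_i)⁻¹ • K₂`.
For `x ∈ K₂` choose `δ` with `δ⁻¹ • x ∈ K`, so `(k ^ n δ)⁻¹ • (k ^ n • x) ∈ K` and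
`ω (k ^ n • x) = β (k ^ n δ) = β (k ^ n)` by `β_list`: if `k ^ n s₁ ⋯ s_i ∈ G` then
`exc h (k ^ n • x) = exc h ((s₁ ⋯ s_i)⁻¹ • x) ≤ R`. Finally `β (k ^ n) = 1`
(`k ^ n ∈ G'`, and `k ^ n ∉ G` for `n ≥ 1`, otherwise `k⁻ⁿ h kⁿ = h`). -/

open Set Filter Topology

namespace Pool.Agent.NCP

variable {X : Type*} [MetricSpace X] {Γ : Type*} [Group Γ] [MulAction Γ X] [IsIsometricSMul Γ X]

theorem exists_far [ProperSpace X] [Nonempty X] (hX : Straight X) (hA : GoodAction Γ X)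
    (S : SplitData Γ) {h h' k : Γ} (hG : ∀ g ∈ S.G, g * h = h * g)
    (hk : k ∈ S.G') (hkh' : k * h' = h' * k)
    (hdist : ∀ m n : ℕ, (k ^ m)⁻¹ * h * k ^ m = (k ^ n)⁻¹ * h * k ^ n → m = n)
    {R₀ : ℝ} {K : Set X} {ω : X → ↥S.G ⧸ S.A.subgroupOf S.G} (hK : IsCompact K)
    (hcov : ∀ x, ∃ γ : Γ, γ⁻¹ • x ∈ K)
    (hω : ∀ (u : X) (γ : Γ), R₀ < exc h u → γ⁻¹ • u ∈ K → γ ∉ S.G ∧ ω u = S.β γ) :
    ∃ q : X, ∀ t ∈ Icc (0:ℝ) 1, R₀ + 1 ≤ exc h (pt q (h' • q) t) ∧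
      ω (pt q (h' • q) t) = ((1 : S.G) : ↥S.G ⧸ S.A.subgroupOf S.G) := by
  obtain ⟨q₀⟩ := ‹Nonempty X›
  have hcont : Continuous (fun t : ℝ => pt q₀ (h' • q₀) t) := by
    refine (LipschitzWith.of_dist_le_mul (K := (dist q₀ (h' • q₀)).toNNReal) fun s t => ?_).continuous
    rw [dist_pt hX, Real.coe_toNNReal _ dist_nonneg, Real.dist_eq]
  set K₂ : Set X := (fun t : ℝ => pt q₀ (h' • q₀) t) '' Icc (0:ℝ) 1 with hK₂
  have hK₂c : IsCompact K₂ := isCompact_Icc.image hcont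
  have hΔ : {δ : Γ | ∃ x ∈ K₂, δ⁻¹ • x ∈ K}.Finite := by
    refine ((hA.disc _ (hK₂c.union hK)).preimage (f := fun δ : Γ => δ⁻¹)
      inv_injective.injOn).subset ?_
    rintro δ ⟨x, hx, hx'⟩
    exact ⟨x, Or.inl hx, Or.inr hx'⟩
  obtain ⟨R₁, hR₁, hR⟩ := S.exists_far_bound (X := X) hG hK₂c hΔ
  set R : ℝ := max (R₀ + 1) R₁ with hRdef
  have hB := finite_small_disp hA hK₂c (R + ell X h)
  obtain ⟨n, hn⟩ : ∃ n : ℕ, ¬ ((k ^ n)⁻¹ * h * k ^ n ∈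
      {γ : Γ | ∃ x ∈ K₂, dist x (γ • x) ≤ R + ell X h}) := by
    by_contra hcon
    push Not at hcon
    have hinj : Function.Injective (fun n : ℕ => (k ^ n)⁻¹ * h * k ^ n) := fun m n e => hdist m n e
    exact Set.infinite_range_of_injective hinj (hB.subset (by rintro _ ⟨n, rfl⟩; exact hcon n))
  have hexc : ∀ x ∈ K₂, R < exc h (k ^ n • x) := by
    intro x hx
    have h1 : ¬ dist x (((k ^ n)⁻¹ * h * k ^ n) • x) ≤ R + ell X h := fun hle => hn ⟨x, hx, hle⟩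
    have h2 : dist x (((k ^ n)⁻¹ * h * k ^ n) • x) = disp h (k ^ n • x) := by
      unfold disp
      rw [← dist_smul (k ^ n) x, ← mul_smul, ← mul_smul]
      congr 2
      group
    rw [h2] at h1
    unfold exc
    linarith
  refine ⟨k ^ n • q₀, fun t ht => ?_⟩
  have hcomm : ∀ m : ℕ, k ^ m * h' = h' * k ^ m := fun m => by
    induction m with
    | zero => simp
    | succ m ih => rw [pow_succ, mul_assoc, hkh', ← mul_assoc, ih, mul_assoc]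
  have e : pt (k ^ n • q₀) (h' • k ^ n • q₀) t = k ^ n • pt q₀ (h' • q₀) t := by
    rw [smul_pt hX, ← mul_smul, ← mul_smul, hcomm]
  rw [e]
  set x : X := pt q₀ (h' • q₀) t with hx
  have hxK : x ∈ K₂ := ⟨t, ht, rfl⟩
  have he := hexc x hxK
  refine ⟨(le_max_left _ _).trans he.le, ?_⟩
  have hR0 : R₀ < exc h (k ^ n • x) := by
    have := le_max_left (R₀ + 1) R₁
    linarith
  obtain ⟨δ, hδ⟩ := hcov x
  have h1 := (hω (k ^ n • x) (k ^ n * δ) hR0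
    (by rw [mul_inv_rev, mul_smul, inv_smul_smul]; exact hδ)).2
  obtain ⟨hkG, h2⟩ := hR (k ^ n • x) (k ^ n) ((le_max_right _ _).trans_lt he)
    (by rw [inv_smul_smul]; exact hxK)
  rw [h1, h2 δ ⟨x, hxK, hδ⟩]
  exact S.β_one _ (S.G'.pow_mem hk n) hkG

end Pool.Agent.NCP
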