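import Mathlib

/-! # MP_23cc9a_gt: the fundamental group of the glued graph manifold

`Σ` is the torus minus a disc, `π₁ Σ = FreeGroup (Fin 2)` with boundary curve the commutator,
`π₁ (Σ × S¹) = FreeGroup (Fin 2) × Multiplicative ℤ`, the boundary torus has group
`Multiplicative (Fin 2 → ℤ)` (coordinate `0`: boundary curve `∂Σ`, coordinate `1`: fibre `S¹`). -/

namespace Pool.Agent.NCP

/-- the boundary curve of the one-holed torus, a commutator -/
def bdry : FreeGroup (Fin 2) :=
  FreeGroup.of 0 * FreeGroup.of 1 * (FreeGroup.of 0)⁻¹ * (FreeGroup.of 1)⁻¹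

/-- inclusion of the boundary torus group into `π₁ (Σ × S¹)` -/
def peri : Multiplicative (Fin 2 → ℤ) →* FreeGroup (Fin 2) × Multiplicative ℤ where
  toFun v := (bdry ^ (Multiplicative.toAdd v 0), Multiplicative.ofAdd (Multiplicative.toAdd v 1))
  map_one' := by simp
  map_mul' v w := by simp [zpow_add]

/-- the automorphism of the boundary torus group with matrix `A` -/
def gluing (A : Matrix.SpecialLinearGroup (Fin 2) ℤ) :
    Multiplicative (Fin 2 → ℤ) →* Multiplicative (Fin 2 → ℤ) :=
  AddMonoidHom.toMultiplicative (Matrix.mulVecLin A.1).toAddMonoidHom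

/-- the two inclusions of the boundary torus group, the second one through the gluing `A` -/
def phi (A : Matrix.SpecialLinearGroup (Fin 2) ℤ) (i : Fin 2) :
    Multiplicative (Fin 2 → ℤ) →* FreeGroup (Fin 2) × Multiplicative ℤ :=
  if i = 0 then peri else peri.comp (gluing A)

/-- fundamental group of the closed graph manifold `Σ × S¹ ∪_A Σ × S¹` (van Kampen: the
amalgamated product of the two copies of `π₁ (Σ × S¹)` over the boundary torus group) -/
abbrev GMGroup (A : Matrix.SpecialLinearGroup (Fin 2) ℤ) : Type :=
  Monoid.PushoutI (phi A)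

end Pool.Agent.NCP
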