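import Pool.Agent.NCP.GDefs

/-! # MP_23cc9a_gt, module NCP/Gam: computations in the graph manifold group

Write `A = (a b; c d)`. `X k i = of k (FreeGroup.of i, 1)`, `Z k = of k (bdry, 1)`,
`T k = of k (1, t)`.
Injectivity and the last two lemmas use the representation of `FreeGroup (Fin 2)` in
`Equiv.Perm ℚ` (`of 0 ↦ (t ↦ 2 t)`, `of 1 ↦ (t ↦ t + 1)`): `bdry ↦ (t ↦ t + 1)`, so
`bdry ^ m ↦ (t ↦ t + m)` and `x⁻ⁿ bdry ^ b xⁿ ↦ (t ↦ t + b / 2ⁿ)`. -/

open Set Function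

namespace Pool.Agent.NCP

/-- doubling on `ℚ` -/
def gamDbl : Equiv.Perm ℚ where
  toFun t := 2 * t
  invFun t := t / 2
  left_inv t := by ring
  right_inv t := by ring

/-- the representation of the free group in `Equiv.Perm ℚ` -/
def gamRep : FreeGroup (Fin 2) →* Equiv.Perm ℚ :=
  FreeGroup.lift (fun i => if i = 0 then gamDbl else Equiv.addRight (1 : ℚ))

theorem gamRep_zero : gamRep (FreeGroup.of 0) = gamDbl := by simp [gamRep]

theorem gamRep_one : gamRep (FreeGroup.of 1) = Equiv.addRight (1 : ℚ) := by simp [gamRep]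

theorem gamRep_bdry : gamRep bdry = Equiv.addRight (1 : ℚ) := by
  ext t
  have h1 : (gamDbl)⁻¹ = gamDbl.symm := rfl
  have h2 : (Equiv.addRight (1 : ℚ))⁻¹ = (Equiv.addRight (1 : ℚ)).symm := rfl
  simp only [bdry, map_mul, map_inv, gamRep_zero, gamRep_one, h1, h2, Equiv.Perm.mul_apply]
  show 2 * ((t + -1) / 2 + 1) = t + 1
  ring

theorem gamRep_bdry_zpow (n : ℤ) (t : ℚ) : gamRep (bdry ^ n) t = t + n := by
  rw [map_zpow, gamRep_bdry]
  have key : ∀ k : ℕ, ∀ s : ℚ, ((Equiv.addRight (1 : ℚ)) ^ k) s = s + k := by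
    intro k
    induction k with
    | zero => intro s; simp
    | succ k ih =>
      intro s
      rw [pow_succ, Equiv.Perm.mul_apply, ih]
      simp only [Equiv.coe_addRight]
      push_cast
      ring
  cases n with
  | ofNat k => simp
  | negSucc k =>
    rw [zpow_negSucc, Equiv.Perm.inv_eq_iff_eq, key]
    push_cast
    ring

theorem gamDbl_pow (n : ℕ) (t : ℚ) : (gamDbl ^ n) t = 2 ^ n * t := by
  induction n generalizing t with
  | zero => simp
  | succ k ih =>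
    rw [pow_succ, Equiv.Perm.mul_apply, ih]
    show 2 ^ k * (2 * t) = _
    ring

theorem gamDbl_pow_inv (n : ℕ) (t : ℚ) : ((gamDbl ^ n)⁻¹) t = t / 2 ^ n := by
  rw [Equiv.Perm.inv_eq_iff_eq, gamDbl_pow]
  field_simp

theorem gamRep_conj (n : ℕ) (m : ℤ) :
    gamRep ((FreeGroup.of 0 ^ n)⁻¹ * bdry ^ m * FreeGroup.of 0 ^ n) 0 = m / 2 ^ n := by
  rw [map_mul, map_mul, map_inv, map_pow, gamRep_zero, Equiv.Perm.mul_apply,
    Equiv.Perm.mul_apply, gamDbl_pow, gamRep_bdry_zpow, gamDbl_pow_inv]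
  simp

theorem gamRep_conj_inj (b : ℤ) (hb : b ≠ 0) (m n : ℕ)
    (h : (FreeGroup.of (0 : Fin 2) ^ m)⁻¹ * bdry ^ b * FreeGroup.of 0 ^ m =
      (FreeGroup.of 0 ^ n)⁻¹ * bdry ^ b * FreeGroup.of 0 ^ n) : m = n := by
  have h1 := congrArg (fun w => gamRep w 0) h
  simp only [gamRep_conj] at h1
  have hb' : (b : ℚ) ≠ 0 := by exact_mod_cast hb
  have h2 : (2 : ℚ) ^ n = 2 ^ m := by
    have e1 : (2 : ℚ) ^ m ≠ 0 := by positivity
    have e2 : (2 : ℚ) ^ n ≠ 0 := by positivity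
    rw [div_eq_div_iff e1 e2] at h1
    exact mul_left_cancel₀ hb' h1
  exact (Nat.pow_right_injective (le_refl 2) (by exact_mod_cast h2)).symm

theorem bdry_zpow_injective : Injective (fun n : ℤ => bdry ^ n) := by
  intro m n h
  have h1 := congrArg (fun w => gamRep w 0) h
  simp only [gamRep_bdry_zpow, zero_add] at h1
  exact_mod_cast h1

theorem peri_injective : Injective peri := by
  intro v w h
  have h' : (bdry ^ (Multiplicative.toAdd v 0),
      Multiplicative.ofAdd (Multiplicative.toAdd v 1)) =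
      (bdry ^ (Multiplicative.toAdd w 0),
      Multiplicative.ofAdd (Multiplicative.toAdd w 1)) := h
  rw [Prod.mk.injEq] at h'
  have h0 := bdry_zpow_injective h'.1
  have h1 := Multiplicative.ofAdd.injective h'.2
  apply Multiplicative.toAdd.injective
  funext i
  fin_cases i
  · exact h0
  · exact h1

theorem gluing_apply (A : Matrix.SpecialLinearGroup (Fin 2) ℤ) (v : Fin 2 → ℤ) :
    gluing A (Multiplicative.ofAdd v) = Multiplicative.ofAdd (A.1.mulVec v) := rfl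

theorem gluing_injective (A : Matrix.SpecialLinearGroup (Fin 2) ℤ) : Injective (gluing A) := by
  intro v w h
  obtain ⟨v, rfl⟩ := Multiplicative.ofAdd.surjective v
  obtain ⟨w, rfl⟩ := Multiplicative.ofAdd.surjective w
  rw [gluing_apply, gluing_apply] at h
  have h1 := Multiplicative.ofAdd.injective h
  have h2 : (A⁻¹ * A).1.mulVec v = (A⁻¹ * A).1.mulVec w := by
    rw [Matrix.SpecialLinearGroup.coe_mul, ← Matrix.mulVec_mulVec, h1, Matrix.mulVec_mulVec]
  rw [inv_mul_cancel, Matrix.SpecialLinearGroup.coe_one, Matrix.one_mulVec,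
    Matrix.one_mulVec] at h2
  rw [h2]

theorem phi_injective (A : Matrix.SpecialLinearGroup (Fin 2) ℤ) (i : Fin 2) :
    Injective (phi A i) := by
  unfold phi
  split
  · exact peri_injective
  · exact peri_injective.comp (gluing_injective A)

/-- generators of the two vertex groups -/
def gX (A : Matrix.SpecialLinearGroup (Fin 2) ℤ) (k i : Fin 2) : GMGroup A :=
  Monoid.PushoutI.of (φ := phi A) k (FreeGroup.of i, 1)

/-- the boundary curve of the `k`-th copy -/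
def gZ (A : Matrix.SpecialLinearGroup (Fin 2) ℤ) (k : Fin 2) : GMGroup A :=
  Monoid.PushoutI.of (φ := phi A) k (bdry, 1)

/-- the fibre of the `k`-th copy -/
def gT (A : Matrix.SpecialLinearGroup (Fin 2) ℤ) (k : Fin 2) : GMGroup A :=
  Monoid.PushoutI.of (φ := phi A) k (1, Multiplicative.ofAdd 1)

theorem gZ_eq (A : Matrix.SpecialLinearGroup (Fin 2) ℤ) (k : Fin 2) :
    gZ A k = gX A k 0 * gX A k 1 * (gX A k 0)⁻¹ * (gX A k 1)⁻¹ := by
  unfold gZ gX
  rw [← map_inv, ← map_inv, ← map_mul, ← map_mul, ← map_mul]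
  congr 1

theorem gX_mem (A : Matrix.SpecialLinearGroup (Fin 2) ℤ) (k i : Fin 2) :
    gX A k i ∈ (Monoid.PushoutI.of (φ := phi A) k).range := ⟨_, rfl⟩

theorem gT_mem (A : Matrix.SpecialLinearGroup (Fin 2) ℤ) (k : Fin 2) :
    gT A k ∈ (Monoid.PushoutI.of (φ := phi A) k).range := ⟨_, rfl⟩

theorem gT_comm (A : Matrix.SpecialLinearGroup (Fin 2) ℤ) (k : Fin 2) (g : GMGroup A)
    (hg : g ∈ (Monoid.PushoutI.of (φ := phi A) k).range) : g * gT A k = gT A k * g := by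
  obtain ⟨w, rfl⟩ := hg
  unfold gT
  rw [← map_mul, ← map_mul]
  congr 1
  ext
  · simp
  · simp [mul_comm]

theorem gT_ne_one (A : Matrix.SpecialLinearGroup (Fin 2) ℤ) (k : Fin 2) : gT A k ≠ 1 := by
  intro h
  have h1 : Monoid.PushoutI.of (φ := phi A) k (1, Multiplicative.ofAdd (1 : ℤ)) =
      Monoid.PushoutI.of (φ := phi A) k 1 :=
    h.trans (map_one (Monoid.PushoutI.of (φ := phi A) k)).symm
  have h2 := Monoid.PushoutI.of_injective (phi_injective A) k h1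
  have h3 : Multiplicative.ofAdd (1 : ℤ) = 1 := congrArg Prod.snd h2
  have h4 : (1 : ℤ) = 0 := Multiplicative.ofAdd.injective h3
  exact one_ne_zero h4

/-- the element of the `k`-th vertex group given by a pair of exponents -/
theorem gam_of_pair (A : Matrix.SpecialLinearGroup (Fin 2) ℤ) (k : Fin 2) (m n : ℤ) :
    Monoid.PushoutI.of (φ := phi A) k (bdry ^ m, Multiplicative.ofAdd n) =
      gZ A k ^ m * gT A k ^ n := by
  unfold gZ gT
  rw [← map_zpow, ← map_zpow, ← map_mul]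
  congr 1
  ext
  · simp
  · simp [← ofAdd_zsmul]

theorem gam_base (A : Matrix.SpecialLinearGroup (Fin 2) ℤ) (k : Fin 2)
    (v : Multiplicative (Fin 2 → ℤ)) :
    Monoid.PushoutI.base (phi A) v = Monoid.PushoutI.of (φ := phi A) k (phi A k v) :=
  (Monoid.PushoutI.of_apply_eq_base (phi A) k v).symm

theorem peri_apply (v : Multiplicative (Fin 2 → ℤ)) :
    peri v = (bdry ^ (Multiplicative.toAdd v 0),
      Multiplicative.ofAdd (Multiplicative.toAdd v 1)) := rfl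

theorem gam_base_zero (A : Matrix.SpecialLinearGroup (Fin 2) ℤ)
    (v : Multiplicative (Fin 2 → ℤ)) :
    Monoid.PushoutI.base (phi A) v =
      gZ A 0 ^ (Multiplicative.toAdd v 0) * gT A 0 ^ (Multiplicative.toAdd v 1) := by
  rw [gam_base A 0 v, show phi A 0 = peri from rfl, peri_apply, gam_of_pair]

theorem gam_base_one (A : Matrix.SpecialLinearGroup (Fin 2) ℤ) (v : Fin 2 → ℤ) :
    Monoid.PushoutI.base (phi A) (Multiplicative.ofAdd v) =
      gZ A 1 ^ (A.1.mulVec v 0) * gT A 1 ^ (A.1.mulVec v 1) := by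
  rw [gam_base A 1, show phi A 1 = peri.comp (gluing A) from rfl, MonoidHom.comp_apply,
    gluing_apply, peri_apply, gam_of_pair]
  rfl

theorem base_gen (A : Matrix.SpecialLinearGroup (Fin 2) ℤ) (k : Fin 2) (a : GMGroup A)
    (ha : a ∈ (Monoid.PushoutI.base (phi A)).range) :
    ∃ m n : ℤ, a = gZ A k ^ m * gT A k ^ n := by
  obtain ⟨v, rfl⟩ := ha
  fin_cases k
  · exact ⟨_, _, gam_base_zero A v⟩
  · exact ⟨_, _, gam_base_one A (Multiplicative.toAdd v)⟩

theorem gT0_eq (A : Matrix.SpecialLinearGroup (Fin 2) ℤ) :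
    gT A 0 = gZ A 1 ^ (A.1 0 1) * gT A 1 ^ (A.1 1 1) := by
  have h0 := gam_base_zero A (Multiplicative.ofAdd ![0, 1])
  have h1 := gam_base_one A ![0, 1]
  rw [h1] at h0
  simp only [toAdd_ofAdd, Matrix.cons_val_zero, Matrix.cons_val_one, zpow_zero, one_mul,
    zpow_one] at h0
  rw [← h0]
  simp [Matrix.mulVec, dotProduct, Fin.sum_univ_two]

theorem gT1_eq (A : Matrix.SpecialLinearGroup (Fin 2) ℤ) :
    gT A 1 = gZ A 0 ^ (-(A.1 0 1)) * gT A 0 ^ (A.1 0 0) := by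
  have h0 := gam_base_zero A (Multiplicative.ofAdd ![-(A.1 0 1), A.1 0 0])
  have h1 := gam_base_one A ![-(A.1 0 1), A.1 0 0]
  rw [h1] at h0
  have hdet : A.1 0 0 * A.1 1 1 - A.1 0 1 * A.1 1 0 = 1 := by
    have := A.2
    rwa [Matrix.det_fin_two] at this
  have e0 : A.1.mulVec ![-(A.1 0 1), A.1 0 0] 0 = 0 := by
    simp [Matrix.mulVec, dotProduct, Fin.sum_univ_two]
    ring
  have e1 : A.1.mulVec ![-(A.1 0 1), A.1 0 0] 1 = 1 := by
    simp only [Matrix.mulVec, dotProduct, Fin.sum_univ_two, Matrix.cons_val_zero,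
      Matrix.cons_val_one]
    linarith
  rw [e0, e1, zpow_zero, one_mul, zpow_one] at h0
  exact h0

theorem gam_conj (A : Matrix.SpecialLinearGroup (Fin 2) ℤ) (k : Fin 2) (b d : ℤ) (m : ℕ) :
    (gX A k 0 ^ m)⁻¹ * (gZ A k ^ b * gT A k ^ d) * gX A k 0 ^ m =
      Monoid.PushoutI.of (φ := phi A) k
        ((FreeGroup.of 0 ^ m)⁻¹ * bdry ^ b * FreeGroup.of 0 ^ m, Multiplicative.ofAdd d) := by
  rw [← gam_of_pair]
  unfold gX
  rw [← map_pow, ← map_inv, ← map_mul, ← map_mul]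
  congr 1
  ext
  · simp
  · simp

theorem gam_conj_inj (A : Matrix.SpecialLinearGroup (Fin 2) ℤ) (k : Fin 2) (b d : ℤ)
    (hb : b ≠ 0) (m n : ℕ)
    (h : (gX A k 0 ^ m)⁻¹ * (gZ A k ^ b * gT A k ^ d) * gX A k 0 ^ m =
      (gX A k 0 ^ n)⁻¹ * (gZ A k ^ b * gT A k ^ d) * gX A k 0 ^ n) : m = n := by
  rw [gam_conj, gam_conj] at h
  have h2 := Monoid.PushoutI.of_injective (phi_injective A) k h
  exact gamRep_conj_inj b hb m n (congrArg Prod.fst h2)

theorem conj_inj0 (A : Matrix.SpecialLinearGroup (Fin 2) ℤ) (hb : A.1 0 1 ≠ 0) (m n : ℕ)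
    (h : (gX A 1 0 ^ m)⁻¹ * gT A 0 * gX A 1 0 ^ m = (gX A 1 0 ^ n)⁻¹ * gT A 0 * gX A 1 0 ^ n) :
    m = n := by
  rw [gT0_eq] at h
  exact gam_conj_inj A 1 _ _ hb m n h

theorem conj_inj1 (A : Matrix.SpecialLinearGroup (Fin 2) ℤ) (hb : A.1 0 1 ≠ 0) (m n : ℕ)
    (h : (gX A 0 0 ^ m)⁻¹ * gT A 1 * gX A 0 0 ^ m = (gX A 0 0 ^ n)⁻¹ * gT A 1 * gX A 0 0 ^ n) :
    m = n := by
  rw [gT1_eq] at h
  exact gam_conj_inj A 0 _ _ (neg_ne_zero.mpr hb) m n h

/-- arithmetic of the traces -/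
theorem arith (A : Matrix.SpecialLinearGroup (Fin 2) ℤ) (htr : 2 < |A.1 0 0 + A.1 1 1|)
    (ha : A.1 0 0 ≠ 0) (hd : A.1 1 1 ≠ 0) :
    A.1 0 1 ≠ 0 ∧ 1 < |((A.1 0 0 : ℤ) : ℝ)| * |((A.1 1 1 : ℤ) : ℝ)| := by
  have hdet : A.1 0 0 * A.1 1 1 - A.1 0 1 * A.1 1 0 = 1 := by
    have := A.2
    rwa [Matrix.det_fin_two] at this
  generalize A.1 0 0 = a at *
  generalize A.1 1 1 = d at *
  generalize A.1 0 1 = b at *
  generalize A.1 1 0 = c at *
  have ha1 : 1 ≤ |a| := Int.one_le_abs ha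
  have hd1 : 1 ≤ |d| := Int.one_le_abs hd
  have hsum : |a + d| ≤ |a| + |d| := abs_add_le a d
  have hprod : 1 < |a| * |d| := by nlinarith
  constructor
  · rintro rfl
    have h1 : a * d = 1 := by linarith
    have h2 : |a| * |d| = 1 := by rw [← abs_mul, h1, abs_one]
    omega
  · have : (1 : ℝ) < ((|a| * |d| : ℤ) : ℝ) := by exact_mod_cast hprod
    simpa using this

end Pool.Agent.NCP
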