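import Mathlib

/-! # MP_23cc9a_gt, module NCP/Grid: combinatorial Stokes on a square grid

PROOF. Induction on the two sizes (prove the `M × N` version by induction on `M`, then `N`).  -/

open Set Filter Topology MeasureTheory

namespace Pool.Agent.NCP

/-- Discrete Stokes on the `N × N` grid for an antisymmetric cochain. -/
theorem grid_stokes {X : Type*} (L : X → X → ℝ) (hL : ∀ u v, L u v = - L v u)
    (V : ℕ → ℕ → X) (N : ℕ) :
    ∑ i ∈ Finset.range N, ∑ j ∈ Finset.range N,
      (L (V i j) (V (i + 1) j) + L (V (i + 1) j) (V (i + 1) (j + 1)) +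
        L (V (i + 1) (j + 1)) (V i (j + 1)) + L (V i (j + 1)) (V i j)) =
    (∑ i ∈ Finset.range N, L (V i 0) (V (i + 1) 0)) +
      (∑ j ∈ Finset.range N, L (V N j) (V N (j + 1))) -
      (∑ i ∈ Finset.range N, L (V i N) (V (i + 1) N)) -
      (∑ j ∈ Finset.range N, L (V 0 j) (V 0 (j + 1))) := by
  have hc : ∀ i j, (L (V i j) (V (i + 1) j) + L (V (i + 1) j) (V (i + 1) (j + 1)) +
        L (V (i + 1) (j + 1)) (V i (j + 1)) + L (V i (j + 1)) (V i j)) =
      (L (V i j) (V (i + 1) j) - L (V i (j + 1)) (V (i + 1) (j + 1))) +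
      (L (V (i + 1) j) (V (i + 1) (j + 1)) - L (V i j) (V i (j + 1))) := by
    intro i j
    rw [hL (V (i + 1) (j + 1)) (V i (j + 1)), hL (V i (j + 1)) (V i j)]
    ring
  simp only [hc, Finset.sum_add_distrib]
  rw [Finset.sum_comm (f := fun i j =>
    L (V (i + 1) j) (V (i + 1) (j + 1)) - L (V i j) (V i (j + 1)))]
  have h1 : ∀ i, ∑ j ∈ Finset.range N,
      (L (V i j) (V (i + 1) j) - L (V i (j + 1)) (V (i + 1) (j + 1))) =
      L (V i 0) (V (i + 1) 0) - L (V i N) (V (i + 1) N) := fun i =>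
    Finset.sum_range_sub' (fun j => L (V i j) (V (i + 1) j)) N
  have h2 : ∀ j, ∑ i ∈ Finset.range N,
      (L (V (i + 1) j) (V (i + 1) (j + 1)) - L (V i j) (V i (j + 1))) =
      L (V N j) (V N (j + 1)) - L (V 0 j) (V 0 (j + 1)) := fun j =>
    Finset.sum_range_sub (fun i => L (V i j) (V i (j + 1))) N
  simp only [h1, h2, Finset.sum_sub_distrib]
  ring

end Pool.Agent.NCP
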