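import Pool.Agent.NCP.Stokes

/-! # MP_23cc9a_gt, module NCP/Hom: the limit cocycle

`J u v` = limit of `D.JN N u v` along `hyperfilter ℕ` (`|D.JN N u v| ≤ dist u v`). -/

open Set Filter Topology

namespace Pool.Agent.NCP

variable {𝒢 X Q : Type*} [Group 𝒢] [MetricSpace X] [MulAction 𝒢 X] [MulAction 𝒢 Q]
  [IsIsometricSMul 𝒢 X]

omit [IsIsometricSMul 𝒢 X] in
theorem CData.abs_lamA_le (D : CData 𝒢 X Q) (N : ℕ) (u v : X) : |D.lamA N u v| ≤ dist u v := by
  have h : ∀ x y, |D.lam N x y| ≤ dist x y := by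
    intro x y
    unfold CData.lam
    split_ifs
    · exact D.F_lip _ _ _
    · exact D.W_lip _ _
  have h1 := abs_le.mp (h u v)
  have h2 := abs_le.mp (h v u)
  rw [dist_comm v u] at h2
  unfold CData.lamA
  rw [abs_le]
  constructor <;> linarith [h1.1, h1.2, h2.1, h2.2]

omit [IsIsometricSMul 𝒢 X] in
theorem CData.abs_JN_le (D : CData 𝒢 X Q) (hX : Straight X) (N : ℕ) (u v : X) :
    |D.JN N u v| ≤ dist u v := by
  unfold CData.JN
  rcases Nat.eq_zero_or_pos N with rfl | hN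
  · simp
  have hN' : (0:ℝ) < N := by exact_mod_cast hN
  refine (Finset.abs_sum_le_sum_abs _ _).trans ?_
  calc ∑ i ∈ Finset.range N, |D.lamA N (pt u v ((i : ℝ) / N)) (pt u v (((i : ℝ) + 1) / N))|
      ≤ ∑ _i ∈ Finset.range N, dist u v / N := by
        refine Finset.sum_le_sum fun i _ => (D.abs_lamA_le N _ _).trans (le_of_eq ?_)
        rw [dist_pt hX, show (i : ℝ) / N - ((i : ℝ) + 1) / N = -(1 / N) by ring, abs_neg,
          abs_of_pos (by positivity)]
        ring
    _ = dist u v := by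
        rw [Finset.sum_const, Finset.card_range, nsmul_eq_mul]
        field_simp

omit [IsIsometricSMul 𝒢 X] in
theorem CData.JN_eq (D : CData 𝒢 X Q) (N : ℕ) (hN : 0 < N) (u v : X) (φ : ℝ → ℝ)
    (h : ∀ s ∈ Icc (0:ℝ) 1, ∀ t ∈ Icc (0:ℝ) 1, D.lamA N (pt u v s) (pt u v t) = φ t - φ s) :
    D.JN N u v = φ 1 - φ 0 := by
  unfold CData.JN
  have hN' : (0:ℝ) < N := by exact_mod_cast hN
  have h1 : ∀ i ∈ Finset.range N,
      D.lamA N (pt u v ((i : ℝ) / N)) (pt u v (((i : ℝ) + 1) / N)) =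
      (fun k : ℕ => φ ((k : ℝ) / N)) (i + 1) - (fun k : ℕ => φ ((k : ℝ) / N)) i := by
    intro i hi
    have hi' : (i : ℝ) + 1 ≤ N := by exact_mod_cast Finset.mem_range.mp hi
    have hi0 : (0:ℝ) ≤ i := Nat.cast_nonneg i
    rw [h _ ⟨by positivity, by rw [div_le_one hN']; linarith⟩ _
      ⟨by positivity, by rw [div_le_one hN']; exact hi'⟩]
    push_cast
    rfl
  rw [Finset.sum_congr rfl h1, Finset.sum_range_sub (fun k : ℕ => φ ((k : ℝ) / N)) N]
  simp only [Nat.cast_zero, zero_div]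
  rw [div_self hN'.ne']

omit [IsIsometricSMul 𝒢 X] in
theorem CData.lam_smul (D : CData 𝒢 X Q) (N : ℕ) (g : 𝒢) (u v : X) :
    D.lam N (g • u) (g • v) = D.lam N u v := by
  unfold CData.lam
  rw [D.e_smul]
  split_ifs with h
  · have h0 : 0 < D.e u := lt_of_le_of_lt (by positivity) h
    rw [D.τ_smul g u h0, D.F_smul]
  · exact D.W_smul g u v

theorem CData.JN_smul (D : CData 𝒢 X Q) (hX : Straight X) (N : ℕ) (g : 𝒢) (u v : X) :
    D.JN N (g • u) (g • v) = D.JN N u v := by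
  unfold CData.JN CData.lamA
  refine Finset.sum_congr rfl fun i _ => ?_
  rw [← smul_pt hX, ← smul_pt hX, D.lam_smul, D.lam_smul]

theorem CData.exists_J (D : CData 𝒢 X Q) (hX : Straight X) (hT : LipTri X) :
    ∃ J : X → X → ℝ, (∀ u v w, J u v + J v w = J u w) ∧
      (∀ (g : 𝒢) (u v : X), J (g • u) (g • v) = J u v) ∧
      (∀ (u v : X) (φ : ℝ → ℝ),
        (∀ s ∈ Icc (0:ℝ) 1, ∀ t ∈ Icc (0:ℝ) 1, D.W (pt u v s) (pt u v t) = φ t - φ s ∧
          ∀ q, D.F q (pt u v s) (pt u v t) = φ t - φ s) → J u v = φ 1 - φ 0) ∧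
      (∀ (u v : X) (q : Q) (η : ℝ), 0 < η →
        (∀ t ∈ Icc (0:ℝ) 1, η ≤ D.e (pt u v t) ∧ D.τ (pt u v t) = q) → J u v = D.F q u v) := by
  have hlim : ∀ u v : X, ∃ x : ℝ, Tendsto (fun N => D.JN N u v) (hyperfilter ℕ) (𝓝 x) := by
    intro u v
    have hc : IsCompact (Icc (-dist u v) (dist u v)) := isCompact_Icc
    obtain ⟨x, _, hx⟩ := hc.ultrafilter_le_nhds ((hyperfilter ℕ).map (fun N => D.JN N u v)) (by
      rw [Ultrafilter.coe_map, le_principal_iff, mem_map]
      filter_upwards with N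
      exact abs_le.mp (D.abs_JN_le hX N u v))
    exact ⟨x, hx⟩
  choose J hJ using hlim
  have hle : (hyperfilter ℕ : Filter ℕ) ≤ atTop := Nat.hyperfilter_le_atTop
  refine ⟨J, fun u v w => ?_, fun g u v => ?_, fun u v φ h => ?_, fun u v q η hη h => ?_⟩
  · have h1 := ((hJ u v).add (hJ v w)).sub (hJ u w)
    have h2 := tendsto_nhds_unique h1 ((D.tendsto_triangle hX hT u v w).mono_left hle)
    linarith
  · refine tendsto_nhds_unique (hJ (g • u) (g • v)) ?_
    simp only [D.JN_smul hX]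
    exact hJ u v
  · refine tendsto_nhds_unique (hJ u v) (tendsto_const_nhds.congr' ?_)
    filter_upwards [hle (eventually_gt_atTop 0)] with N hN
    refine (D.JN_eq N hN u v φ fun s hs t ht => ?_).symm
    have hl : ∀ s ∈ Icc (0:ℝ) 1, ∀ t ∈ Icc (0:ℝ) 1,
        D.lam N (pt u v s) (pt u v t) = φ t - φ s := by
      intro s hs t ht
      unfold CData.lam
      split_ifs
      · exact (h s hs t ht).2 _
      · exact (h s hs t ht).1
    unfold CData.lamA
    rw [hl s hs t ht, hl t ht s hs]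
    ring
  · refine tendsto_nhds_unique (hJ u v) (tendsto_const_nhds.congr' ?_)
    have hev : ∀ᶠ N : ℕ in atTop, 1 / (N : ℝ) ^ 2 < η := by
      have h1 : Tendsto (fun N : ℕ => 1 / (N : ℝ) ^ 2) atTop (𝓝 0) := by
        have := tendsto_one_div_atTop_nhds_zero_nat (𝕜 := ℝ)
        have h2 := this.pow 2
        simpa [one_div] using h2
      exact h1.eventually (gt_mem_nhds hη)
    filter_upwards [hle (eventually_gt_atTop 0), hle hev] with N hN hNη
    have hφ : ∀ s t : ℝ, D.F q (pt u v s) (pt u v t) =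
        D.F q u (pt u v t) - D.F q u (pt u v s) := by
      intro s t
      have := D.F_add q u (pt u v s) (pt u v t)
      linarith
    have hl : ∀ s ∈ Icc (0:ℝ) 1, ∀ t ∈ Icc (0:ℝ) 1,
        D.lam N (pt u v s) (pt u v t) = D.F q u (pt u v t) - D.F q u (pt u v s) := by
      intro s hs t ht
      unfold CData.lam
      rw [if_pos (lt_of_lt_of_le hNη (h s hs).1), (h s hs).2, hφ]
    have := D.JN_eq N hN u v (fun t => D.F q u (pt u v t)) (fun s hs t ht => by
      unfold CData.lamA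
      rw [hl s hs t ht, hl t ht s hs]
      ring)
    rw [this, pt_one hX, pt_zero, D.F_self, sub_zero]

end Pool.Agent.NCP
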