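import Pool.Agent.NCP.Base

/-! # MP_23cc9a_gt, module NCP/KeyHom: a `G`-invariant cocycle gives a homomorphism -/

open Set Filter Topology

namespace Pool.Agent.NCP

variable {X : Type*} [MetricSpace X] {Γ : Type*} [Group Γ] [MulAction Γ X]

/-- homomorphism step: a `G`-invariant cocycle gives a homomorphism; commutators die -/
theorem cocycle_hom {J : X → X → ℝ} (hJ : ∀ u v w, J u v + J v w = J u w) {G : Subgroup Γ}
    (hJG : ∀ (g : G) (u v : X), J ((g : Γ) • u) ((g : Γ) • v) = J u v) (x₀ : X) :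
    ∃ ψ : G →* Multiplicative ℝ, ∀ (g : G) (x : X), J x ((g : Γ) • x) = (ψ g).toAdd := by
  have key : ∀ (g : G) (x y : X), J x ((g : Γ) • x) = J y ((g : Γ) • y) := by
    intro g x y
    have h1 := hJ x y ((g : Γ) • y)
    have h2 := hJ x ((g : Γ) • x) ((g : Γ) • y)
    rw [hJG] at h2
    linarith
  refine ⟨MonoidHom.mk' (fun g => Multiplicative.ofAdd (J x₀ ((g : Γ) • x₀))) ?_, ?_⟩
  · intro a b
    rw [← ofAdd_add]
    congr 1
    have h1 := hJ x₀ ((b : Γ) • x₀) (((a * b : G) : Γ) • x₀)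
    have h2 := key a x₀ ((b : Γ) • x₀)
    rw [← h1, h2, Subgroup.coe_mul, mul_smul, add_comm]
  · intro g x
    simp only [MonoidHom.mk'_apply, toAdd_ofAdd]
    exact key g x x₀

end Pool.Agent.NCP
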