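import Pool.Agent.NCP.Up

/-! # MP_23cc9a_gt, module NCP/Label: extension of labels along the upward map -/

open Set Filter Topology

namespace Pool.Agent.NCP

variable {X : Type*} [MetricSpace X] {Γ : Type*} [Group Γ] [MulAction Γ X] [IsIsometricSMul Γ X]

omit [IsIsometricSMul Γ X] in
private theorem label_cont (hX : Straight X) (p q : X) : Continuous (fun t : ℝ => pt p q t) := by
  have h : LipschitzWith ⟨dist p q, dist_nonneg⟩ (fun t : ℝ => pt p q t) := by
    refine LipschitzWith.of_dist_le_mul fun s t => ?_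
    rw [dist_pt hX, Real.dist_eq]
    exact le_refl _
  exact h.continuous

private theorem label_step (hX : Straight X) (h : Γ) {Q : Type*} {R₀ : ℝ} (ω : X → Q)
    (hω : ∀ u, R₀ < exc h u → ∀ᶠ u' in 𝓝 u, ω u' = ω u) (v : X) (hv : R₀ < exc h v) :
    ω (upM h v) = ω v := by
  haveI : PreconnectedSpace (Icc (0 : ℝ) (1 / 2)) :=
    Subtype.preconnectedSpace isPreconnected_Icc
  set f : Icc (0 : ℝ) (1 / 2) → Q := fun s => ω (pt (h • v) v (1 + (s : ℝ))) with hf
  have hloc : IsLocallyConstant f := by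
    rw [IsLocallyConstant.iff_eventually_eq]
    intro s
    have hs := s.2
    have h1 : R₀ < exc h (pt (h • v) v (1 + (s : ℝ))) :=
      hv.trans_le (exc_le_exc_up hX h v hs.1 hs.2)
    have h2 := hω _ h1
    have h3 : Continuous (fun s : Icc (0 : ℝ) (1 / 2) => pt (h • v) v (1 + (s : ℝ))) :=
      (label_cont hX (h • v) v).comp (continuous_const.add continuous_subtype_val)
    exact (h3.tendsto s).eventually h2
  have h0 : f ⟨0, by norm_num, by norm_num⟩ = ω v := by
    simp only [hf, add_zero, pt_one hX]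
  have h1 : f ⟨1 / 2, by norm_num, le_refl _⟩ = ω (upM h v) := by
    simp only [hf, upM]
    norm_num
  rw [← h0, ← h1]
  exact hloc.apply_eq_of_preconnectedSpace _ _

/-- Extension of a locally constant equivariant label from `{R₀ < exc h}` to `{0 < exc h}`:
`τ u = ω (upM^[k] u)` for large `k`; successive iterates beyond `R₀` are joined by a path
(`s ↦ pt (h u_k) u_k (1+s)`) inside `{R₀ < exc h}`, on which `ω` is constant. -/
theorem exists_label (hX : Straight X) [ProperSpace X] (hA : GoodAction Γ X) (h : Γ)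
    {G : Subgroup Γ} (hG : ∀ g ∈ G, g * h = h * g) {Q : Type*} [MulAction G Q] {R₀ : ℝ}
    (hR₀ : 0 ≤ R₀) (ω : X → Q)
    (hω : ∀ u, R₀ < exc h u → ∀ᶠ u' in 𝓝 u, ω u' = ω u)
    (hωG : ∀ (g : G) (u : X), R₀ < exc h u → ω ((g : Γ) • u) = g • ω u) :
    ∃ τ : X → Q, (∀ u, R₀ < exc h u → τ u = ω u) ∧
      (∀ u, 0 < exc h u → ∀ᶠ u' in 𝓝 u, τ u' = τ u) ∧
      (∀ (g : G) (u : X), 0 < exc h u → τ ((g : Γ) • u) = g • τ u) := by
  classical
  -- growth of the excess along iterates
  have hmono : ∀ (u : X) (j k : ℕ), exc h ((upM h)^[j] u) ≤ exc h ((upM h)^[j + k] u) := by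
    intro u j k
    induction k with
    | zero => exact le_refl _
    | succ k ih =>
      refine ih.trans ?_
      rw [← add_assoc, Function.iterate_succ_apply']
      have := exc_le_exc_up hX h ((upM h)^[j + k] u) (s := 1 / 2) (by norm_num) (le_refl _)
      refine this.trans (le_of_eq ?_)
      unfold upM
      norm_num
  have hconst : ∀ (u : X) (j k : ℕ), R₀ < exc h ((upM h)^[j] u) →
      ω ((upM h)^[j + k] u) = ω ((upM h)^[j] u) := by
    intro u j k hj
    induction k with
    | zero => rfl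
    | succ k ih =>
      rw [← add_assoc, Function.iterate_succ_apply',
        label_step hX h ω hω _ (hj.trans_le (hmono u j k)), ih]
  have hconst' : ∀ (u : X) (j k : ℕ), R₀ < exc h ((upM h)^[j] u) →
      R₀ < exc h ((upM h)^[k] u) → ω ((upM h)^[j] u) = ω ((upM h)^[k] u) := by
    intro u j k hj hk
    rcases le_total j k with hjk | hjk
    · obtain ⟨d, rfl⟩ := Nat.exists_eq_add_of_le hjk
      exact (hconst u j d hj).symm
    · obtain ⟨d, rfl⟩ := Nat.exists_eq_add_of_le hjk
      exact hconst u k d hk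
  set τ : X → Q := fun u => if hk : ∃ k : ℕ, R₀ < exc h ((upM h)^[k] u) then
    ω ((upM h)^[hk.choose] u) else ω u with hτ
  have hτk : ∀ (u : X) (k : ℕ), R₀ < exc h ((upM h)^[k] u) → τ u = ω ((upM h)^[k] u) := by
    intro u k hk
    have hex : ∃ k : ℕ, R₀ < exc h ((upM h)^[k] u) := ⟨k, hk⟩
    rw [hτ]
    simp only [dif_pos hex]
    exact hconst' u _ _ hex.choose_spec hk
  have hex : ∀ u : X, 0 < exc h u → ∃ k : ℕ, R₀ < exc h ((upM h)^[k] u) := by
    intro u hu
    exact ((tendsto_disp_iterate hX hA h u hu).eventually (eventually_gt_atTop R₀)).exists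
  refine ⟨τ, fun u hu => ?_, fun u hu => ?_, fun g u hu => ?_⟩
  · exact hτk u 0 hu
  · obtain ⟨k, hk⟩ := hex u hu
    have hc : Continuous (fun x : X => (upM h)^[k] x) := (continuous_upM hX h).iterate k
    have h1 : ∀ᶠ u' in 𝓝 u, ω ((upM h)^[k] u') = ω ((upM h)^[k] u) :=
      (hc.tendsto u).eventually (hω _ hk)
    have h2 : ∀ᶠ u' in 𝓝 u, R₀ < exc h ((upM h)^[k] u') :=
      (((continuous_exc h).comp hc).tendsto u).eventually (eventually_gt_nhds hk)
    filter_upwards [h1, h2] with u' h1 h2
    rw [hτk u' k h2, hτk u k hk, h1]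
  · obtain ⟨k, hk⟩ := hex u hu
    have hg := hG g g.2
    have hit : ∀ k : ℕ, (upM h)^[k] ((g : Γ) • u) = (g : Γ) • (upM h)^[k] u := by
      intro k
      induction k with
      | zero => rfl
      | succ k ih =>
        rw [Function.iterate_succ_apply', Function.iterate_succ_apply', ih,
          smul_upM_of_comm hX hg]
    have hk' : R₀ < exc h ((upM h)^[k] ((g : Γ) • u)) := by
      rw [hit, exc_smul_of_comm hg]
      exact hk
    rw [hτk _ k hk', hτk u k hk, hit, hωG g _ hk]

end Pool.Agent.NCP
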