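import Pool.Agent.NCP.Displ

/-! # MP_23cc9a_gt, module NCP/Part: equivariant Lipschitz partition of unity

PROOF. Choose `x₀` and `R > 0` such that every `u` has some `γ` with `dist (γ⁻¹ • u) x₀ ≤ R/2`
(cocompactness). `θ u = max 0 (R - dist u x₀)`, `θ_γ u = θ (γ⁻¹ • u)`, `S u = ∑ᶠ γ, θ_γ u`. At most
`M` group elements have `θ_γ u ≠ 0` (if `γ₁, γ` are two of them then `γ⁻¹ γ₁` moves a point of
`closedBall x₀ R` into it; `M` the number of such elements, `GoodAction.disc`), and `S u ≥ R/2`.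
`w γ u = θ_γ u / S u`. Lipschitz: `θ` is 1-Lipschitz and `≤ R`, `|S u - S u'| ≤ 2 M dist u u'`. -/

open Set Filter Topology

namespace Pool.Agent.NCP

variable {X : Type*} [MetricSpace X] {Γ : Type*} [Group Γ] [MulAction Γ X] [IsIsometricSMul Γ X]

theorem exists_partition [ProperSpace X] [Nonempty X] (hA : GoodAction Γ X) :
    ∃ (w : Γ → X → ℝ) (C : ℝ), 0 ≤ C ∧ (∀ γ u, 0 ≤ w γ u) ∧
      (∀ u, {γ | w γ u ≠ 0}.Finite) ∧ (∀ u, ∑ᶠ γ, w γ u = 1) ∧
      (∀ (k γ : Γ) (u : X), w (k * γ) (k • u) = w γ u) ∧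
      (∀ u u', ∑ᶠ γ, |w γ u - w γ u'| ≤ C * dist u u') := by
  classical
  obtain ⟨x₀⟩ := ‹Nonempty X›
  obtain ⟨K, hK, hKc⟩ := hA.cocpt
  obtain ⟨R', hR'⟩ := hK.isBounded.subset_closedBall x₀
  obtain ⟨R, hR0, hRR⟩ : ∃ R : ℝ, 0 < R ∧ R' ≤ R / 2 := ⟨2 * (|R'| + 1), by positivity, by
    have := le_abs_self R'; linarith⟩
  have hcov : ∀ u : X, ∃ γ : Γ, dist (γ⁻¹ • u) x₀ ≤ R / 2 := by
    intro u
    obtain ⟨γ, hγ⟩ := hKc u
    refine ⟨γ⁻¹, ?_⟩
    rw [inv_inv]
    exact (Metric.mem_closedBall.1 (hR' hγ)).trans hRR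
  let F : Set Γ := {γ : Γ | ∃ x ∈ Metric.closedBall x₀ R, γ • x ∈ Metric.closedBall x₀ R}
  have hF : F.Finite := hA.disc _ (isCompact_closedBall x₀ R)
  let θ : X → ℝ := fun u => max 0 (R - dist u x₀)
  have hθ0 : ∀ u, 0 ≤ θ u := fun u => le_max_left _ _
  have hθL : ∀ u v, |θ u - θ v| ≤ dist u v := by
    intro u v
    have h1 : dist u x₀ ≤ dist u v + dist v x₀ := dist_triangle _ _ _
    have h2 : dist v x₀ ≤ dist u v + dist u x₀ := by
      have := dist_triangle v u x₀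
      rwa [dist_comm v u] at this
    have h3 : (0:ℝ) ≤ dist u v := dist_nonneg
    change |max 0 (R - dist u x₀) - max 0 (R - dist v x₀)| ≤ _
    rw [abs_le]
    constructor
    · rcases max_cases 0 (R - dist u x₀) with ⟨a, b⟩ | ⟨a, b⟩ <;>
        rcases max_cases 0 (R - dist v x₀) with ⟨c, d⟩ | ⟨c, d⟩ <;> rw [a, c] <;> linarith
    · rcases max_cases 0 (R - dist u x₀) with ⟨a, b⟩ | ⟨a, b⟩ <;>
        rcases max_cases 0 (R - dist v x₀) with ⟨c, d⟩ | ⟨c, d⟩ <;> rw [a, c] <;> linarith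
  let A : X → Set Γ := fun u => {γ : Γ | θ (γ⁻¹ • u) ≠ 0}
  have hAF : ∀ u, ∃ γ₁ : Γ, A u ⊆ (fun δ => γ₁ * δ⁻¹) '' F := by
    intro u
    obtain ⟨γ₁, h1⟩ := hcov u
    refine ⟨γ₁, ?_⟩
    intro γ hγ
    have h2 : dist (γ⁻¹ • u) x₀ ≤ R := by
      by_contra hcon
      apply hγ
      change max 0 (R - dist (γ⁻¹ • u) x₀) = 0
      rw [max_eq_left]
      linarith
    refine ⟨γ⁻¹ * γ₁, ⟨γ₁⁻¹ • u, ?_, ?_⟩, ?_⟩
    · rw [Metric.mem_closedBall]
      linarith
    · rw [← mul_smul, mul_assoc, mul_inv_cancel, mul_one, Metric.mem_closedBall]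
      exact h2
    · simp
  have hAfin : ∀ u, (A u).Finite := by
    intro u
    obtain ⟨γ₁, h1⟩ := hAF u
    exact (hF.image _).subset h1
  have hAcard : ∀ u, (hAfin u).toFinset.card ≤ F.ncard := by
    intro u
    obtain ⟨γ₁, h1⟩ := hAF u
    rw [← Set.ncard_eq_toFinset_card _ (hAfin u)]
    exact (Set.ncard_le_ncard h1 (hF.image _)).trans (Set.ncard_image_le hF)
  let S : X → ℝ := fun u => ∑ᶠ γ : Γ, θ (γ⁻¹ • u)
  have hSsum : ∀ u (s : Finset Γ), A u ⊆ s → S u = ∑ γ ∈ s, θ (γ⁻¹ • u) := by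
    intro u s hs
    apply finsum_eq_sum_of_support_subset
    intro γ hγ
    exact hs hγ
  have hSpos : ∀ u, R / 2 ≤ S u := by
    intro u
    obtain ⟨γ, hγ⟩ := hcov u
    rw [hSsum u (hAfin u).toFinset (by simp)]
    have h1 : R / 2 ≤ θ (γ⁻¹ • u) := by
      change _ ≤ max 0 (R - dist (γ⁻¹ • u) x₀)
      refine le_trans ?_ (le_max_right _ _)
      linarith
    refine h1.trans ?_
    apply Finset.single_le_sum (f := fun γ : Γ => θ (γ⁻¹ • u)) (fun i _ => hθ0 _)
    rw [Set.Finite.mem_toFinset]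
    change θ (γ⁻¹ • u) ≠ 0
    linarith
  have hSpos' : ∀ u, 0 < S u := fun u => by have := hSpos u; linarith
  have hSequiv : ∀ (k : Γ) (u : X), S (k • u) = S u := by
    intro k u
    change ∑ᶠ γ : Γ, θ (γ⁻¹ • k • u) = ∑ᶠ γ : Γ, θ (γ⁻¹ • u)
    rw [← finsum_comp_equiv (Equiv.mulLeft k)]
    apply finsum_congr
    intro γ
    rw [Equiv.coe_mulLeft, mul_inv_rev, mul_smul, inv_smul_smul]
  have hSL : ∀ u u', |S u - S u'| ≤ 2 * F.ncard * dist u u' := by
    intro u u'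
    let s : Finset Γ := (hAfin u).toFinset ∪ (hAfin u').toFinset
    rw [hSsum u s (fun γ hγ => by simp [s, hγ]), hSsum u' s (fun γ hγ => by simp [s, hγ]),
      ← Finset.sum_sub_distrib]
    refine (Finset.abs_sum_le_sum_abs _ _).trans ?_
    have h1 : ∀ γ ∈ s, |θ (γ⁻¹ • u) - θ (γ⁻¹ • u')| ≤ dist u u' := by
      intro γ _
      refine (hθL _ _).trans ?_
      rw [dist_smul]
    refine (Finset.sum_le_sum h1).trans ?_
    rw [Finset.sum_const, nsmul_eq_mul]
    apply mul_le_mul_of_nonneg_right _ dist_nonneg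
    have h2 : s.card ≤ F.ncard + F.ncard := (Finset.card_union_le _ _).trans
      (Nat.add_le_add (hAcard u) (hAcard u'))
    have h3 : (s.card : ℝ) ≤ ((F.ncard + F.ncard : ℕ) : ℝ) := Nat.cast_le.2 h2
    push_cast at h3
    linarith
  refine ⟨fun γ u => θ (γ⁻¹ • u) / S u, 8 * F.ncard / R, by positivity, ?_, ?_, ?_, ?_, ?_⟩
  · intro γ u
    exact div_nonneg (hθ0 _) (hSpos' u).le
  · intro u
    apply (hAfin u).subset
    intro γ hγ h
    apply hγ
    change θ (γ⁻¹ • u) / S u = 0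
    rw [h, zero_div]
  · intro u
    have h1 : ∑ᶠ γ : Γ, θ (γ⁻¹ • u) / S u = ∑ γ ∈ (hAfin u).toFinset, θ (γ⁻¹ • u) / S u := by
      apply finsum_eq_sum_of_support_subset
      intro γ hγ
      rw [Set.Finite.coe_toFinset]
      intro h
      apply hγ
      change θ (γ⁻¹ • u) / S u = 0
      rw [h, zero_div]
    rw [h1, ← Finset.sum_div, ← hSsum u (hAfin u).toFinset (by simp)]
    exact div_self (hSpos' u).ne'
  · intro k γ u
    change θ ((k * γ)⁻¹ • k • u) / S (k • u) = _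
    rw [hSequiv, mul_inv_rev, mul_smul, inv_smul_smul]
  · intro u u'
    let s : Finset Γ := (hAfin u).toFinset ∪ (hAfin u').toFinset
    have h1 : ∑ᶠ γ : Γ, |θ (γ⁻¹ • u) / S u - θ (γ⁻¹ • u') / S u'| =
        ∑ γ ∈ s, |θ (γ⁻¹ • u) / S u - θ (γ⁻¹ • u') / S u'| := by
      apply finsum_eq_sum_of_support_subset
      intro γ hγ
      by_contra hcon
      apply hγ
      have h2 : θ (γ⁻¹ • u) = 0 := by
        by_contra h; exact hcon (by simp [s, A, h])
      have h3 : θ (γ⁻¹ • u') = 0 := by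
        by_contra h; exact hcon (by simp [s, A, h])
      change |θ (γ⁻¹ • u) / S u - θ (γ⁻¹ • u') / S u'| = 0
      rw [h2, h3, zero_div, zero_div, sub_zero, abs_zero]
    change ∑ᶠ γ : Γ, |θ (γ⁻¹ • u) / S u - θ (γ⁻¹ • u') / S u'| ≤ _
    rw [h1]
    have hcard : (s.card : ℝ) ≤ 2 * F.ncard := by
      have h2 : s.card ≤ F.ncard + F.ncard := (Finset.card_union_le _ _).trans
        (Nat.add_le_add (hAcard u) (hAcard u'))
      have h3 : (s.card : ℝ) ≤ ((F.ncard + F.ncard : ℕ) : ℝ) := Nat.cast_le.2 h2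
      push_cast at h3
      linarith
    have h4 : ∀ γ ∈ s, |θ (γ⁻¹ • u) / S u - θ (γ⁻¹ • u') / S u'| ≤
        dist u u' / S u + θ (γ⁻¹ • u') * (|S u - S u'| / (S u * S u')) := by
      intro γ _
      have e : θ (γ⁻¹ • u) / S u - θ (γ⁻¹ • u') / S u' =
          (θ (γ⁻¹ • u) - θ (γ⁻¹ • u')) / S u +
            θ (γ⁻¹ • u') * ((S u' - S u) / (S u * S u')) := by
        have a1 := (hSpos' u).ne'
        have a2 := (hSpos' u').ne'
        field_simp
        ring
      rw [e]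
      refine (abs_add_le _ _).trans ?_
      rw [abs_div, abs_mul, abs_div, abs_of_nonneg (hθ0 (γ⁻¹ • u')), abs_of_pos (hSpos' u),
        abs_of_pos (mul_pos (hSpos' u) (hSpos' u')), abs_sub_comm (S u') (S u)]
      gcongr
      · exact (hSpos' u).le
      · refine (hθL _ _).trans ?_
        rw [dist_smul]
    refine (Finset.sum_le_sum h4).trans ?_
    rw [Finset.sum_add_distrib, Finset.sum_const, nsmul_eq_mul, ← Finset.sum_mul,
      ← hSsum u' s (fun γ hγ => by simp [s, hγ])]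
    have a1 := hSpos' u
    have a2 := hSpos' u'
    have e2 : S u' * (|S u - S u'| / (S u * S u')) = |S u - S u'| / S u := by
      field_simp
    rw [e2]
    have h5 : 1 / S u ≤ 2 / R := by
      rw [div_le_div_iff₀ a1 hR0]
      have := hSpos u
      linarith
    have h6 := hSL u u'
    have hd : (0:ℝ) ≤ dist u u' := dist_nonneg
    calc (s.card : ℝ) * (dist u u' / S u) + |S u - S u'| / S u
        = ((s.card : ℝ) * dist u u' + |S u - S u'|) * (1 / S u) := by ring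
      _ ≤ (2 * F.ncard * dist u u' + 2 * F.ncard * dist u u') * (2 / R) := by
        apply mul_le_mul _ h5 (by positivity) (by positivity)
        exact add_le_add (mul_le_mul_of_nonneg_right hcard hd) h6
      _ = 8 * F.ncard / R * dist u u' := by ring

end Pool.Agent.NCP
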