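import Pool.Agent.NCP.Pot
import Pool.Agent.NCP.Part

/-! # MP_23cc9a_gt, module NCP/Weights: the background functional

`w_γ` from `exists_partition`: `w_{kγ} (k u) = w_γ u`, `∑_γ |w_γ u - w_γ u'| ≤ C'' dist u u'`.
Choose `g : Γ → Γ` with values in `G` and `g (k γ) = k g γ` for `k ∈ G` (right transversal), and put
`W u v = ∑_γ w_γ u (f ((g γ)⁻¹ v) - f ((g γ)⁻¹ u))`. Each `x ↦ f ((g γ)⁻¹ x)` is a potential.
For the last estimate subtract the increment of `f` itself (`∑_γ (w_γ u - w_γ u') = 0`). -/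

open Set Filter Topology

namespace Pool.Agent.NCP

variable {X : Type*} [MetricSpace X] {Γ : Type*} [Group Γ] [MulAction Γ X] [IsIsometricSMul Γ X]

/-- A right transversal. -/
private theorem exists_transversal (G : Subgroup Γ) :
    ∃ g : Γ → Γ, (∀ γ, g γ ∈ G) ∧ ∀ k ∈ G, ∀ γ, g (k * γ) = k * g γ := by
  classical
  let r : Γ → Γ := fun γ => (Quotient.mk (QuotientGroup.rightRel G) γ).out
  refine ⟨fun γ => γ * (r γ)⁻¹, ?_, ?_⟩
  · intro γ
    have h : (QuotientGroup.rightRel G) (r γ) γ := Quotient.exact (Quotient.out_eq _)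
    rw [QuotientGroup.rightRel_apply] at h
    exact h
  · intro k hk γ
    have h : r (k * γ) = r γ := by
      change (Quotient.mk (QuotientGroup.rightRel G) (k * γ)).out = _
      have e : Quotient.mk (QuotientGroup.rightRel G) (k * γ) =
          Quotient.mk (QuotientGroup.rightRel G) γ := by
        apply Quotient.sound
        change (QuotientGroup.rightRel G) (k * γ) γ
        rw [QuotientGroup.rightRel_apply]
        rw [mul_inv_rev, ← mul_assoc, mul_inv_cancel, one_mul]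
        exact G.inv_mem hk
      rw [e]
    change k * γ * (r (k * γ))⁻¹ = k * (γ * (r γ)⁻¹)
    rw [h, mul_assoc]

theorem exists_background [ProperSpace X] [Nonempty X] (hX : Straight X) (hA : GoodAction Γ X)
    {h : Γ} {G : Subgroup Γ} (hG : ∀ g ∈ G, g * h = h * g) {f : X → ℝ} (hf : IsPot h f)
    {C r₀ : ℝ} (hC : 0 ≤ C) (hr₀ : 0 < r₀)
    (hE : ∀ f f' : X → ℝ, IsPot h f → IsPot h f' → ∀ u u' : X, dist u u' ≤ r₀ →
        |(f u' - f u) - (f' u' - f' u)| ≤ 4 * exc h u + C * (dist u u') ^ 2) :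
    ∃ (W : X → X → ℝ) (C' : ℝ), 0 ≤ C' ∧
      (∀ g ∈ G, ∀ u v : X, W (g • u) (g • v) = W u v) ∧
      (∀ u, W u u = 0) ∧
      (∀ u v, |W u v| ≤ dist u v) ∧
      (∀ f', IsPot h f' → ∀ u v, dist u v ≤ r₀ →
        |W u v - (f' v - f' u)| ≤ 4 * exc h u + C * (dist u v) ^ 2) ∧
      (∀ u u' v v', dist v v' ≤ r₀ →
        |(W u v - W u v') - (W u' v - W u' v')| ≤
          C' * dist u u' * (4 * exc h v + C * (dist v v') ^ 2)) ∧
      (∀ y, disp h y = ell X h → ∀ s ∈ Icc (0:ℝ) 1, ∀ t ∈ Icc (0:ℝ) 1,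
        W (pt y (h • y) s) (pt y (h • y) t) = -(t - s) * ell X h) := by
  classical
  obtain ⟨w, C', hC', hw0, hwf, hw1, hwe, hwL⟩ := exists_partition (X := X) hA
  obtain ⟨g, hgG, hgk⟩ := exists_transversal G
  have hcomm : ∀ γ, (g γ)⁻¹ * h = h * (g γ)⁻¹ := by
    intro γ
    have : Commute (g γ) h := hG _ (hgG γ)
    exact this.inv_left.eq
  have hpot : ∀ γ, IsPot h (fun x => f ((g γ)⁻¹ • x)) := fun γ => hf.comp (hcomm γ)
  -- finite sums
  have hsum : ∀ (u : X) (φ : Γ → ℝ) (s : Finset Γ), {γ | w γ u ≠ 0} ⊆ s →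
      ∑ᶠ γ, w γ u * φ γ = ∑ γ ∈ s, w γ u * φ γ := by
    intro u φ s hs
    apply finsum_eq_sum_of_support_subset
    intro γ hγ
    apply hs
    intro h0
    apply hγ
    change w γ u * φ γ = 0
    rw [h0, zero_mul]
  have hsum1 : ∀ (u : X) (s : Finset Γ), {γ | w γ u ≠ 0} ⊆ s → ∑ γ ∈ s, w γ u = 1 := by
    intro u s hs
    rw [← hw1 u]
    symm
    apply finsum_eq_sum_of_support_subset
    intro γ hγ
    exact hs hγ
  have hbound : ∀ (u : X) (φ : Γ → ℝ) (B : ℝ), (∀ γ, |φ γ| ≤ B) →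
      |∑ᶠ γ, w γ u * φ γ| ≤ B := by
    intro u φ B hB
    rw [hsum u φ (hwf u).toFinset (by simp)]
    refine (Finset.abs_sum_le_sum_abs _ _).trans ?_
    refine (Finset.sum_le_sum (g := fun γ => w γ u * B) ?_).trans ?_
    · intro γ _
      rw [abs_mul, abs_of_nonneg (hw0 γ u)]
      exact mul_le_mul_of_nonneg_left (hB γ) (hw0 γ u)
    · rw [← Finset.sum_mul, hsum1 u _ (by simp), one_mul]
  have hconst : ∀ (u : X) (φ : Γ → ℝ) (c : ℝ), ∑ᶠ γ, w γ u * φ γ - c =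
      ∑ᶠ γ, w γ u * (φ γ - c) := by
    intro u φ c
    rw [hsum u φ (hwf u).toFinset (by simp), hsum u _ (hwf u).toFinset (by simp)]
    have e : c = ∑ γ ∈ (hwf u).toFinset, w γ u * c := by
      rw [← Finset.sum_mul, hsum1 u _ (by simp), one_mul]
    conv_lhs => rw [e]
    rw [← Finset.sum_sub_distrib]
    apply Finset.sum_congr rfl
    intro γ _
    ring
  let W : X → X → ℝ := fun u v => ∑ᶠ γ, w γ u * (f ((g γ)⁻¹ • v) - f ((g γ)⁻¹ • u))
  refine ⟨W, C', hC', ?_, ?_, ?_, ?_, ?_, ?_⟩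
  · intro k hk u v
    change ∑ᶠ γ, w γ (k • u) * (f ((g γ)⁻¹ • k • v) - f ((g γ)⁻¹ • k • u)) =
      ∑ᶠ γ, w γ u * (f ((g γ)⁻¹ • v) - f ((g γ)⁻¹ • u))
    rw [← finsum_comp_equiv (Equiv.mulLeft k)]
    apply finsum_congr
    intro γ
    rw [Equiv.coe_mulLeft, hwe, hgk k hk, mul_inv_rev, mul_smul, mul_smul, inv_smul_smul,
      inv_smul_smul]
  · intro u
    change ∑ᶠ γ, w γ u * (f ((g γ)⁻¹ • u) - f ((g γ)⁻¹ • u)) = 0
    simp
  · intro u v
    apply hbound
    intro γ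
    have := hf.1 ((g γ)⁻¹ • v) ((g γ)⁻¹ • u)
    rw [dist_smul, dist_comm] at this
    exact this
  · intro f' hf' u v huv
    change |∑ᶠ γ, w γ u * (f ((g γ)⁻¹ • v) - f ((g γ)⁻¹ • u)) - (f' v - f' u)| ≤ _
    rw [hconst]
    apply hbound
    intro γ
    exact hE _ f' (hpot γ) hf' u v huv
  · intro u u' v v' hvv'
    let s : Finset Γ := (hwf u).toFinset ∪ (hwf u').toFinset
    have hs : {γ | w γ u ≠ 0} ⊆ s := fun γ hγ => by
      have : w γ u ≠ 0 := hγ
      simp [s, this]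
    have hs' : {γ | w γ u' ≠ 0} ⊆ s := fun γ hγ => by
      have : w γ u' ≠ 0 := hγ
      simp [s, this]
    have e1 : (W u v - W u v') - (W u' v - W u' v') = ∑ γ ∈ s, (w γ u - w γ u') *
        ((f ((g γ)⁻¹ • v) - f ((g γ)⁻¹ • v')) - (f v - f v')) := by
      change (∑ᶠ γ, w γ u * (f ((g γ)⁻¹ • v) - f ((g γ)⁻¹ • u)) -
          ∑ᶠ γ, w γ u * (f ((g γ)⁻¹ • v') - f ((g γ)⁻¹ • u))) -
        (∑ᶠ γ, w γ u' * (f ((g γ)⁻¹ • v) - f ((g γ)⁻¹ • u')) -
          ∑ᶠ γ, w γ u' * (f ((g γ)⁻¹ • v') - f ((g γ)⁻¹ • u'))) = _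
      rw [hsum u _ s hs, hsum u _ s hs, hsum u' _ s hs', hsum u' _ s hs']
      have e2 : ∑ γ ∈ s, (w γ u - w γ u') *
          ((f ((g γ)⁻¹ • v) - f ((g γ)⁻¹ • v')) - (f v - f v')) =
          (∑ γ ∈ s, (w γ u - w γ u') * (f ((g γ)⁻¹ • v) - f ((g γ)⁻¹ • v'))) -
          (∑ γ ∈ s, w γ u - ∑ γ ∈ s, w γ u') * (f v - f v') := by
        rw [← Finset.sum_sub_distrib, Finset.sum_mul, ← Finset.sum_sub_distrib]
        apply Finset.sum_congr rfl
        intro γ _
        ring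
      rw [e2, hsum1 u s hs, hsum1 u' s hs', sub_self, zero_mul, sub_zero,
        ← Finset.sum_sub_distrib, ← Finset.sum_sub_distrib, ← Finset.sum_sub_distrib]
      apply Finset.sum_congr rfl
      intro γ _
      ring
    rw [e1]
    refine (Finset.abs_sum_le_sum_abs _ _).trans ?_
    have h2 : ∀ γ ∈ s, |(w γ u - w γ u') *
        ((f ((g γ)⁻¹ • v) - f ((g γ)⁻¹ • v')) - (f v - f v'))| ≤
        |w γ u - w γ u'| * (4 * exc h v + C * (dist v v') ^ 2) := by
      intro γ _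
      rw [abs_mul]
      apply mul_le_mul_of_nonneg_left _ (abs_nonneg _)
      have h3 := hE _ f (hpot γ) hf v v' hvv'
      have e3 : (f ((g γ)⁻¹ • v) - f ((g γ)⁻¹ • v')) - (f v - f v') =
        -((f ((g γ)⁻¹ • v') - f ((g γ)⁻¹ • v)) - (f v' - f v)) := by ring
      rw [e3, abs_neg]
      exact h3
    refine (Finset.sum_le_sum h2).trans ?_
    rw [← Finset.sum_mul]
    have h5 : (0:ℝ) ≤ 4 * exc h v + C * (dist v v') ^ 2 := by
      have := exc_nonneg (X := X) h v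
      positivity
    apply mul_le_mul_of_nonneg_right _ h5
    refine le_trans (le_of_eq ?_) (hwL u u')
    symm
    apply finsum_eq_sum_of_support_subset
    intro γ hγ
    by_contra hcon
    apply hγ
    have a1 : w γ u = 0 := by
      by_contra h0; exact hcon (hs h0)
    have a2 : w γ u' = 0 := by
      by_contra h0; exact hcon (hs' h0)
    change |w γ u - w γ u'| = 0
    rw [a1, a2, sub_zero, abs_zero]
  · intro y hy s hs t ht
    change ∑ᶠ γ, w γ (pt y (h • y) s) *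
      (f ((g γ)⁻¹ • pt y (h • y) t) - f ((g γ)⁻¹ • pt y (h • y) s)) = _
    have e : ∀ γ, f ((g γ)⁻¹ • pt y (h • y) t) - f ((g γ)⁻¹ • pt y (h • y) s) =
        -(t - s) * ell X h := by
      intro γ
      have h1 := (hpot γ).on_axis hX hy ht
      have h2 := (hpot γ).on_axis hX hy hs
      rw [h1, h2]
      ring
    have e2 : (fun γ => w γ (pt y (h • y) s) *
        (f ((g γ)⁻¹ • pt y (h • y) t) - f ((g γ)⁻¹ • pt y (h • y) s))) =
        fun γ => w γ (pt y (h • y) s) * (-(t - s) * ell X h) := by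
      funext γ
      rw [e]
    have hss : {γ | w γ (pt y (h • y) s) ≠ 0} ⊆ ((hwf (pt y (h • y) s)).toFinset : Set Γ) := by
      rw [Set.Finite.coe_toFinset]
    rw [e2, hsum _ _ _ hss, ← Finset.sum_mul, hsum1 _ _ hss, one_mul]

end Pool.Agent.NCP
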