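import Pool.Agent.NCP.Hom
import Pool.Agent.NCP.KeyHom
import Pool.Agent.NCP.Weights
import Pool.Agent.NCP.Est
import Pool.Agent.NCP.Label
import Pool.Agent.NCP.Far

/-! # MP_23cc9a_gt, module NCP/Key: the key proposition

PROOF. `f` a potential of `h` with `f (z • x) = f x + c` (`exists_pot`); then
`f (h' • x) = f x + c'` with `c' = β₁ * c - α * ell X h` (`h' = z^β₁ h^α`), and `|c'| ≤ ell X h'`
(`abs_le_ell`). Every element of `A` changes `f` by a constant (`hAgen`).
`C, r₀` from `pot_increments` and `exc_quad` (take the max / the min), `W` from `exists_background`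
(`W_diff`: enlarge `C` to `max`), `ω` from `exists_omega`, `τ` from `exists_label`.
`CData` with `𝒢 = ↥S.G`, `Q = ↥S.G ⧸ S.A.subgroupOf S.G`, `e = exc h`,
`F q u v = f (g⁻¹ • v) - f (g⁻¹ • u)` for `q = g A` (independent of `g`).
`exists_J` gives `J`. Fix `x₀`, `ψ g = J x₀ (g • x₀) = J x (g • x)` for all `x` is a homomorphism
`S.G → ℝ`. `ψ h = - ell X h` (third property of `J`, on an axis `y` of `h`, `IsPot.on_axis`),
`ψ z = 0` (commutator). So `ψ h' = - α * ell X h`. On the other hand for the `q` of `exists_far`,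
`ψ h' = J q (h' • q) = F 1 q (h' • q) = f (h' • q) - f q = c'` (fourth property, label `1`).
Hence `|α| * ell X h = |c'| ≤ ell X h'`. -/

open Set Filter Topology

namespace Pool.Agent.NCP

variable {X : Type*} [MetricSpace X] {Γ : Type*} [Group Γ] [MulAction Γ X] [IsIsometricSMul Γ X]

omit [MetricSpace X] [IsIsometricSMul Γ X] in
theorem zpow_smul_of_add {g : Γ} {f : X → ℝ} {c : ℝ} (hc : ∀ x, f (g • x) = f x + c) (m : ℤ)
    (x : X) : f (g ^ m • x) = f x + m * c := by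
  have hinv : ∀ x, f (g⁻¹ • x) = f x - c := by
    intro x
    have := hc (g⁻¹ • x)
    rw [smul_inv_smul] at this
    linarith
  induction m using Int.induction_on generalizing x with
  | zero => simp
  | succ m ih =>
    rw [zpow_add_one, mul_smul, ih, hc]
    push_cast
    ring
  | pred m ih =>
    rw [zpow_sub_one, mul_smul, ih, hinv]
    push_cast
    ring

/-- the increments of the translated potential -/
noncomputable def Fq (S : SplitData Γ) (f : X → ℝ) (q : ↥S.G ⧸ S.A.subgroupOf S.G) (u v : X) : ℝ :=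
  f (((q.out : ↥S.G) : Γ)⁻¹ • v) - f (((q.out : ↥S.G) : Γ)⁻¹ • u)

omit [MetricSpace X] [IsIsometricSMul Γ X] in
theorem Fq_mk (S : SplitData Γ) {f : X → ℝ} (hAc : ∀ a ∈ S.A, ∃ c : ℝ, ∀ x, f (a • x) = f x + c)
    (g : ↥S.G) (u v : X) :
    Fq S f (g : ↥S.G ⧸ S.A.subgroupOf S.G) u v = f ((g : Γ)⁻¹ • v) - f ((g : Γ)⁻¹ • u) := by
  obtain ⟨a, ha⟩ := QuotientGroup.mk_out_eq_mul (S.A.subgroupOf S.G) g
  have haA : (((a : ↥S.G) : Γ))⁻¹ ∈ S.A := S.A.inv_mem (Subgroup.mem_subgroupOf.mp a.2)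
  obtain ⟨c, hc⟩ := hAc _ haA
  unfold Fq
  rw [ha]
  have e : ((((g * (a : ↥S.G)) : ↥S.G) : Γ))⁻¹ = (((a : ↥S.G) : Γ))⁻¹ * (g : Γ)⁻¹ := by
    rw [Subgroup.coe_mul, mul_inv_rev]
  rw [e, mul_smul, mul_smul, hc, hc]
  ring

theorem key_prop [ProperSpace X] [Nonempty X] (hX : Straight X) (hA : GoodAction Γ X)
    (hS : Semi X) (hT : LipTri X) (S : SplitData Γ) {h z h' k x y : Γ}
    (hx : x ∈ S.G) (hy : y ∈ S.G) (hz : z = x * y * x⁻¹ * y⁻¹) (hhG : h ∈ S.G)
    (hG : ∀ g ∈ S.G, g * h = h * g) (h1 : h ≠ 1)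
    (hAgen : ∀ a ∈ S.A, ∃ m n : ℤ, a = z ^ m * h ^ n)
    {β₁ α : ℤ} (hh' : h' = z ^ β₁ * h ^ α)
    (hk : k ∈ S.G') (hkh' : k * h' = h' * k)
    (hdist : ∀ m n : ℕ, (k ^ m)⁻¹ * h * k ^ m = (k ^ n)⁻¹ * h * k ^ n → m = n) :
    |(α : ℝ)| * ell X h ≤ ell X h' := by
  have hzG : z ∈ S.G := by
    rw [hz]
    exact S.G.mul_mem (S.G.mul_mem (S.G.mul_mem hx hy) (S.G.inv_mem hx)) (S.G.inv_mem hy)
  obtain ⟨f, hf, c, hc⟩ := exists_pot (X := X) hX hA h z (hG z hzG)
  have hfh : ∀ x, f (h • x) = f x + (-ell X h) := fun x => by rw [hf.2 x]; ring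
  -- elements of `A`
  have hmn : ∀ (m n : ℤ) (x : X), f ((z ^ m * h ^ n) • x) = f x + (m * c - n * ell X h) := by
    intro m n x
    rw [mul_smul, zpow_smul_of_add hc, zpow_smul_of_add hfh]
    ring
  have hAc : ∀ a ∈ S.A, ∃ c : ℝ, ∀ x, f (a • x) = f x + c := by
    intro a ha
    obtain ⟨m, n, rfl⟩ := hAgen a ha
    exact ⟨_, fun x => hmn m n x⟩
  have hh'c : ∀ x, f (h' • x) = f x + (β₁ * c - α * ell X h) := by
    intro x
    rw [hh']
    exact hmn β₁ α x
  have hcle : |β₁ * c - α * ell X h| ≤ ell X h' := abs_le_ell hX hA hf hh'c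
  -- the constants
  obtain ⟨C₁, hC₁, r₁, hr₁, hE₁⟩ := pot_increments hX hA hS h1
  obtain ⟨C₂, hC₂, r₂, hr₂, hE₂⟩ := exc_quad hX hA hS h1
  set C₃ := max C₁ C₂ with hC₃
  set r₀ := min r₁ r₂ with hr₀
  have hr₀pos : 0 < r₀ := lt_min hr₁ hr₂
  have hC₃nn : 0 ≤ C₃ := le_max_of_le_left hC₁
  have hE₃ : ∀ f f' : X → ℝ, IsPot h f → IsPot h f' → ∀ u u' : X, dist u u' ≤ r₀ →
        |(f u' - f u) - (f' u' - f' u)| ≤ 4 * exc h u + C₃ * (dist u u') ^ 2 := by
    intro f f' hf hf' u u' hd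
    refine (hE₁ f f' hf hf' u u' (hd.trans (min_le_left _ _))).trans ?_
    have : C₁ * (dist u u') ^ 2 ≤ C₃ * (dist u u') ^ 2 :=
      mul_le_mul_of_nonneg_right (le_max_left _ _) (sq_nonneg _)
    linarith
  obtain ⟨W, C', hC', hWG, hWself, hWlip, hWbd, hWdiff, hWax⟩ :=
    exists_background hX hA hG hf hC₃nn hr₀pos hE₃
  obtain ⟨R₀, K, ω, hR₀, hK, hcov, hωloc, hωG, hωβ⟩ := exists_omega hA S hG
  obtain ⟨τ, hτω, hτloc, hτG⟩ := exists_label hX hA h hG hR₀ ω hωloc hωG
  set C := max C₃ C' with hC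
  have hCnn : 0 ≤ C := le_max_of_le_left hC₃nn
  have hmono : ∀ d : ℝ, C₃ * d ^ 2 ≤ C * d ^ 2 := fun d =>
    mul_le_mul_of_nonneg_right (le_max_left _ _) (sq_nonneg _)
  have hFpot : ∀ q : ↥S.G ⧸ S.A.subgroupOf S.G,
      IsPot h (fun x => f (((q.out : ↥S.G) : Γ)⁻¹ • x)) := fun q =>
    IsPot.comp (hG _ (S.G.inv_mem q.out.2)) hf
  let D : CData ↥S.G X (↥S.G ⧸ S.A.subgroupOf S.G) :=
    { e := exc h
      W := W
      F := Fq S f
      τ := τ
      C := C
      r₀ := r₀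
      C_nonneg := hCnn
      r₀_pos := hr₀pos
      e_nonneg := exc_nonneg h
      e_cont := continuous_exc h
      e_smul := fun g u => exc_smul_of_comm (hG g g.2) u
      e_bd := by
        intro u u' hd
        refine (hE₂ u u' (hd.trans (min_le_right _ _))).trans ?_
        have : C₂ * (dist u u') ^ 2 ≤ C * (dist u u') ^ 2 :=
          mul_le_mul_of_nonneg_right ((le_max_right _ _).trans (le_max_left _ _)) (sq_nonneg _)
        linarith
      F_add := fun q u v w => by simp only [Fq]; ring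
      F_smul := by
        intro g q u v
        induction q using QuotientGroup.induction_on with
        | H g' =>
          have e : g • ((g' : ↥S.G ⧸ S.A.subgroupOf S.G)) =
              ((g * g' : ↥S.G) : ↥S.G ⧸ S.A.subgroupOf S.G) := rfl
          rw [e, Fq_mk S hAc, Fq_mk S hAc]
          have e2 : ∀ w : X, (((g * g' : ↥S.G) : Γ))⁻¹ • (g • w) = ((g' : Γ))⁻¹ • w := by
            intro w
            rw [Subgroup.smul_def, ← mul_smul]
            congr 1
            rw [Subgroup.coe_mul]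
            group
          rw [e2, e2]
      F_lip := by
        intro q u v
        have := (hFpot q).1 v u
        rw [dist_comm] at this
        exact this
      F_bd := by
        intro q q' u v hd
        refine (hE₃ _ _ (hFpot q) (hFpot q') u v hd).trans ?_
        have := hmono (dist u v)
        linarith
      τ_loc := hτloc
      τ_smul := hτG
      W_smul := fun g u v => hWG g g.2 u v
      W_self := hWself
      W_lip := hWlip
      W_bd := by
        intro q u v hd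
        refine (hWbd _ (hFpot q) u v hd).trans ?_
        have := hmono (dist u v)
        linarith
      W_diff := by
        intro u u' v v' hd
        refine (hWdiff u u' v v' hd).trans ?_
        have h3 := hmono (dist v v')
        have h4 : 0 ≤ exc h v := exc_nonneg h v
        have h5 : C' * dist u u' ≤ C * dist u u' :=
          mul_le_mul_of_nonneg_right (le_max_right _ _) dist_nonneg
        have h6 : 0 ≤ C' * dist u u' := mul_nonneg hC' dist_nonneg
        have h7 : 0 ≤ C₃ * (dist v v') ^ 2 := mul_nonneg hC₃nn (sq_nonneg _)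
        exact mul_le_mul h5 (by linarith) (by linarith) (by linarith) }
  have : IsIsometricSMul ↥S.G X := ⟨fun g => isometry_smul X (g : Γ)⟩
  obtain ⟨J, hJadd, hJG, hJax, hJlab⟩ := D.exists_J hX hT
  obtain ⟨x₀⟩ := (inferInstance : Nonempty X)
  obtain ⟨ψ, hψ⟩ := cocycle_hom hJadd (G := S.G) (fun g u v => hJG g u v) x₀
  -- value on `h`
  obtain ⟨y₀, hy₀⟩ := exists_disp_eq_ell (X := X) hA h
  have hψh : (ψ ⟨h, hhG⟩).toAdd = -ell X h := by
    rw [← hψ ⟨h, hhG⟩ y₀]
    have := hJax y₀ (h • y₀) (fun t => -(t * ell X h)) (by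
      intro s hs t ht
      refine ⟨?_, ?_⟩
      · have := hWax y₀ hy₀ s hs t ht
        change W _ _ = _
        rw [this]; ring
      · intro q
        change Fq S f q _ _ = _
        have e1 := IsPot.on_axis hX (hFpot q) hy₀ hs
        have e2 := IsPot.on_axis hX (hFpot q) hy₀ ht
        simp only [Fq]
        rw [e1, e2]; ring)
    change J y₀ (h • y₀) = _
    rw [this]; ring
  -- value on the commutator
  have hψz : ψ ⟨z, hzG⟩ = 1 := by
    have : (⟨z, hzG⟩ : ↥S.G) = ⟨x, hx⟩ * ⟨y, hy⟩ * (⟨x, hx⟩)⁻¹ * (⟨y, hy⟩)⁻¹ :=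
      Subtype.ext hz
    rw [this, map_mul, map_mul, map_mul, map_inv, map_inv]
    have e : ψ ⟨x, hx⟩ * ψ ⟨y, hy⟩ = ψ ⟨y, hy⟩ * ψ ⟨x, hx⟩ := mul_comm _ _
    rw [e]
    group
  have hh'G : h' ∈ S.G := by
    rw [hh']
    exact S.G.mul_mem (S.G.zpow_mem hzG _) (S.G.zpow_mem hhG _)
  have hψh' : (ψ ⟨h', hh'G⟩).toAdd = -(α * ell X h) := by
    have : (⟨h', hh'G⟩ : ↥S.G) = ⟨z, hzG⟩ ^ β₁ * ⟨h, hhG⟩ ^ α := Subtype.ext (by simp [hh'])
    rw [this, map_mul, map_zpow, map_zpow, hψz, one_zpow, one_mul, toAdd_zpow, hψh]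
    simp
  -- the far path
  obtain ⟨q, hq⟩ := exists_far hX hA S hG hk hkh' hdist hK hcov hωβ
  have hψh'2 : (ψ ⟨h', hh'G⟩).toAdd = β₁ * c - α * ell X h := by
    rw [← hψ ⟨h', hh'G⟩ q]
    have e := hJlab q (h' • q) ((1 : S.G) : ↥S.G ⧸ S.A.subgroupOf S.G) (R₀ + 1) (by linarith) (by
      intro t ht
      obtain ⟨e1, e2⟩ := hq t ht
      refine ⟨e1, ?_⟩
      change τ _ = _
      rw [hτω _ (by linarith), e2])
    change J q (h' • q) = _
    rw [e]
    change Fq S f _ q (h' • q) = _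
    rw [Fq_mk S hAc]
    have := hh'c q
    simp only [Subgroup.coe_one, inv_one, one_smul]
    linarith
  have hfin : (α : ℝ) * ell X h = -(β₁ * c - α * ell X h) := by
    rw [← hψh'2, hψh']; ring
  have hell : 0 ≤ ell X h := ell_nonneg h
  have e3 : |(α : ℝ)| * ell X h = |(α : ℝ) * ell X h| := by rw [abs_mul, abs_of_nonneg hell]
  have e4 : |(α : ℝ) * ell X h| = |β₁ * c - α * ell X h| := by
    rw [← abs_neg (β₁ * c - α * ell X h), ← hfin]
  rw [e3, e4]
  exact hcle

end Pool.Agent.NCP
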