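import Pool.Agent.NCP.Lines

/-! # MP_23cc9a_gt, module NCP/LineC: joint continuity of `pt`

PROOF. At `(p, p, t)` : `dist p (pt p' q' t') ≤ dist p p' + dist p' q' * |t'|`. At `(p, q, t)` with
`p ≠ q` : for every ultrafilter `𝒰 ≤ 𝓝 (p, q, t)` let `c s` be the `𝒰`-limit of `pt p' q' s`
(it exists: the values stay in a compact ball, `ProperSpace`). Then
`dist (c s) (c s') = dist p q * |s - s'|`, `c 0 = p`, `c 1 = q`, so `c = pt p q` (`geod_eq_pt` or
uniqueness in `Straight.line`), and `pt p' q' t' → c t` because `t' → t` and the maps are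
equi-Lipschitz. -/

open Set Filter Topology

namespace Pool.Agent.NCP

variable {X : Type*} [MetricSpace X]

theorem continuous_pt (hX : Straight X) [ProperSpace X] :
    Continuous (fun z : X × X × ℝ => pt z.1 z.2.1 z.2.2) := by
  rw [continuous_iff_continuousAt]
  rintro ⟨p, q, t⟩
  rw [continuousAt_iff_ultrafilter]
  intro 𝒰 h𝒰
  have t1 : Tendsto (fun z : X × X × ℝ => z.1) 𝒰 (𝓝 p) :=
    (continuous_fst.tendsto (p, q, t)).mono_left h𝒰
  have t2 : Tendsto (fun z : X × X × ℝ => z.2.1) 𝒰 (𝓝 q) :=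
    ((continuous_fst.comp continuous_snd).tendsto (p, q, t)).mono_left h𝒰
  have t3 : Tendsto (fun z : X × X × ℝ => z.2.2) 𝒰 (𝓝 t) :=
    ((continuous_snd.comp continuous_snd).tendsto (p, q, t)).mono_left h𝒰
  have t4 : Tendsto (fun z : X × X × ℝ => dist z.1 z.2.1) 𝒰 (𝓝 (dist p q)) := t1.dist t2
  have hlim : ∀ s : ℝ, ∃ x : X, Tendsto (fun z : X × X × ℝ => pt z.1 z.2.1 s) 𝒰 (𝓝 x) := by
    intro s
    have hb : ∀ᶠ z : X × X × ℝ in 𝒰, pt z.1 z.2.1 s ∈
        Metric.closedBall p (1 + (dist p q + 1) * |s|) := by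
      have e1 : ∀ᶠ z : X × X × ℝ in 𝒰, dist z.1 p < 1 := t1.eventually (Metric.ball_mem_nhds p one_pos)
      have e2 : ∀ᶠ z : X × X × ℝ in 𝒰, dist z.1 z.2.1 < dist p q + 1 :=
        t4.eventually (gt_mem_nhds (by linarith))
      filter_upwards [e1, e2] with z h1 h2
      rw [Metric.mem_closedBall]
      have h3 := dist_triangle_left (pt z.1 z.2.1 s) p z.1
      rw [dist_left_pt hX] at h3
      have h4 : dist z.1 z.2.1 * |s| ≤ (dist p q + 1) * |s| :=
        mul_le_mul_of_nonneg_right h2.le (abs_nonneg s)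
      linarith
    obtain ⟨x, _, hx⟩ := (isCompact_closedBall p (1 + (dist p q + 1) * |s|)).ultrafilter_le_nhds
      (𝒰.map (fun z : X × X × ℝ => pt z.1 z.2.1 s)) (by
        rw [le_principal_iff]
        exact hb)
    exact ⟨x, hx⟩
  choose c hc using hlim
  have hd : ∀ s s' : ℝ, dist (c s) (c s') = dist p q * |s - s'| := by
    intro s s'
    have h1 := (hc s).dist (hc s')
    have h2 : Tendsto (fun z : X × X × ℝ => dist (pt z.1 z.2.1 s) (pt z.1 z.2.1 s')) 𝒰
        (𝓝 (dist p q * |s - s'|)) := by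
      simp only [dist_pt hX]
      exact t4.mul_const _
    exact tendsto_nhds_unique h1 h2
  have hg : IsGeod c (dist p q) := ⟨dist_nonneg, fun _ => ⟨1, one_pos, fun s _ s' _ => hd s s'⟩⟩
  have c0 : c 0 = p := by
    have h1 := hc 0
    simp only [pt_zero] at h1
    exact tendsto_nhds_unique h1 t1
  have c1 : c 1 = q := by
    have h1 := hc 1
    simp only [pt_one hX] at h1
    exact tendsto_nhds_unique h1 t2
  have hct : c t = pt p q t := by
    have e := geod_eq_pt hX hg (a := 0) (b := 1) zero_ne_one t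
    simpa [c0, c1] using e
  show Tendsto (fun z : X × X × ℝ => pt z.1 z.2.1 z.2.2) 𝒰 (𝓝 (pt p q t))
  rw [← hct]
  refine (hc t).congr_dist ?_
  simp only [dist_pt hX]
  have h5 : Tendsto (fun z : X × X × ℝ => |t - z.2.2|) 𝒰 (𝓝 |t - t|) :=
    (tendsto_const_nhds.sub t3).abs
  rw [sub_self, abs_zero] at h5
  have h6 := t4.mul h5
  rwa [mul_zero] at h6

end Pool.Agent.NCP
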