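import Pool.Agent.NCP.Displ

/-! # MP_23cc9a_gt, module NCP/RProper: properness from cocompactness

PROOF. By cocompactness and local compactness there is `r > 0` such that all closed balls of radius
`r` are compact (Lebesgue number of `K` covered by interiors of compact sets; isometries).
If `closedBall x R` is compact then so is `closedBall x (R + r/2)` : cover `closedBall x R` by
finitely many balls `ball y_i (r/2)`; a point `z` with `dist x z ≤ R + r/2` is within `r/2` of the
point `pt x z (R / dist x z) ∈ closedBall x R`, hence in some `closedBall y_i r`. -/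

open Set Filter Topology Metric

namespace Pool.Agent.NCP

theorem properSpace_of_cocompact {X : Type*} [MetricSpace X] [LocallyCompactSpace X]
    {Γ : Type*} [Group Γ] [MulAction Γ X] [IsIsometricSMul Γ X]
    (hX : Straight X) {K : Set X} (hK : IsCompact K) (hcov : ∀ x, ∃ γ : Γ, γ • x ∈ K) :
    ProperSpace X := by
  obtain ⟨r, hr, hKr⟩ := hK.exists_isCompact_cthickening
  have hball : ∀ x : X, IsCompact (closedBall x r) := by
    intro x
    obtain ⟨γ, hγ⟩ := hcov x
    have h1 : IsCompact (closedBall (γ • x) r) :=
      hKr.of_isClosed_subset isClosed_closedBall (closedBall_subset_cthickening hγ r)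
    have h2 : closedBall x r ⊆ (fun y => γ⁻¹ • y) '' closedBall (γ • x) r := by
      intro y hy
      refine ⟨γ • y, ?_, inv_smul_smul γ y⟩
      rw [mem_closedBall, dist_smul]
      exact hy
    exact (h1.image (isometry_smul X γ⁻¹).continuous).of_isClosed_subset isClosed_closedBall h2
  have hind : ∀ (x : X) (n : ℕ), IsCompact (closedBall x (n * (r / 2))) := by
    intro x n
    induction n with
    | zero => simp
    | succ n ih =>
      obtain ⟨t, _, htf, hcv⟩ := ih.finite_cover_balls (half_pos hr)
      have hcomp : IsCompact (⋃ y ∈ t, closedBall y r) :=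
        htf.isCompact_biUnion (fun y _ => hball y)
      refine hcomp.of_isClosed_subset isClosed_closedBall ?_
      intro z hz
      rw [mem_closedBall] at hz
      have hR : (0:ℝ) ≤ n * (r / 2) := by positivity
      have hz' : dist z x ≤ n * (r / 2) + r / 2 := by
        push_cast at hz
        linarith
      have hw : ∃ w : X, dist w x ≤ n * (r / 2) ∧ dist z w ≤ r / 2 := by
        by_cases hd : dist z x ≤ n * (r / 2)
        · exact ⟨z, hd, by rw [dist_self]; linarith⟩
        · push Not at hd
          have hD : 0 < dist x z := by rw [dist_comm]; linarith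
          rw [dist_comm] at hd hz'
          refine ⟨pt x z (n * (r / 2) / dist x z), ?_, ?_⟩
          · rw [dist_comm, dist_left_pt hX, abs_of_nonneg (div_nonneg hR hD.le)]
            rw [mul_div_cancel₀ _ hD.ne']
          · rw [dist_comm, dist_pt_right hX]
            have h1 : n * (r / 2) / dist x z ≤ 1 := (div_le_one hD).mpr hd.le
            rw [abs_of_nonneg (by linarith)]
            have h2 : dist x z * (1 - n * (r / 2) / dist x z) = dist x z - n * (r / 2) := by
              field_simp
            rw [h2]
            linarith
      obtain ⟨w, hw1, hw2⟩ := hw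
      obtain ⟨y, hy, hwy⟩ := mem_iUnion₂.mp (hcv (mem_closedBall.mpr hw1))
      rw [mem_ball] at hwy
      refine mem_iUnion₂.mpr ⟨y, hy, ?_⟩
      rw [mem_closedBall]
      have := dist_triangle z w y
      linarith
  refine ⟨fun x R => ?_⟩
  obtain ⟨n, hn⟩ := exists_nat_ge (R / (r / 2))
  have hn' : R ≤ n * (r / 2) := (div_le_iff₀ (half_pos hr)).mp hn
  exact (hind x n).of_isClosed_subset isClosed_closedBall (closedBall_subset_closedBall hn')

end Pool.Agent.NCP
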