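import Pool.Agent.NCP.RBound
import Pool.Agent.NCP.Base

/-! # MP_23cc9a_gt, module NCP/RMet: the metric space `(ℝⁿ, g.dist)`

`GX g` is a type synonym of `E n` with distance `g.dist` (only the metric structure; its topology is
the one of the metric). `toGX`, `ofGX` are the identity maps; they are continuous. -/

open Set Filter Topology Metric
open scoped ContDiff

namespace Pool.Agent.NCP

variable {n : ℕ}

/-- type synonym of `ℝⁿ` carrying the Riemannian distance -/
def GX (_g : RMetric n) : Type := E n

/-- identity -/
def toGX (g : RMetric n) (x : E n) : GX g := x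

/-- identity -/
def ofGX {g : RMetric n} (x : GX g) : E n := x

noncomputable instance (g : RMetric n) : MetricSpace (GX g) where
  dist x y := g.dist (ofGX x) (ofGX y)
  dist_self x := g.dist_self _
  dist_comm x y := g.dist_comm _ _
  dist_triangle x y z := g.dist_triangle _ _ _
  eq_of_dist_eq_zero h := g.eq_of_dist_eq_zero h

instance (g : RMetric n) : Nonempty (GX g) := ⟨toGX g 0⟩

theorem GX.dist_def {g : RMetric n} (x y : GX g) : dist x y = g.dist (ofGX x) (ofGX y) := rfl

theorem continuous_toGX (g : RMetric n) : Continuous (toGX g) := by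
  rw [continuous_iff_continuousAt]
  intro x
  obtain ⟨C₀, hC₀, hle⟩ := g.dist_le_of_convex (isCompact_closedBall x 1) (convex_closedBall x 1)
  rw [ContinuousAt, Metric.tendsto_nhds]
  intro ε hε
  have hδ : 0 < min 1 (ε / (C₀ + 1)) := lt_min one_pos (by positivity)
  filter_upwards [Metric.ball_mem_nhds x hδ] with y hy
  rw [Metric.mem_ball] at hy
  have hy1 : dist y x < 1 := hy.trans_le (min_le_left _ _)
  have hy2 : dist y x < ε / (C₀ + 1) := hy.trans_le (min_le_right _ _)
  have h1 := hle y (Metric.mem_closedBall.mpr hy1.le) x (Metric.mem_closedBall_self zero_le_one)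
  rw [← dist_eq_norm] at h1
  have h2 : (C₀ + 1) * dist y x < ε := by
    rw [lt_div_iff₀ (by positivity)] at hy2
    linarith
  have h3 : (0:ℝ) ≤ dist y x := _root_.dist_nonneg
  change g.dist y x < ε
  nlinarith

theorem continuous_ofGX (g : RMetric n) : Continuous (ofGX (g := g)) := by
  rw [continuous_iff_continuousAt]
  intro x
  obtain ⟨c₀, hc₀, hle⟩ := g.le_dist (isCompact_singleton (x := ofGX x))
  rw [ContinuousAt, Metric.tendsto_nhds]
  intro ε hε
  have hδ : 0 < c₀ * min ε 1 := mul_pos hc₀ (lt_min hε one_pos)
  filter_upwards [Metric.ball_mem_nhds x hδ] with y hy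
  rw [Metric.mem_ball, dist_comm] at hy
  have h1 := hle (ofGX x) (mem_singleton _) (ofGX y)
  have h2 : g.dist (ofGX x) (ofGX y) < c₀ * min ε 1 := hy
  have h3 : min ‖ofGX x - ofGX y‖ 1 < min ε 1 := lt_of_mul_lt_mul_left (h1.trans_lt h2) hc₀.le
  have h4 : ‖ofGX x - ofGX y‖ < ε := by
    by_contra hcon
    push Not at hcon
    exact absurd h3 (not_lt.mpr (min_le_min_right 1 hcon))
  rw [dist_comm, dist_eq_norm]
  exact h4

theorem GX.isCompact_iff {g : RMetric n} (K : Set (GX g)) :
    IsCompact K ↔ IsCompact ((toGX g) ⁻¹' K) := by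
  constructor
  · intro h
    have : (toGX g) ⁻¹' K = ofGX '' K := by
      ext x
      constructor
      · intro hx
        exact ⟨toGX g x, hx, rfl⟩
      · rintro ⟨y, hy, rfl⟩
        exact hy
    rw [this]
    exact h.image (continuous_ofGX g)
  · intro h
    have : K = toGX g '' ((toGX g) ⁻¹' K) := by
      ext x
      constructor
      · intro hx
        exact ⟨ofGX x, hx, rfl⟩
      · rintro ⟨y, hy, rfl⟩
        exact hy
    rw [this]
    exact h.image (continuous_toGX g)

/-- the identity as a homeomorphism -/
def homeoGX (g : RMetric n) : E n ≃ₜ GX g where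
  toFun := toGX g
  invFun := ofGX
  left_inv _ := rfl
  right_inv _ := rfl
  continuous_toFun := continuous_toGX g
  continuous_invFun := continuous_ofGX g

instance (g : RMetric n) : LocallyCompactSpace (GX g) :=
  (homeoGX g).symm.isClosedEmbedding.locallyCompactSpace

theorem straight_GX {g : RMetric n} (hg : g.NoConjugatePoints) : Straight (GX g) where
  glob := fun c v hc s t => hg.minimising (fun s => ofGX (c s)) v hc s t
  line := fun p q hpq => hg.unique (ofGX p) (ofGX q) hpq

end Pool.Agent.NCP
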