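import Pool.Agent.NCP.RVar
import Pool.Agent.NCP.RMet
import Pool.Agent.NCP.Lines

/-! # MP_23cc9a_gt, module NCP/RSemi: uniform local semiconcavity of the distance functions

PROOF. Let `K` be compact with `Γ K = X`; `c₀` the constant of `exists_curve_bound` and `le_dist` for
`K` (take the min), `l₁ = min l₀ (c₀/4)`, `C` the constant of `exists_variation` for
`cthickening 1 K` and `l₁`.  Let `u ∈ K`, `dist u u' ≤ c₀/2`, `ξ = u' - u` (so
`‖ξ‖ ≤ dist u u' / c₀ ≤ 1/2`), `u'' = u - ξ`, `l₀ ≤ dist p u`,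
`q = pt p u (1 - l₁ / dist p u)`: `dist q u = l₁`, `dist p q = dist p u - l₁`.
For `0 < ε < l₁` a `C¹` curve from `u` to `q` of length `L < l₁ + ε < c₀` stays in
`cthickening 1 K` (`exists_curve_bound`: `c₀ min ‖c t - u‖ 1 ≤ L < c₀`), `L ≥ l₁`, so
`dist p u' + dist p u'' ≤ 2 (dist p u - l₁) + (l₁ + ε) (2 + C ‖ξ‖²)`; let `ε → 0`.
General `u` : apply an isometry `γ` with `γ • u ∈ K`. -/

open Set Filter Topology Metric
open scoped ContDiff

namespace Pool.Agent.NCP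

variable {n : ℕ}

/-- the inequality for the initial point in a compact set, in terms of `g` -/
lemma semi_aux {g : RMetric n} (hX : Straight (GX g)) {K : Set (E n)} (hK : IsCompact K) {l₀ : ℝ}
    (hl₀ : 0 < l₀) :
    ∃ C ≥ (0:ℝ), ∃ r₀ > (0:ℝ), ∀ u u' : GX g, ofGX u ∈ K → dist u u' ≤ r₀ →
      ∃ u'' : GX g, ∀ p : GX g,
        l₀ ≤ dist p u → dist p u' + dist p u'' ≤ 2 * dist p u + C * (dist u u') ^ 2 := by
  obtain ⟨c₁, hc₁, h1⟩ := g.exists_curve_bound hK
  obtain ⟨c₂, hc₂, h2⟩ := g.le_dist hK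
  set c₀ : ℝ := min c₁ c₂ with hc₀
  have hc0 : 0 < c₀ := lt_min hc₁ hc₂
  set l₁ : ℝ := min l₀ (c₀ / 4) with hl₁
  have hl1 : 0 < l₁ := lt_min hl₀ (by positivity)
  have hl1' : l₁ ≤ c₀ / 4 := min_le_right _ _
  obtain ⟨C, hC, hvar⟩ := g.exists_variation (K := cthickening 1 K) hK.cthickening hl1
  refine ⟨l₁ * C / c₀ ^ 2, by positivity, c₀ / 2, by positivity, ?_⟩
  intro u u' hu huu'
  set x : E n := ofGX u with hx
  set ξ : E n := ofGX u' - x with hξ
  have hnn : ∀ z : ℝ, 0 ≤ z → 0 ≤ min z 1 := fun z hz => le_min hz zero_le_one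
  have hmin : c₀ * min ‖ξ‖ 1 ≤ dist u u' := by
    have := h2 x hu (ofGX u')
    rw [← norm_sub_rev] at this
    refine le_trans (mul_le_mul_of_nonneg_right (min_le_right _ _) (hnn _ (norm_nonneg _))) this
  have hξ1 : ‖ξ‖ ≤ 1 := by
    by_contra hcon
    rw [min_eq_right (not_le.1 hcon).le] at hmin
    linarith
  rw [min_eq_left hξ1] at hmin
  refine ⟨toGX g (x - ξ), fun p hp => ?_⟩
  set d : ℝ := dist p u with hd
  have hd0 : 0 < d := hl₀.trans_le hp
  have hdl : l₁ ≤ d := (min_le_left _ _).trans hp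
  set q : GX g := pt p u (1 - l₁ / d) with hq
  have hqu : dist q u = l₁ := by
    rw [hq, dist_pt_right hX, ← hd, sub_sub_cancel, abs_of_nonneg (by positivity)]
    field_simp
  have hpq : dist p q = d - l₁ := by
    have h01 : 0 ≤ 1 - l₁ / d := by
      rw [sub_nonneg, div_le_one hd0]
      exact hdl
    rw [hq, dist_left_pt hX, ← hd, abs_of_nonneg h01]
    field_simp
  have key : ∀ ε : ℝ, 0 < ε → ε < l₁ →
      dist p u' + dist p (toGX g (x - ξ)) ≤ 2 * (d - l₁) + (l₁ + ε) * (2 + C * ‖ξ‖ ^ 2) := by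
    intro ε hε hε1
    obtain ⟨c, hc, c0, c1, hlen⟩ := g.exists_curve_lt x (ofGX q) hε
    have hdq : g.dist x (ofGX q) = l₁ := by
      rw [← hqu, dist_comm]
      rfl
    rw [hdq] at hlen
    have hlow : l₁ ≤ g.length c := by
      rw [← hdq]
      exact g.dist_le_length hc c0 c1
    have hstay : ∀ t ∈ Icc (0:ℝ) 1, c t ∈ cthickening 1 K := by
      intro t ht
      refine closedBall_subset_cthickening hu 1 ?_
      have h3 := h1 c hc (by rw [c0]; exact hu) t ht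
      rw [mem_closedBall, dist_eq_norm]
      by_contra hcon
      rw [c0, min_eq_right (not_le.1 hcon).le] at h3
      have : c₀ ≤ c₁ := min_le_left _ _
      linarith
    have hv := hvar c hc hstay hlow ξ hξ1
    rw [c0, c1] at hv
    have e1 : g.dist (x + ξ) (ofGX q) = dist q u' := by
      rw [dist_comm]
      change g.dist (x + ξ) (ofGX q) = g.dist (ofGX u') (ofGX q)
      rw [hξ, add_sub_cancel]
    have e2 : g.dist (x - ξ) (ofGX q) = dist q (toGX g (x - ξ)) := by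
      rw [dist_comm]
      rfl
    rw [e1, e2] at hv
    have t1 := dist_triangle p q u'
    have t2 := dist_triangle p q (toGX g (x - ξ))
    have hle : g.length c * (2 + C * ‖ξ‖ ^ 2) ≤ (l₁ + ε) * (2 + C * ‖ξ‖ ^ 2) := by
      apply mul_le_mul_of_nonneg_right hlen.le
      positivity
    rw [hpq] at t1 t2
    linarith
  have hfin : dist p u' + dist p (toGX g (x - ξ)) ≤ 2 * d + l₁ * C * ‖ξ‖ ^ 2 := by
    apply le_of_forall_pos_le_add
    intro δ hδ
    have hD : 0 < 2 + C * ‖ξ‖ ^ 2 := by positivity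
    set ε : ℝ := min (l₁ / 2) (δ / (2 + C * ‖ξ‖ ^ 2)) with hε
    have hε0 : 0 < ε := lt_min (by positivity) (by positivity)
    have hε1 : ε < l₁ := (min_le_left _ _).trans_lt (by linarith)
    have hε2 : ε * (2 + C * ‖ξ‖ ^ 2) ≤ δ := by
      rw [← le_div_iff₀ hD]
      exact min_le_right _ _
    have := key ε hε0 hε1
    linarith
  refine hfin.trans ?_
  have h3 : ‖ξ‖ ^ 2 ≤ (dist u u' / c₀) ^ 2 := by
    apply pow_le_pow_left₀ (norm_nonneg _)
    rw [le_div_iff₀ hc0]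
    linarith
  have h4 : l₁ * C * ‖ξ‖ ^ 2 ≤ l₁ * C * (dist u u' / c₀) ^ 2 :=
    mul_le_mul_of_nonneg_left h3 (by positivity)
  have h5 : l₁ * C * (dist u u' / c₀) ^ 2 = l₁ * C / c₀ ^ 2 * dist u u' ^ 2 := by
    field_simp
  linarith

theorem semi_GX {g : RMetric n} (hX : Straight (GX g)) {Γ : Type*} [Group Γ]
    [MulAction Γ (GX g)] [IsIsometricSMul Γ (GX g)] {K : Set (GX g)} (hK : IsCompact K)
    (hcov : ∀ x, ∃ γ : Γ, γ • x ∈ K) : Semi (GX g) := by
  intro l₀ hl₀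
  obtain ⟨C, hC, r₀, hr₀, h⟩ := semi_aux hX ((GX.isCompact_iff K).1 hK) hl₀
  refine ⟨C, hC, r₀, hr₀, fun u u' huu' => ?_⟩
  obtain ⟨γ, hγ⟩ := hcov u
  obtain ⟨w, hw⟩ := h (γ • u) (γ • u') hγ (by rwa [dist_smul])
  refine ⟨γ⁻¹ • w, fun p hp => ?_⟩
  have := hw (γ • p) (by rwa [dist_smul])
  rw [dist_smul, dist_smul, dist_smul] at this
  have e : dist (γ • p) w = dist p (γ⁻¹ • w) := by
    rw [← dist_smul γ p (γ⁻¹ • w), smul_inv_smul]
  rwa [e] at this

end Pool.Agent.NCP
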