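import Pool.Agent.NCP.RMet
import Pool.Agent.NCP.Lines

/-! # MP_23cc9a_gt, module NCP/RTri: Lipschitz fillings of triangles (Coons patch)

PROOF. With `P_uv t = ofGX (pt u v t)` (a map `ℝ → ℝⁿ`, Lipschitz on `[0,1]` for the Euclidean
norm, by `RMetric.le_dist` on the compact image and boundedness),
`Φ s t = (1-s) • P_uv t + s • P_uw t + t • (P_vw s - (1-s) • v - s • w)`. It is Lipschitz on the
unit square for the Euclidean norm, with values in a closed ball (compact, convex), on which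
`g.dist ≤ C ‖·‖` (`dist_le_of_convex`). -/

open Set Filter Topology Metric
open scoped ContDiff

namespace Pool.Agent.NCP

variable {n : ℕ}

theorem lipschitz_pt {g : RMetric n} (hX : Straight (GX g)) (u v : GX g) :
    ∃ L ≥ (0:ℝ), ∀ t ∈ Icc (0:ℝ) 1, ∀ t' ∈ Icc (0:ℝ) 1,
      ‖(ofGX (pt u v t) : E n) - ofGX (pt u v t')‖ ≤ L * |t - t'| := by
  have hcont : Continuous (fun t : ℝ => pt u v t) := by
    refine (LipschitzWith.of_dist_le_mul (K := (dist u v).toNNReal) fun s t => ?_).continuous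
    rw [dist_pt hX, Real.coe_toNNReal _ dist_nonneg, Real.dist_eq]
  have hK0 : IsCompact ((fun t : ℝ => pt u v t) '' Icc (0:ℝ) 1) := isCompact_Icc.image hcont
  have hK : IsCompact ((toGX g) ⁻¹' ((fun t : ℝ => pt u v t) '' Icc (0:ℝ) 1)) :=
    (GX.isCompact_iff _).mp hK0
  set K := (toGX g) ⁻¹' ((fun t : ℝ => pt u v t) '' Icc (0:ℝ) 1) with hKdef
  obtain ⟨c₀, hc₀, hle⟩ := g.le_dist hK
  obtain ⟨B, hB⟩ := hK.isBounded.exists_norm_le
  have hmem : ∀ t ∈ Icc (0:ℝ) 1, (ofGX (pt u v t) : E n) ∈ K := fun t ht => ⟨t, ht, rfl⟩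
  set B' := max 1 (2 * B) with hB'
  have hB'1 : 1 ≤ B' := le_max_left _ _
  have hB'2 : 2 * B ≤ B' := le_max_right _ _
  refine ⟨B' / c₀ * dist u v, by positivity, fun t ht t' ht' => ?_⟩
  have h1 := hle _ (hmem t ht) (ofGX (pt u v t'))
  have h2 : g.dist (ofGX (pt u v t)) (ofGX (pt u v t')) = dist u v * |t - t'| := by
    rw [← GX.dist_def, dist_pt hX]
  rw [h2] at h1
  set d := ‖(ofGX (pt u v t) : E n) - ofGX (pt u v t')‖ with hd
  have hd0 : 0 ≤ d := norm_nonneg _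
  have hdB : d ≤ B' := by
    have e1 := hB _ (hmem t ht)
    have e2 := hB _ (hmem t' ht')
    have e3 := norm_sub_le (ofGX (pt u v t) : E n) (ofGX (pt u v t'))
    linarith
  have h3 : d ≤ B' * min d 1 := by
    rcases le_total d 1 with h | h
    · rw [min_eq_left h]
      nlinarith
    · rw [min_eq_right h]
      linarith
  have h4 : min d 1 ≤ dist u v * |t - t'| / c₀ := by
    rw [le_div_iff₀ hc₀]
    linarith
  calc d ≤ B' * min d 1 := h3
    _ ≤ B' * (dist u v * |t - t'| / c₀) := by gcongr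
    _ = B' / c₀ * dist u v * |t - t'| := by ring

private theorem lip_smul {φ : ℝ → ℝ} {F : ℝ → E n} {M L Lφ : ℝ} {s s' t t' : ℝ}
    (hφ : |φ s| ≤ 1) (hφL : |φ s - φ s'| ≤ Lφ) (hF : ‖F t'‖ ≤ M)
    (hFL : ‖F t - F t'‖ ≤ L) :
    ‖φ s • F t - φ s' • F t'‖ ≤ L + Lφ * M := by
  have e : φ s • F t - φ s' • F t' = φ s • (F t - F t') + (φ s - φ s') • F t' := by
    rw [smul_sub, sub_smul]; abel
  rw [e]
  refine (norm_add_le _ _).trans ?_
  rw [norm_smul, norm_smul, Real.norm_eq_abs, Real.norm_eq_abs]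
  have h1 : |φ s| * ‖F t - F t'‖ ≤ 1 * L := by gcongr
  have h2 : |φ s - φ s'| * ‖F t'‖ ≤ Lφ * M := by
    have : 0 ≤ Lφ := (abs_nonneg _).trans hφL
    gcongr
  linarith

theorem lipTri_GX {g : RMetric n} (hX : Straight (GX g)) : LipTri (GX g) := by
  intro u v w
  obtain ⟨L₁, hL₁, h₁⟩ := lipschitz_pt hX u v
  obtain ⟨L₂, hL₂, h₂⟩ := lipschitz_pt hX u w
  obtain ⟨L₃, hL₃, h₃⟩ := lipschitz_pt hX v w
  set A : ℝ → E n := fun t => ofGX (pt u v t) with hA
  set B : ℝ → E n := fun t => ofGX (pt u w t) with hB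
  set Q : ℝ → E n := fun s => ofGX (pt v w s) - (1 - s) • (ofGX v : E n) - s • (ofGX w : E n)
    with hQ
  set L₀ := max L₁ (max L₂ L₃) with hL₀
  have hL1 : L₁ ≤ L₀ := le_max_left _ _
  have hL2 : L₂ ≤ L₀ := (le_max_left _ _).trans (le_max_right _ _)
  have hL3 : L₃ ≤ L₀ := (le_max_right _ _).trans (le_max_right _ _)
  have hL0 : 0 ≤ L₀ := hL₁.trans hL1
  -- norm bounds
  set M := ‖(ofGX u : E n)‖ + ‖(ofGX v : E n)‖ + ‖(ofGX w : E n)‖ + L₀ with hM
  have nu := norm_nonneg (ofGX u : E n)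
  have nv := norm_nonneg (ofGX v : E n)
  have nw := norm_nonneg (ofGX w : E n)
  have hM0 : 0 ≤ M := by positivity
  have bd : ∀ (x y : GX g) (L : ℝ), 0 ≤ L → L ≤ L₀ → ‖(ofGX x : E n)‖ ≤ M - L₀ →
      (∀ t ∈ Icc (0:ℝ) 1, ∀ t' ∈ Icc (0:ℝ) 1,
        ‖(ofGX (pt x y t) : E n) - ofGX (pt x y t')‖ ≤ L * |t - t'|) →
      ∀ t ∈ Icc (0:ℝ) 1, ‖(ofGX (pt x y t) : E n)‖ ≤ M := by
    intro x y L hL hLL hx h t ht
    have h0 := h t ht 0 (by simp)
    rw [pt_zero, sub_zero] at h0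
    have h1 : L * |t| ≤ L₀ := by
      rw [abs_of_nonneg ht.1]
      nlinarith [ht.1, ht.2]
    have h2 : ‖(ofGX (pt x y t) : E n)‖ ≤ ‖(ofGX (pt x y t) : E n) - ofGX x‖ + ‖(ofGX x : E n)‖ := by
      have := norm_add_le ((ofGX (pt x y t) : E n) - ofGX x) (ofGX x : E n)
      rwa [sub_add_cancel] at this
    linarith
  have bA : ∀ t ∈ Icc (0:ℝ) 1, ‖A t‖ ≤ M := bd u v L₁ hL₁ hL1 (by rw [hM]; linarith) h₁
  have bB : ∀ t ∈ Icc (0:ℝ) 1, ‖B t‖ ≤ M := bd u w L₂ hL₂ hL2 (by rw [hM]; linarith) h₂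
  have bC : ∀ t ∈ Icc (0:ℝ) 1, ‖(ofGX (pt v w t) : E n)‖ ≤ M :=
    bd v w L₃ hL₃ hL3 (by rw [hM]; linarith) h₃
  have hvM : ‖(ofGX v : E n)‖ ≤ M := by rw [hM]; linarith
  have hwM : ‖(ofGX w : E n)‖ ≤ M := by rw [hM]; linarith
  have bQ : ∀ s ∈ Icc (0:ℝ) 1, ‖Q s‖ ≤ 3 * M := by
    intro s hs
    have e1 : ‖(1 - s) • (ofGX v : E n)‖ ≤ M := by
      rw [norm_smul, Real.norm_eq_abs, abs_of_nonneg (by linarith [hs.2])]
      have : (1 - s) * ‖(ofGX v : E n)‖ ≤ 1 * M := by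
        gcongr
        linarith [hs.1]
      linarith
    have e2 : ‖s • (ofGX w : E n)‖ ≤ M := by
      rw [norm_smul, Real.norm_eq_abs, abs_of_nonneg hs.1]
      have : s * ‖(ofGX w : E n)‖ ≤ 1 * M := by
        gcongr
        exact hs.2
      linarith
    have e3 := norm_sub_le ((ofGX (pt v w s) : E n) - (1 - s) • (ofGX v : E n)) (s • (ofGX w : E n))
    have e4 := norm_sub_le (ofGX (pt v w s) : E n) ((1 - s) • (ofGX v : E n))
    have e5 := bC s hs
    simp only [hQ]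
    linarith
  have lQ : ∀ s ∈ Icc (0:ℝ) 1, ∀ s' ∈ Icc (0:ℝ) 1, ‖Q s - Q s'‖ ≤ (L₀ + 2 * M) * |s - s'| := by
    intro s hs s' hs'
    have e : Q s - Q s' = ((ofGX (pt v w s) : E n) - ofGX (pt v w s')) +
        (s - s') • (ofGX v : E n) - (s - s') • (ofGX w : E n) := by
      simp only [hQ]
      module
    rw [e]
    have e1 := norm_sub_le (((ofGX (pt v w s) : E n) - ofGX (pt v w s')) +
        (s - s') • (ofGX v : E n)) ((s - s') • (ofGX w : E n))
    have e2 := norm_add_le ((ofGX (pt v w s) : E n) - ofGX (pt v w s'))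
        ((s - s') • (ofGX v : E n))
    rw [norm_smul, Real.norm_eq_abs] at e1 e2
    have e3 := h₃ s hs s' hs'
    have e4 : |s - s'| * ‖(ofGX v : E n)‖ ≤ |s - s'| * M := by gcongr
    have e5 : |s - s'| * ‖(ofGX w : E n)‖ ≤ |s - s'| * M := by gcongr
    have e6 : L₃ * |s - s'| ≤ L₀ * |s - s'| := by gcongr
    linarith
  have hconv : Convex ℝ (closedBall (0 : E n) (5 * M)) := convex_closedBall _ _
  have hcomp : IsCompact (closedBall (0 : E n) (5 * M)) := isCompact_closedBall _ _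
  obtain ⟨C, hC, hCd⟩ := g.dist_le_of_convex hcomp hconv
  set Ψ : ℝ → ℝ → E n := fun s t => (1 - s) • A t + s • B t + t • Q s with hΨ
  have memΨ : ∀ s ∈ Icc (0:ℝ) 1, ∀ t ∈ Icc (0:ℝ) 1, Ψ s t ∈ closedBall (0 : E n) (5 * M) := by
    intro s hs t ht
    rw [mem_closedBall, dist_zero_right]
    have e1 : ‖(1 - s) • A t‖ ≤ 1 * M := by
      rw [norm_smul, Real.norm_eq_abs, abs_of_nonneg (by linarith [hs.2])]
      have := bA t ht
      gcongr
      linarith [hs.1]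
    have e2 : ‖s • B t‖ ≤ 1 * M := by
      rw [norm_smul, Real.norm_eq_abs, abs_of_nonneg hs.1]
      have := bB t ht
      gcongr
      exact hs.2
    have e3 : ‖t • Q s‖ ≤ 1 * (3 * M) := by
      rw [norm_smul, Real.norm_eq_abs, abs_of_nonneg ht.1]
      have := bQ s hs
      gcongr
      exact ht.2
    have e4 := norm_add_le ((1 - s) • A t + s • B t) (t • Q s)
    have e5 := norm_add_le ((1 - s) • A t) (s • B t)
    simp only [hΨ]
    linarith
  refine ⟨fun s t => toGX g (Ψ s t), C * (4 * L₀ + 10 * M), ?_, ?_, ?_, ?_, ?_⟩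
  · intro s hs s' hs' t ht t' ht'
    rw [GX.dist_def]
    have h0 := hCd _ (memΨ s hs t ht) _ (memΨ s' hs' t' ht')
    refine h0.trans ?_
    rw [mul_assoc]
    refine mul_le_mul_of_nonneg_left ?_ hC.le
    have a1 : ‖(1 - s) • A t - (1 - s') • A t'‖ ≤ L₀ * |t - t'| + |s - s'| * M := by
      refine lip_smul (φ := fun s => 1 - s) (F := A) ?_ ?_ (bA t' ht') ?_
      · rw [abs_of_nonneg (by linarith [hs.2])]; linarith [hs.1]
      · rw [show (1 - s) - (1 - s') = -(s - s') by ring, abs_neg]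
      · have e6 : L₁ * |t - t'| ≤ L₀ * |t - t'| := by gcongr
        exact (h₁ t ht t' ht').trans e6
    have a2 : ‖s • B t - s' • B t'‖ ≤ L₀ * |t - t'| + |s - s'| * M := by
      refine lip_smul (φ := fun s => s) (F := B) ?_ le_rfl (bB t' ht') ?_
      · rw [abs_of_nonneg hs.1]; exact hs.2
      · have e6 : L₂ * |t - t'| ≤ L₀ * |t - t'| := by gcongr
        exact (h₂ t ht t' ht').trans e6
    have a3 : ‖t • Q s - t' • Q s'‖ ≤ (L₀ + 2 * M) * |s - s'| + |t - t'| * (3 * M) := by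
      refine lip_smul (φ := fun t => t) (F := Q) ?_ le_rfl (bQ s' hs') (lQ s hs s' hs')
      · rw [abs_of_nonneg ht.1]; exact ht.2
    have e : Ψ s t - Ψ s' t' = ((1 - s) • A t - (1 - s') • A t') + (s • B t - s' • B t') +
        (t • Q s - t' • Q s') := by
      simp only [hΨ]; abel
    rw [e]
    have e1 := norm_add_le (((1 - s) • A t - (1 - s') • A t') + (s • B t - s' • B t'))
      (t • Q s - t' • Q s')
    have e2 := norm_add_le ((1 - s) • A t - (1 - s') • A t') (s • B t - s' • B t')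
    have p1 : 0 ≤ |s - s'| := abs_nonneg _
    have p2 : 0 ≤ |t - t'| := abs_nonneg _
    nlinarith [mul_nonneg hL0 p1, mul_nonneg hL0 p2, mul_nonneg hM0 p1, mul_nonneg hM0 p2]
  · intro s _
    change toGX g ((1 - s) • (ofGX (pt u v 0) : E n) + s • (ofGX (pt u w 0) : E n) +
      (0:ℝ) • Q s) = u
    rw [pt_zero, pt_zero, zero_smul, add_zero, ← add_smul, sub_add_cancel, one_smul]
    rfl
  · intro s _
    change toGX g ((1 - s) • (ofGX (pt u v 1) : E n) + s • (ofGX (pt u w 1) : E n) +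
      (1:ℝ) • ((ofGX (pt v w s) : E n) - (1 - s) • (ofGX v : E n) - s • (ofGX w : E n))) = pt v w s
    rw [pt_one hX, pt_one hX, one_smul]
    have e : (1 - s) • (ofGX v : E n) + s • (ofGX w : E n) +
      ((ofGX (pt v w s) : E n) - (1 - s) • (ofGX v : E n) - s • (ofGX w : E n)) =
        ofGX (pt v w s) := by abel
    rw [e]
    rfl
  · intro t _
    change toGX g ((1 - (0:ℝ)) • (ofGX (pt u v t) : E n) + (0:ℝ) • (ofGX (pt u w t) : E n) +
      t • ((ofGX (pt v w 0) : E n) - (1 - (0:ℝ)) • (ofGX v : E n) - (0:ℝ) • (ofGX w : E n))) =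
        pt u v t
    rw [pt_zero, sub_zero, one_smul, one_smul, zero_smul, zero_smul, sub_self, sub_zero, smul_zero,
      add_zero, add_zero]
    rfl
  · intro t _
    change toGX g ((1 - (1:ℝ)) • (ofGX (pt u v t) : E n) + (1:ℝ) • (ofGX (pt u w t) : E n) +
      t • ((ofGX (pt v w 1) : E n) - (1 - (1:ℝ)) • (ofGX v : E n) - (1:ℝ) • (ofGX w : E n))) =
        pt u w t
    rw [pt_one hX, sub_self, one_smul, one_smul, zero_smul, zero_smul, sub_zero, sub_self,
      smul_zero, add_zero, zero_add]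
    rfl

end Pool.Agent.NCP
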