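import Pool.Agent.NCP.MetricFalse
import Pool.Agent.NCP.RProper
import Pool.Agent.NCP.RSemi
import Pool.Agent.NCP.RTri

/-! # MP_23cc9a_gt, module NCP/Main: assembly

`MulAction (GMGroup A) (GX g)` from `ρ`, isometric; `GoodAction` (compact sets of `GX g` and `E n`
agree, `GX.isCompact_iff`); `ProperSpace (GX g)` from `properSpace_of_cocompact`; `metric_false`. -/

open Set Filter Topology Metric

namespace Pool.Agent.NCP

theorem main (A : Matrix.SpecialLinearGroup (Fin 2) ℤ) (htr : 2 < |A.1 0 0 + A.1 1 1|)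
    (ha : A.1 0 0 ≠ 0) (hd : A.1 1 1 ≠ 0) (n : ℕ) (g : RMetric n)
    (ρ : GMGroup A →* Equiv.Perm (E n)) (hg : g.NoConjugatePoints) (hρ : g.IsDeckAction ρ) :
    False := by
  have hX : Straight (GX g) := straight_GX hg
  let act : MulAction (GMGroup A) (GX g) :=
    { smul := fun γ x => toGX g (ρ γ (ofGX x))
      one_smul := fun x => by
        change toGX g (ρ 1 (ofGX x)) = x
        rw [map_one]; rfl
      mul_smul := fun γ δ x => by
        change toGX g (ρ (γ * δ) (ofGX x)) = toGX g (ρ γ (ofGX (toGX g (ρ δ (ofGX x)))))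
        rw [map_mul]; rfl }
  have hsmul : ∀ (γ : GMGroup A) (x : GX g), γ • x = toGX g (ρ γ (ofGX x)) := fun _ _ => rfl
  have hiso : IsIsometricSMul (GMGroup A) (GX g) :=
    ⟨fun γ => Isometry.of_dist_eq (fun x y => by
      rw [GX.dist_def, GX.dist_def]
      exact hρ.isometric γ (ofGX x) (ofGX y))⟩
  obtain ⟨K, hK, hcov⟩ := hρ.cocompact
  have hK' : IsCompact ((ofGX (g := g)) ⁻¹' K) := by
    rw [GX.isCompact_iff]
    exact hK
  have hcov' : ∀ x : GX g, ∃ γ : GMGroup A, γ • x ∈ (ofGX (g := g)) ⁻¹' K := fun x => hcov (ofGX x)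
  have hA : GoodAction (GMGroup A) (GX g) :=
    { free := fun γ x h => hρ.free γ (ofGX x) h
      disc := fun L hL => by
        have := hρ.disc ((toGX g) ⁻¹' L) ((GX.isCompact_iff L).mp hL)
        refine this.subset ?_
        rintro γ ⟨x, hx, hγ⟩
        exact ⟨ofGX x, hx, hγ⟩
      cocpt := ⟨_, hK', hcov'⟩ }
  have hP : ProperSpace (GX g) := properSpace_of_cocompact hX hK' hcov'
  exact metric_false A htr ha hd hA hX (semi_GX hX hK' hcov') (lipTri_GX hX)

end Pool.Agent.NCP
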