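import Pool.Agent.NCP.Key
import Pool.Agent.NCP.Amalg
import Pool.Agent.NCP.Gam

/-! # MP_23cc9a_gt, module NCP/MetricFalse: no straight space with a good action of `GMGroup A`

PROOF. `S` from `exists_split` for `(0, 1)`, `key_prop` with `h = gT A 0`, `z = gZ A 0`,
`h' = gT A 1`, `k = gX A 1 0`, `β₁ = -b`, `α = a`: `|a| ell T₀ ≤ ell T₁`. Then for `(1, 0)`:
`|d| ell T₁ ≤ ell T₀`. So `|a| |d| ell T₀ ≤ ell T₀`, contradiction with `arith`, `ell_pos`. -/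

open Set Function

namespace Pool.Agent.NCP

theorem metric_false {X : Type*} [MetricSpace X] [ProperSpace X] [Nonempty X]
    (A : Matrix.SpecialLinearGroup (Fin 2) ℤ) (htr : 2 < |A.1 0 0 + A.1 1 1|)
    (ha : A.1 0 0 ≠ 0) (hd : A.1 1 1 ≠ 0) [MulAction (GMGroup A) X]
    [IsIsometricSMul (GMGroup A) X] (hA : GoodAction (GMGroup A) X)
    (hX : Straight X) (hS : Semi X) (hT : LipTri X) : False := by
  obtain ⟨hb, hlt⟩ := arith A htr ha hd
  have h01 : (0 : Fin 2) ≠ 1 := by decide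
  have e1 : |((A.1 0 0 : ℤ) : ℝ)| * ell X (gT A 0) ≤ ell X (gT A 1) := by
    obtain ⟨S, hG, hG', hSA⟩ := exists_split (phi A) (phi_injective A) 0 1 h01
      (fun k => by fin_cases k <;> simp)
    refine key_prop hX hA hS hT S (h := gT A 0) (z := gZ A 0) (h' := gT A 1) (k := gX A 1 0)
      (x := gX A 0 0) (y := gX A 0 1) ?_ ?_ (gZ_eq A 0) ?_ ?_ (gT_ne_one A 0) ?_ (gT1_eq A) ?_ ?_
      (conj_inj0 A hb)
    · rw [hG]; exact gX_mem A 0 0
    · rw [hG]; exact gX_mem A 0 1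
    · rw [hG]; exact gT_mem A 0
    · rw [hG]; exact gT_comm A 0
    · rw [hSA]; exact base_gen A 0
    · rw [hG']; exact gX_mem A 1 0
    · exact gT_comm A 1 _ (gX_mem A 1 0)
  have e2 : |((A.1 1 1 : ℤ) : ℝ)| * ell X (gT A 1) ≤ ell X (gT A 0) := by
    obtain ⟨S, hG, hG', hSA⟩ := exists_split (phi A) (phi_injective A) 1 0 h01.symm
      (fun k => by fin_cases k <;> simp)
    refine key_prop hX hA hS hT S (h := gT A 1) (z := gZ A 1) (h' := gT A 0) (k := gX A 0 0)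
      (x := gX A 1 0) (y := gX A 1 1) ?_ ?_ (gZ_eq A 1) ?_ ?_ (gT_ne_one A 1) ?_ (gT0_eq A) ?_ ?_
      (conj_inj1 A hb)
    · rw [hG]; exact gX_mem A 1 0
    · rw [hG]; exact gX_mem A 1 1
    · rw [hG]; exact gT_mem A 1
    · rw [hG]; exact gT_comm A 1
    · rw [hSA]; exact base_gen A 1
    · rw [hG']; exact gX_mem A 0 0
    · exact gT_comm A 0 _ (gX_mem A 0 0)
  have p0 : 0 < ell X (gT A 0) := ell_pos hA (gT_ne_one A 0)
  have e3 : |((A.1 1 1 : ℤ) : ℝ)| * (|((A.1 0 0 : ℤ) : ℝ)| * ell X (gT A 0)) ≤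
      |((A.1 1 1 : ℤ) : ℝ)| * ell X (gT A 1) := mul_le_mul_of_nonneg_left e1 (abs_nonneg _)
  have e4 : (|((A.1 0 0 : ℤ) : ℝ)| * |((A.1 1 1 : ℤ) : ℝ)|) * ell X (gT A 0) ≤
      1 * ell X (gT A 0) := by nlinarith
  have e5 := le_of_mul_le_mul_right e4 p0
  linarith

end Pool.Agent.NCP
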