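import Pool.Agent.NCP.Displ

/-! # MP_23cc9a_gt, module NCP/Omega: the first-edge label far from the axes

`SplitData` is what is used of the splitting `Γ = G *_A G'`: `β γ ∈ G ⧸ A` is the first edge of the
path from the base vertex `G` to `γ G` in the Bass-Serre tree (`γ ∉ G`).

PROOF of `exists_omega`.  Let `K₀` be compact with `Γ K₀ = X` (from `GoodAction.cocpt`, i.e. for all
`x` there is `γ` with `γ⁻¹ • x ∈ K₀`), `K₁ = cthickening 1 K₀`, compact. `F = {s | s K₁ ∩ K₁ ≠ ∅}` is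
finite; write each `s ∈ F` as a product of letters `s₁ ⋯ s_j` (elements of `G ∪ G'`). Choose
`R₀ ≥ exc h` on all the compact sets `(s₁ ⋯ s_i)⁻¹ • K₁`, `0 ≤ i ≤ j`, `s ∈ F` (finitely many).

Claim 1. If `R₀ < exc h u` and `γ⁻¹ • u ∈ K₁` then `γ ∉ G` (otherwise
`exc h u = exc h (γ⁻¹ • u) ≤ R₀`, `exc_smul_of_comm`).
Claim 2. If moreover `γ'⁻¹ • u ∈ K₁` then `β γ = β γ'` : `γ' = γ s` with `s ∈ F`; put
`γ_i = γ s₁ ⋯ s_i`. All `γ_i ∉ G`, since `γ_i⁻¹ • u ∈ (s₁ ⋯ s_i)⁻¹ • K₁` has excess `≤ R₀` and the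
excess is `G`-invariant. So `β γ_i = β γ_{i+1}` by `β_G` or `β_G'`.
Define `ω u = β γ` for a chosen `γ` with `γ⁻¹ • u ∈ K₀`. For `dist u u' < 1`,
`γ⁻¹ • u' ∈ K₁`, so `ω u' = β γ = ω u` if both excesses are `> R₀` (`{R₀ < exc h}` is open).
Equivariance: `(g γ)⁻¹ • (g • u) = γ⁻¹ • u`. Return `K = K₀`. -/

open Set Filter Topology

namespace Pool.Agent.NCP

/-- splitting data; `A = G ⊓ G'` -/
structure SplitData (Γ : Type*) [Group Γ] where
  G : Subgroup Γ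
  G' : Subgroup Γ
  A : Subgroup Γ
  inf_eq : G ⊓ G' = A
  gen : G ⊔ G' = ⊤
  β : Γ → ↥G ⧸ A.subgroupOf G
  β_smul : ∀ (g : G) (γ : Γ), β ((g : Γ) * γ) = g • β γ
  β_G : ∀ (γ s : Γ), s ∈ G → γ ∉ G → β (γ * s) = β γ
  β_G' : ∀ (γ s : Γ), s ∈ G' → γ ∉ G → γ * s ∉ G → β (γ * s) = β γ
  β_one : ∀ k ∈ G', k ∉ G → β k = ((1 : G) : ↥G ⧸ A.subgroupOf G)

/-- every element is a product of letters -/
theorem SplitData.exists_letters {Γ : Type*} [Group Γ] (S : SplitData Γ) (s : Γ) :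
    ∃ l : List Γ, (∀ x ∈ l, x ∈ S.G ∨ x ∈ S.G') ∧ l.prod = s := by
  have hs : s ∈ Subgroup.closure ((S.G : Set Γ) ∪ S.G') := by
    rw [← Subgroup.sup_eq_closure, S.gen]
    exact Subgroup.mem_top s
  rw [← Subgroup.mem_toSubmonoid, Subgroup.closure_toSubmonoid] at hs
  obtain ⟨l, hl, hp⟩ := Submonoid.exists_list_of_mem_closure hs
  refine ⟨l, fun x hx => ?_, hp⟩
  rcases hl x hx with h | h
  · exact h
  · rcases h with h | h
    · exact Or.inl (by simpa using h)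
    · exact Or.inr (by simpa using h)

/-- moving along a word of letters without entering `G` does not change `β` -/
theorem SplitData.β_list {Γ : Type*} [Group Γ] (S : SplitData Γ) (γ : Γ) (l : List Γ)
    (hl : ∀ x ∈ l, x ∈ S.G ∨ x ∈ S.G') (h : ∀ i ≤ l.length, γ * (l.take i).prod ∉ S.G) :
    S.β (γ * l.prod) = S.β γ := by
  induction l generalizing γ with
  | nil => simp
  | cons x l ih =>
    have h0 : γ ∉ S.G := by simpa using h 0 (Nat.zero_le _)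
    have h1 : γ * x ∉ S.G := by simpa using h 1 (by simp)
    have hx : S.β (γ * x) = S.β γ := by
      rcases hl x (by simp) with hx | hx
      · exact S.β_G γ x hx h0
      · exact S.β_G' γ x hx h0 h1
    rw [List.prod_cons, ← mul_assoc, ih (γ * x) (fun y hy => hl y (by simp [hy])) ?_, hx]
    intro i hi
    have := h (i + 1) (by simpa using hi)
    rwa [List.take_succ_cons, List.prod_cons, ← mul_assoc] at this

variable {X : Type*} [MetricSpace X] {Γ : Type*} [Group Γ] [MulAction Γ X] [IsIsometricSMul Γ X]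

/-- Far from the axes of `h` the label does not change under right multiplication by the elements
of a finite set. -/
theorem SplitData.exists_far_bound (S : SplitData Γ) {h : Γ} (hG : ∀ g ∈ S.G, g * h = h * g)
    {K : Set X} (hK : IsCompact K) {F : Set Γ} (hF : F.Finite) :
    ∃ R : ℝ, 0 ≤ R ∧ ∀ (u : X) (γ : Γ), R < exc h u → γ⁻¹ • u ∈ K →
      γ ∉ S.G ∧ ∀ s ∈ F, S.β (γ * s) = S.β γ := by
  choose L hL hLp using S.exists_letters
  set T : Set X := K ∪ ⋃ s ∈ F, ⋃ i ∈ Finset.range ((L s).length + 1),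
    (fun x : X => (((L s).take i).prod)⁻¹ • x) '' K with hT
  have hTc : IsCompact T := by
    refine hK.union (hF.isCompact_biUnion fun s _ => ?_)
    refine (Finset.range ((L s).length + 1)).isCompact_biUnion fun i _ => ?_
    exact hK.image (continuous_const_smul _)
  obtain ⟨C, hC⟩ := hTc.exists_bound_of_continuousOn (continuous_exc (X := X) h).continuousOn
  have hin : ∀ (u : X) (g : Γ), g ∈ S.G → g⁻¹ • u ∈ T → exc h u ≤ max C 0 := by
    intro u g hg hu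
    have e : exc h (g⁻¹ • u) = exc h u := by
      apply exc_smul_of_comm
      exact hG _ (S.G.inv_mem hg)
    rw [← e]
    exact (le_abs_self _).trans ((hC _ hu).trans (le_max_left _ _))
  refine ⟨max C 0, le_max_right _ _, fun u γ hu hγ => ⟨fun hγG => ?_, fun s hs => ?_⟩⟩
  · exact absurd (hin u γ hγG (Or.inl hγ)) (not_le.mpr hu)
  · have key := S.β_list γ (L s) (hL s) fun i hi hγG => ?_
    · rwa [hLp] at key
    · refine absurd (hin u _ hγG (Or.inr ?_)) (not_le.mpr hu)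
      rw [mul_inv_rev, mul_smul]
      refine mem_biUnion hs (mem_biUnion (Finset.mem_coe.mpr (Finset.mem_range.mpr
        (Nat.lt_succ_of_le hi))) ⟨_, hγ, rfl⟩)

theorem exists_omega [ProperSpace X] (hA : GoodAction Γ X) (S : SplitData Γ) {h : Γ}
    (hG : ∀ g ∈ S.G, g * h = h * g) :
    ∃ (R₀ : ℝ) (K : Set X) (ω : X → ↥S.G ⧸ S.A.subgroupOf S.G), 0 ≤ R₀ ∧ IsCompact K ∧
      (∀ x, ∃ γ : Γ, γ⁻¹ • x ∈ K) ∧
      (∀ u, R₀ < exc h u → ∀ᶠ u' in 𝓝 u, ω u' = ω u) ∧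
      (∀ (g : S.G) (u : X), R₀ < exc h u → ω ((g : Γ) • u) = g • ω u) ∧
      (∀ (u : X) (γ : Γ), R₀ < exc h u → γ⁻¹ • u ∈ K → γ ∉ S.G ∧ ω u = S.β γ) := by
  obtain ⟨K₀, hK₀, hcov⟩ := hA.cocpt
  have hcov' : ∀ x, ∃ γ : Γ, γ⁻¹ • x ∈ K₀ := fun x => by
    obtain ⟨γ, hγ⟩ := hcov x
    exact ⟨γ⁻¹, by simpa using hγ⟩
  choose Γ' hΓ' using hcov'
  have hK₁ : IsCompact (Metric.cthickening 1 K₀) := hK₀.cthickening
  have hsub : K₀ ⊆ Metric.cthickening 1 K₀ := Metric.self_subset_cthickening _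
  obtain ⟨R₀, hR₀, hR⟩ := S.exists_far_bound (X := X) hG hK₁ (hA.disc _ hK₁)
  have claim : ∀ (u : X) (γ γ' : Γ), R₀ < exc h u → γ⁻¹ • u ∈ Metric.cthickening 1 K₀ →
      γ'⁻¹ • u ∈ Metric.cthickening 1 K₀ → S.β γ' = S.β γ := by
    intro u γ γ' hu hγ hγ'
    have := (hR u γ hu hγ).2 (γ⁻¹ * γ') ⟨γ'⁻¹ • u, hγ', ?_⟩
    · rwa [mul_inv_cancel_left] at this
    · rwa [← mul_smul, mul_inv_cancel_right]
  refine ⟨R₀, K₀, fun u => S.β (Γ' u), hR₀, hK₀, fun x => ⟨Γ' x, hΓ' x⟩, ?_, ?_, ?_⟩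
  · intro u hu
    have h1 : ∀ᶠ u' in 𝓝 u, R₀ < exc h u' :=
      (continuous_exc (X := X) h).continuousAt.eventually_const_lt hu
    have h2 : ∀ᶠ u' in 𝓝 u, dist u' u ≤ 1 :=
      (Metric.closedBall_mem_nhds u one_pos)
    filter_upwards [h1, h2] with u' h1 h2
    refine claim u' (Γ' u) (Γ' u') h1 ?_ (hsub (hΓ' u'))
    refine Metric.mem_cthickening_of_dist_le _ ((Γ' u)⁻¹ • u) 1 K₀ (hΓ' u) ?_
    rwa [dist_smul]
  · intro g u hu
    rw [← S.β_smul]
    have e : exc h ((g : Γ) • u) = exc h u := exc_smul_of_comm (hG g g.2) u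
    refine claim ((g : Γ) • u) ((g : Γ) * Γ' u) (Γ' ((g : Γ) • u)) (by rwa [e]) (hsub ?_)
      (hsub (hΓ' _))
    rw [mul_inv_rev, mul_smul, inv_smul_smul]
    exact hΓ' u
  · intro u γ hu hγ
    exact ⟨(hR u γ hu (hsub hγ)).1, claim u γ (Γ' u) hu (hsub hγ) (hsub (hΓ' u))⟩

end Pool.Agent.NCP
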