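import Pool.Agent.NCP.Axis

/-! # MP_23cc9a_gt, module NCP/Pot: potentials

`f₀ x = lim_n (dist x (h^n p) - n ell)` (`p` on an axis; the sequence is non-increasing and bounded
below by `- dist x p`) is a potential.  For `z` commuting with `h`, average along `⟨z⟩` :
`f x = lim_{𝒰} (1/n) ∑_{k<n} (f₀ (z^k x) - f₀ (z^k x₀))` over `hyperfilter ℕ`;
then `f (z x) - f x = lim (1/n) (f₀ (z^n x) - f₀ x)` does not depend on `x`. -/

open Set Filter Topology

namespace Pool.Agent.NCP

variable {X : Type*} [MetricSpace X] {Γ : Type*} [Group Γ] [MulAction Γ X] [IsIsometricSMul Γ X]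

/-- A potential exists. -/
private theorem exists_pot₀ [ProperSpace X] [Nonempty X] (hX : Straight X) (hA : GoodAction Γ X)
    (h : Γ) : ∃ f : X → ℝ, IsPot h f := by
  obtain ⟨p, hp⟩ := exists_disp_eq_ell (X := X) hA h
  let a : X → ℕ → ℝ := fun x n => dist x (h ^ n • p) - n * ell X h
  have hanti : ∀ x, Antitone (a x) := by
    intro x
    apply antitone_nat_of_succ_le
    intro n
    change dist x (h ^ (n + 1) • p) - ((n + 1 : ℕ) : ℝ) * ell X h ≤
      dist x (h ^ n • p) - n * ell X h
    have h1 := dist_triangle x (h ^ n • p) (h ^ (n + 1) • p)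
    have h2 : dist (h ^ n • p) (h ^ (n + 1) • p) = ell X h := by
      rw [pow_succ, mul_smul, dist_smul]
      exact hp
    push_cast
    linarith
  have hbdd : ∀ x n, - dist x p ≤ a x n := by
    intro x n
    have h1 := dist_pow_of_min hX hp n
    have h2 := dist_triangle p x (h ^ n • p)
    rw [dist_comm p x] at h2
    change _ ≤ dist x (h ^ n • p) - n * ell X h
    linarith
  have hlim : ∀ x, Tendsto (a x) atTop (𝓝 (⨅ n, a x n)) := fun x =>
    tendsto_atTop_ciInf (hanti x) ⟨- dist x p, by rintro _ ⟨n, rfl⟩; exact hbdd x n⟩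
  refine ⟨fun x => ⨅ n, a x n, ?_, ?_⟩
  · intro x y
    have h1 := ((hlim x).sub (hlim y)).abs
    apply le_of_tendsto h1
    filter_upwards with n
    change |(dist x (h ^ n • p) - n * ell X h) - (dist y (h ^ n • p) - n * ell X h)| ≤ _
    have h2 := abs_dist_sub_le x y (h ^ n • p)
    have e : (dist x (h ^ n • p) - n * ell X h) - (dist y (h ^ n • p) - n * ell X h) =
      dist x (h ^ n • p) - dist y (h ^ n • p) := by ring
    rw [e]
    exact h2
  · intro x
    have h1 := (hlim (h • x)).comp (tendsto_add_atTop_nat 1)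
    have h2 := (hlim x).sub (tendsto_const_nhds (x := ell X h))
    apply tendsto_nhds_unique h1
    refine h2.congr ?_
    intro n
    change dist x (h ^ n • p) - n * ell X h - ell X h =
      dist (h • x) (h ^ (n + 1) • p) - ((n + 1 : ℕ) : ℝ) * ell X h
    rw [pow_succ', mul_smul, dist_smul]
    push_cast
    ring

theorem exists_pot [ProperSpace X] [Nonempty X] (hX : Straight X) (hA : GoodAction Γ X)
    (h z : Γ) (hz : z * h = h * z) :
    ∃ f : X → ℝ, IsPot h f ∧ ∃ c : ℝ, ∀ x, f (z • x) = f x + c := by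
  obtain ⟨f₀, hL, hf₀⟩ := exists_pot₀ hX hA h
  obtain ⟨x₀⟩ := ‹Nonempty X›
  let b : X → ℕ → ℝ := fun x n =>
    (∑ k ∈ Finset.range n, (f₀ (z ^ k • x) - f₀ (z ^ k • x₀))) / n
  have hzk : ∀ (k : ℕ) (x : X), z ^ k • h • x = h • z ^ k • x := by
    intro k x
    have : Commute z h := hz
    rw [← mul_smul, (this.pow_left k).eq, mul_smul]
  have hdiff : ∀ x y n, |b x n - b y n| ≤ dist x y := by
    intro x y n
    rcases Nat.eq_zero_or_pos n with rfl | hn
    · simp [b]
    have hn' : (0:ℝ) < n := Nat.cast_pos.2 hn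
    have e : b x n - b y n = (∑ k ∈ Finset.range n, (f₀ (z ^ k • x) - f₀ (z ^ k • y))) / n := by
      change (∑ k ∈ Finset.range n, (f₀ (z ^ k • x) - f₀ (z ^ k • x₀))) / (n:ℝ) -
        (∑ k ∈ Finset.range n, (f₀ (z ^ k • y) - f₀ (z ^ k • x₀))) / n = _
      rw [← sub_div, ← Finset.sum_sub_distrib]
      congr 1
      apply Finset.sum_congr rfl
      intro k _
      ring
    rw [e, abs_div, abs_of_pos hn', div_le_iff₀ hn']
    refine (Finset.abs_sum_le_sum_abs _ _).trans ?_
    refine (Finset.sum_le_sum (g := fun _ => dist x y) ?_).trans ?_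
    · intro k _
      refine (hL _ _).trans ?_
      rw [dist_smul]
    · rw [Finset.sum_const, Finset.card_range, nsmul_eq_mul, mul_comm]
  have hb0 : ∀ n, b x₀ n = 0 := by
    intro n
    simp [b]
  have hlim : ∀ x, ∃ L : ℝ, Tendsto (b x) (hyperfilter ℕ : Filter ℕ) (𝓝 L) := by
    intro x
    have hmem : ∀ n, b x n ∈ Icc (-(dist x x₀)) (dist x x₀) := by
      intro n
      have := hdiff x x₀ n
      rw [hb0, sub_zero, abs_le] at this
      exact this
    obtain ⟨L, _, hL⟩ := (isCompact_Icc (a := -(dist x x₀)) (b := dist x x₀)).ultrafilter_le_nhds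
      ((hyperfilter ℕ).map (b x)) (by
        rw [le_principal_iff]
        change ∀ᶠ n in (hyperfilter ℕ : Filter ℕ), b x n ∈ Icc (-(dist x x₀)) (dist x x₀)
        exact Eventually.of_forall hmem)
    exact ⟨L, hL⟩
  choose f hf using hlim
  have hne : ∀ᶠ n in (hyperfilter ℕ : Filter ℕ), 1 ≤ n :=
    Nat.hyperfilter_le_atTop (eventually_ge_atTop 1)
  refine ⟨f, ⟨?_, ?_⟩, f (z • x₀) - f x₀, ?_⟩
  · intro x y
    apply le_of_tendsto ((hf x).sub (hf y)).abs
    exact Eventually.of_forall (fun n => hdiff x y n)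
  · intro x
    have h1 := hf (h • x)
    have h2 := (hf x).sub (tendsto_const_nhds (x := ell X h))
    refine tendsto_nhds_unique_of_eventuallyEq h1 h2 ?_
    filter_upwards [hne] with n hn
    have hn' : (n:ℝ) ≠ 0 := by positivity
    change (∑ k ∈ Finset.range n, (f₀ (z ^ k • h • x) - f₀ (z ^ k • x₀))) / (n:ℝ) =
      (∑ k ∈ Finset.range n, (f₀ (z ^ k • x) - f₀ (z ^ k • x₀))) / n - ell X h
    rw [eq_sub_iff_add_eq, div_add' _ _ _ hn']
    congr 1
    have e : ell X h * (n:ℝ) = ∑ _k ∈ Finset.range n, ell X h := by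
      rw [Finset.sum_const, Finset.card_range, nsmul_eq_mul, mul_comm]
    rw [e, ← Finset.sum_add_distrib]
    apply Finset.sum_congr rfl
    intro k _
    rw [hzk, hf₀]
    ring
  · intro x
    have key : Tendsto (fun n : ℕ => (b (z • x) n - b x n) - (b (z • x₀) n - b x₀ n))
        (hyperfilter ℕ : Filter ℕ) (𝓝 0) := by
      have hz0 : Tendsto (fun n : ℕ => (2 * dist x x₀) / (n:ℝ)) (hyperfilter ℕ : Filter ℕ) (𝓝 0) :=
        (tendsto_const_div_atTop_nhds_zero_nat (2 * dist x x₀)).mono_left Nat.hyperfilter_le_atTop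
      apply squeeze_zero_norm' _ hz0
      filter_upwards [hne] with n hn
      have hn' : (0:ℝ) < n := by positivity
      have tel : ∀ y, b (z • y) n - b y n = (f₀ (z ^ n • y) - f₀ y) / n := by
        intro y
        change (∑ k ∈ Finset.range n, (f₀ (z ^ k • z • y) - f₀ (z ^ k • x₀))) / (n:ℝ) -
          (∑ k ∈ Finset.range n, (f₀ (z ^ k • y) - f₀ (z ^ k • x₀))) / n = _
        rw [← sub_div, ← Finset.sum_sub_distrib]
        congr 1
        have e : ∀ k ∈ Finset.range n, (f₀ (z ^ k • z • y) - f₀ (z ^ k • x₀)) -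
            (f₀ (z ^ k • y) - f₀ (z ^ k • x₀)) =
            (fun k => f₀ (z ^ k • y)) (k + 1) - (fun k => f₀ (z ^ k • y)) k := by
          intro k _
          change _ = f₀ (z ^ (k + 1) • y) - f₀ (z ^ k • y)
          rw [pow_succ, mul_smul]
          ring
        rw [Finset.sum_congr rfl e]
        have e2 := Finset.sum_range_sub (fun k => f₀ (z ^ k • y)) n
        refine e2.trans ?_
        simp
      rw [tel, tel, ← sub_div, Real.norm_eq_abs, abs_div, abs_of_pos hn']
      apply div_le_div_of_nonneg_right _ hn'.le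
      have h1 := hL (z ^ n • x) (z ^ n • x₀)
      have h2 := hL x x₀
      rw [dist_smul] at h1
      rw [abs_le] at h1 h2 ⊢
      constructor <;> linarith [h1.1, h1.2, h2.1, h2.2]
    have h1 := ((hf (z • x)).sub (hf x)).sub ((hf (z • x₀)).sub (hf x₀))
    have h2 := tendsto_nhds_unique h1 key
    linarith

/-- linear on the segment `[y, h y]` of an axis -/
theorem IsPot.on_axis (hX : Straight X) {h : Γ} {f : X → ℝ} (hf : IsPot h f) {y : X}
    (hy : disp h y = ell X h) {t : ℝ} (ht : t ∈ Icc (0:ℝ) 1) :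
    f (pt y (h • y) t) = f y - t * ell X h := by
  have h1 := hf.1 y (pt y (h • y) t)
  have h2 := hf.1 (pt y (h • y) t) (h • y)
  have hd : dist y (h • y) = ell X h := hy
  rw [dist_left_pt hX, abs_of_nonneg ht.1, hd] at h1
  rw [dist_pt_right hX, abs_of_nonneg (by linarith [ht.2] : (0:ℝ) ≤ 1 - t), hd, hf.2] at h2
  rw [abs_le] at h1 h2
  linarith [h1.1, h1.2, h2.1, h2.2]

/-- precomposition with a commuting element -/
theorem IsPot.comp {h g : Γ} (hg : g * h = h * g) {f : X → ℝ} (hf : IsPot h f) :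
    IsPot h (fun x => f (g • x)) := by
  constructor
  · intro x y
    have := hf.1 (g • x) (g • y)
    rwa [dist_smul] at this
  · intro x
    change f (g • h • x) = f (g • x) - _
    rw [← mul_smul, hg, mul_smul]
    exact hf.2 _


theorem IsPot.inv_smul {h : Γ} {f : X → ℝ} (hf : IsPot h f) (x : X) :
    f (h⁻¹ • x) = f x + ell X h := by
  have := hf.2 (h⁻¹ • x)
  rw [smul_inv_smul] at this
  linarith


/-- additivity along powers -/
theorem pow_smul_of_add {h' : Γ} {f : X → ℝ} {c : ℝ} (hc : ∀ x, f (h' • x) = f x + c) (k : ℕ)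
    (x : X) : f (h' ^ k • x) = f x + k * c := by
  induction k with
  | zero => simp
  | succ k ih =>
    rw [pow_succ', mul_smul, hc, ih]
    push_cast
    ring

theorem abs_le_ell [ProperSpace X] [Nonempty X] (hX : Straight X) (hA : GoodAction Γ X)
    {h h' : Γ} {f : X → ℝ} (hf : IsPot h f) {c : ℝ} (hc : ∀ x, f (h' • x) = f x + c) :
    |c| ≤ ell X h' := by
  obtain ⟨u, hu⟩ := exists_disp_eq_ell (X := X) hA h'
  have h1 := hf.1 (h' • u) u
  rw [hc, add_sub_cancel_left, dist_comm] at h1
  rw [← hu]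
  exact h1

end Pool.Agent.NCP
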