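import Pool.Agent.NCP.RCat

/-! # MP_23cc9a_gt, module NCP/RBound: comparison with the Euclidean norm on compact sets

Lower bound for curves: let `c 0 ∈ K`, `δ = min ‖c 1 - c 0‖ 1`, `K₁ = cthickening 1 K` and
`c₀ ^ 2 ‖v‖² ≤ form x v v` for `x ∈ K₁`. If `T` is the first parameter with `‖c T - c 0‖ ≥ δ`, then
`c [0,T] ⊆ K₁` and `length ≥ ∫_0^T c₀ ‖c'‖ ≥ c₀ ‖c T - c 0‖ = c₀ δ`. -/

open Set Filter Topology Metric
open scoped ContDiff

namespace Pool.Agent.NCP

namespace RMetric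

variable {n : ℕ} (g : RMetric n)

theorem exists_form_bounds {K : Set (E n)} (hK : IsCompact K) :
    ∃ c₀ > (0:ℝ), ∃ C₀ > (0:ℝ), ∀ x ∈ K, ∀ v : E n,
      c₀ ^ 2 * ‖v‖ ^ 2 ≤ g.form x v v ∧ g.form x v v ≤ C₀ ^ 2 * ‖v‖ ^ 2 := by
  have hF : Continuous fun p : E n × E n => g.form p.1 p.2 p.2 :=
    ((g.continuous_form.comp continuous_fst).clm_apply continuous_snd).clm_apply continuous_snd
  have hS : IsCompact (K ×ˢ sphere (0 : E n) 1) := hK.prod (isCompact_sphere _ _)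
  have hpos : ∀ p ∈ K ×ˢ sphere (0 : E n) 1, 0 < g.form p.1 p.2 p.2 := by
    intro p hp
    refine g.pos _ _ ?_
    intro h0
    have := hp.2
    rw [h0] at this
    simp at this
  obtain ⟨m, hm0, hm⟩ := hS.exists_forall_le' hF.continuousOn hpos
  obtain ⟨M, hM⟩ := hS.exists_bound_of_continuousOn hF.continuousOn
  refine ⟨√m, Real.sqrt_pos.2 hm0, √(max M 1), Real.sqrt_pos.2 (by positivity), ?_⟩
  intro x hx v
  rw [Real.sq_sqrt hm0.le, Real.sq_sqrt (by positivity)]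
  by_cases hv : v = 0
  · subst hv
    simp
  have hv' : 0 < ‖v‖ := norm_pos_iff.2 hv
  have hmem : (x, ‖v‖⁻¹ • v) ∈ K ×ˢ sphere (0 : E n) 1 := by
    refine ⟨hx, ?_⟩
    simp [norm_smul, hv'.ne']
  have e1 : g.form x v v = ‖v‖ ^ 2 * g.form x (‖v‖⁻¹ • v) (‖v‖⁻¹ • v) := by
    simp only [map_smul, FunLike.coe_smul, Pi.smul_apply, smul_eq_mul]
    field_simp
  have h1 := hm _ hmem
  have h2 := (le_abs_self _).trans (hM _ hmem)
  simp only at h1 h2
  rw [e1]
  constructor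
  · nlinarith [sq_nonneg ‖v‖]
  · have : g.form x (‖v‖⁻¹ • v) (‖v‖⁻¹ • v) ≤ max M 1 := h2.trans (le_max_left _ _)
    nlinarith [sq_nonneg ‖v‖]

theorem dist_le_of_convex {K : Set (E n)} (hK : IsCompact K) (hconv : Convex ℝ K) :
    ∃ C₀ > (0:ℝ), ∀ x ∈ K, ∀ y ∈ K, g.dist x y ≤ C₀ * ‖x - y‖ := by
  obtain ⟨c₀, -, C₀, hC₀, h⟩ := g.exists_form_bounds hK
  refine ⟨C₀, hC₀, fun x hx y hy => ?_⟩
  have hcd : ContDiff ℝ 1 fun t : ℝ => x + t • (y - x) :=
    contDiff_const.add (contDiff_id.smul contDiff_const)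
  have hder : ∀ t : ℝ, deriv (fun t : ℝ => x + t • (y - x)) t = y - x := by
    intro t
    have : HasDerivAt (fun t : ℝ => x + t • (y - x)) ((1 : ℝ) • (y - x)) t :=
      ((hasDerivAt_id t).smul_const (y - x)).const_add x
    rw [this.deriv, one_smul]
  refine (g.dist_le_length hcd (by simp) (by simp)).trans ?_
  have hb : ∀ t ∈ Icc (0 : ℝ) 1, g.speed (fun t : ℝ => x + t • (y - x)) t ≤ C₀ * ‖x - y‖ := by
    intro t ht
    have hmem : x + t • (y - x) ∈ K := by
      have := hconv hx hy (sub_nonneg.2 ht.2) ht.1 (by ring)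
      have e : (1 - t) • x + t • y = x + t • (y - x) := by
        rw [sub_smul, one_smul, smul_sub]
        abel
      rwa [e] at this
    unfold speed
    rw [hder t]
    refine Real.sqrt_le_iff.2 ⟨by positivity, ?_⟩
    have := (h _ hmem (y - x)).2
    rw [norm_sub_rev x y]
    calc _ ≤ _ := this
      _ = _ := by ring
  calc g.length (fun t : ℝ => x + t • (y - x))
      ≤ ∫ t in (0:ℝ)..1, C₀ * ‖x - y‖ := by
        refine intervalIntegral.integral_mono_on (by norm_num)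
          ((g.continuous_speed hcd).intervalIntegrable _ _) (by simp) hb
    _ = C₀ * ‖x - y‖ := by simp

/-- a `C¹` curve starting in `K` of length `< c₀` stays near its starting point -/
theorem exists_curve_bound {K : Set (E n)} (hK : IsCompact K) :
    ∃ c₀ > (0:ℝ), ∀ c : ℝ → E n, ContDiff ℝ 1 c → c 0 ∈ K → ∀ t ∈ Icc (0:ℝ) 1,
      c₀ * min ‖c t - c 0‖ 1 ≤ g.length c := by
  have hK1 : IsCompact (cthickening 1 K) := hK.cthickening
  obtain ⟨c₀, hc₀, C₀, -, hb⟩ := g.exists_form_bounds hK1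
  refine ⟨c₀, hc₀, fun c hc h0 t ht => ?_⟩
  set δ : ℝ := min ‖c t - c 0‖ 1 with hδ
  have hcc : Continuous c := hc.continuous
  set A : Set ℝ := Icc 0 t ∩ {s | δ ≤ ‖c s - c 0‖} with hA
  have hAc : IsCompact A := isCompact_Icc.inter_right
    (isClosed_le continuous_const ((hcc.sub continuous_const).norm))
  have hAne : A.Nonempty := by
    refine ⟨t, ⟨ht.1, le_rfl⟩, ?_⟩
    rw [mem_ofPred_eq, hδ]
    exact min_le_left _ _
  obtain ⟨T, hT, hTmin⟩ := hAc.exists_isLeast hAne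
  have hT0 : 0 ≤ T := hT.1.1
  have hT1 : T ≤ 1 := hT.1.2.trans ht.2
  have hin : ∀ s ∈ Ioo (0:ℝ) T, c s ∈ cthickening 1 K := by
    intro s hs
    have hlt : ‖c s - c 0‖ < δ := by
      by_contra hcon
      have : s ∈ A := ⟨⟨hs.1.le, hs.2.le.trans hT.1.2⟩, not_lt.1 hcon⟩
      exact absurd (hTmin this) (not_le.2 hs.2)
    refine mem_cthickening_of_dist_le _ _ _ _ h0 ?_
    rw [dist_eq_norm]
    exact hlt.le.trans (min_le_right _ _)
  have hdc : Continuous (deriv c) := hc.continuous_deriv (by norm_num)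
  have hsp : ∀ s ∈ Ioo (0:ℝ) T, c₀ * ‖deriv c s‖ ≤ g.speed c s := by
    intro s hs
    unfold speed
    refine Real.le_sqrt_of_sq_le ?_
    have := (hb _ (hin s hs) (deriv c s)).1
    calc _ = _ := by ring
      _ ≤ _ := this
  have hcs := g.continuous_speed hc
  have i1 : ∫ s in (0:ℝ)..T, c₀ * ‖deriv c s‖ ≤ ∫ s in (0:ℝ)..T, g.speed c s :=
    intervalIntegral.integral_mono_on_of_le_Ioo hT0
      ((continuous_const.mul hdc.norm).intervalIntegrable _ _) (hcs.intervalIntegrable _ _) hsp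
  have i2 : ∫ s in (0:ℝ)..T, g.speed c s ≤ g.length c := by
    unfold length
    rw [← intervalIntegral.integral_add_adjacent_intervals (hcs.intervalIntegrable 0 T)
      (hcs.intervalIntegrable T 1)]
    have : 0 ≤ ∫ s in T..1, g.speed c s :=
      intervalIntegral.integral_nonneg hT1 fun s _ => g.speed_nonneg c s
    linarith
  have i3 : ∫ s in (0:ℝ)..T, deriv c s = c T - c 0 := by
    refine intervalIntegral.integral_deriv_eq_sub (fun x _ => hc.differentiable (by norm_num) x)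
      (hdc.intervalIntegrable _ _)
  have i4 : ‖c T - c 0‖ ≤ ∫ s in (0:ℝ)..T, ‖deriv c s‖ := by
    rw [← i3]
    exact intervalIntegral.norm_integral_le_integral_norm hT0
  rw [intervalIntegral.integral_const_mul] at i1
  have i5 : δ ≤ ‖c T - c 0‖ := hT.2
  calc c₀ * δ ≤ c₀ * ∫ s in (0:ℝ)..T, ‖deriv c s‖ :=
        mul_le_mul_of_nonneg_left (i5.trans i4) hc₀.le
    _ ≤ g.length c := i1.trans i2

theorem le_dist {K : Set (E n)} (hK : IsCompact K) :
    ∃ c₀ > (0:ℝ), ∀ x ∈ K, ∀ y : E n, c₀ * min ‖x - y‖ 1 ≤ g.dist x y := by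
  obtain ⟨c₀, hc₀, h⟩ := g.exists_curve_bound hK
  refine ⟨c₀, hc₀, fun x hx y => le_of_forall_pos_le_add fun ε hε => ?_⟩
  obtain ⟨c, hc, h0, h1, hl⟩ := g.exists_curve_lt x y hε
  have := h c hc (by rw [h0]; exact hx) 1 ⟨by norm_num, le_rfl⟩
  rw [h0, h1, norm_sub_rev] at this
  linarith

theorem eq_of_dist_eq_zero {x y : E n} (h : g.dist x y = 0) : x = y := by
  obtain ⟨c₀, hc₀, hb⟩ := g.le_dist (isCompact_singleton (x := x))
  have h1 := hb x rfl y
  rw [h] at h1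
  have h2 : min ‖x - y‖ 1 ≤ 0 := by
    by_contra hcon
    have := mul_pos hc₀ (not_le.1 hcon)
    linarith
  have h3 : ‖x - y‖ ≤ 0 := by
    rcases min_le_iff.1 h2 with h3 | h3
    · exact h3
    · norm_num at h3
  exact sub_eq_zero.1 (norm_le_zero_iff.1 h3)

end RMetric

end Pool.Agent.NCP
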