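import Pool.Agent.NCP.RLen

/-! # MP_23cc9a_gt, module NCP/RCat: concatenation of curves, triangle inequality

Concatenation: for `C¹` curves `c₁` (from `x` to `y`), `c₂` (from `y` to `z`) use the `C¹` curve
`c t = c₁ (σ (2 t)) + c₂ (σ (2 t - 1)) - y` with `σ = Real.smoothTransition` (`σ = 0` on `(-∞, 0]`,
`σ = 1` on `[1, ∞)`, monotone): it equals `c₁ (σ (2 t))` for `t ≤ 1/2` and `c₂ (σ (2 t - 1))` for
`t ≥ 1/2`; lengths by substitution (`intervalIntegral.integral_comp_mul_deriv'` or similar;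
`speed (c ∘ τ) t = speed c (τ t) * |τ' t|`). -/

open Set Filter Topology
open scoped ContDiff

namespace Pool.Agent.NCP

namespace RMetric

variable {n : ℕ} (g : RMetric n)

/-- lengths of reparametrised pieces -/
theorem integral_speed_comp {c : ℝ → E n} (hc : ContDiff ℝ 1 c) {τ : ℝ → ℝ}
    (hτ : ContDiff ℝ 1 τ) (hm : Monotone τ) (a b : ℝ) :
    ∫ t in a..b, g.speed (fun s => c (τ s)) t = ∫ t in (τ a)..(τ b), g.speed c t := by
  have h1 : ∀ t, g.speed (fun s => c (τ s)) t = (g.speed c ∘ τ) t * deriv τ t := by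
    intro t
    rw [g.speed_comp hc hτ t, abs_of_nonneg (hm.deriv_nonneg), Function.comp]
  simp_rw [h1]
  refine intervalIntegral.integral_comp_mul_deriv (f := τ) (f' := deriv τ) ?_ ?_ ?_
  · intro x _
    exact (hτ.differentiable (by norm_num) x).hasDerivAt
  · exact (hτ.continuous_deriv (by norm_num)).continuousOn
  · exact g.continuous_speed hc

theorem exists_concat {c₁ c₂ : ℝ → E n} (h₁ : ContDiff ℝ 1 c₁) (h₂ : ContDiff ℝ 1 c₂)
    (h : c₁ 1 = c₂ 0) :
    ∃ c : ℝ → E n, ContDiff ℝ 1 c ∧ c 0 = c₁ 0 ∧ c 1 = c₂ 1 ∧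
      g.length c = g.length c₁ + g.length c₂ := by
  classical
  set τ₁ : ℝ → ℝ := fun t => Real.smoothTransition (2 * t) with hτ₁
  set τ₂ : ℝ → ℝ := fun t => Real.smoothTransition (2 * t - 1) with hτ₂
  have hc₁ : ContDiff ℝ 1 τ₁ := by
    have : ContDiff ℝ 1 (fun t : ℝ => 2 * t) := by fun_prop
    exact Real.smoothTransition.contDiff.comp this
  have hc₂ : ContDiff ℝ 1 τ₂ := by
    have : ContDiff ℝ 1 (fun t : ℝ => 2 * t - 1) := by fun_prop
    exact Real.smoothTransition.contDiff.comp this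
  have hm₁ : Monotone τ₁ := fun a b hab =>
    Real.smoothTransition.monotone (by linarith)
  have hm₂ : Monotone τ₂ := fun a b hab =>
    Real.smoothTransition.monotone (by linarith)
  have hz₂ : ∀ t : ℝ, t ≤ 1 / 2 → τ₂ t = 0 := fun t ht =>
    Real.smoothTransition.zero_of_nonpos (by linarith)
  have ho₁ : ∀ t : ℝ, 1 / 2 ≤ t → τ₁ t = 1 := fun t ht =>
    Real.smoothTransition.one_of_one_le (by linarith)
  have hz₁ : τ₁ 0 = 0 := Real.smoothTransition.zero_of_nonpos (by norm_num)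
  have ho₂ : τ₂ 1 = 1 := Real.smoothTransition.one_of_one_le (by norm_num)
  set c : ℝ → E n := fun t => c₁ (τ₁ t) + c₂ (τ₂ t) - c₂ 0 with hc
  have hcd : ContDiff ℝ 1 c :=
    ((h₁.comp hc₁).add (h₂.comp hc₂)).sub contDiff_const
  have hL : ∀ t : ℝ, t ≤ 1 / 2 → c t = c₁ (τ₁ t) := by
    intro t ht
    simp only [hc, hz₂ t ht, add_sub_cancel_right]
  have hR : ∀ t : ℝ, 1 / 2 ≤ t → c t = c₂ (τ₂ t) := by
    intro t ht
    simp only [hc, ho₁ t ht, h, add_sub_cancel_left]
  have hsL : ∀ t ∈ Ioo (0 : ℝ) (1 / 2), g.speed c t = g.speed (fun s => c₁ (τ₁ s)) t := by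
    intro t ht
    have hev : c =ᶠ[𝓝 t] fun s => c₁ (τ₁ s) := by
      filter_upwards [Iio_mem_nhds ht.2] with s hs
      exact hL s (le_of_lt hs)
    unfold speed
    rw [hev.deriv_eq, hL t ht.2.le]
  have hsR : ∀ t ∈ Ioo (1 / 2 : ℝ) 1, g.speed c t = g.speed (fun s => c₂ (τ₂ s)) t := by
    intro t ht
    have hev : c =ᶠ[𝓝 t] fun s => c₂ (τ₂ s) := by
      filter_upwards [Ioi_mem_nhds ht.1] with s hs
      exact hR s (le_of_lt hs)
    unfold speed
    rw [hev.deriv_eq, hR t ht.1.le]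
  refine ⟨c, hcd, ?_, ?_, ?_⟩
  · rw [hL 0 (by norm_num), hz₁]
  · rw [hR 1 (by norm_num), ho₂]
  · have hci : ∀ a b : ℝ, IntervalIntegrable (g.speed c) MeasureTheory.volume a b :=
      fun a b => (g.continuous_speed hcd).intervalIntegrable a b
    unfold length
    rw [← intervalIntegral.integral_add_adjacent_intervals (hci 0 (1 / 2)) (hci (1 / 2) 1)]
    congr 1
    · have e1 : ∫ t in (0:ℝ)..(1/2), g.speed c t
          = ∫ t in (0:ℝ)..(1/2), g.speed (fun s => c₁ (τ₁ s)) t := by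
        rw [intervalIntegral.integral_of_le (by norm_num), intervalIntegral.integral_of_le
          (by norm_num), MeasureTheory.integral_Ioc_eq_integral_Ioo,
          MeasureTheory.integral_Ioc_eq_integral_Ioo]
        exact MeasureTheory.setIntegral_congr_fun measurableSet_Ioo hsL
      rw [e1, g.integral_speed_comp h₁ hc₁ hm₁, hz₁, ho₁ (1/2) le_rfl]
    · have e1 : ∫ t in (1/2:ℝ)..1, g.speed c t
          = ∫ t in (1/2:ℝ)..1, g.speed (fun s => c₂ (τ₂ s)) t := by
        rw [intervalIntegral.integral_of_le (by norm_num), intervalIntegral.integral_of_le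
          (by norm_num), MeasureTheory.integral_Ioc_eq_integral_Ioo,
          MeasureTheory.integral_Ioc_eq_integral_Ioo]
        exact MeasureTheory.setIntegral_congr_fun measurableSet_Ioo hsR
      rw [e1, g.integral_speed_comp h₂ hc₂ hm₂, hz₂ (1/2) le_rfl, ho₂]

theorem dist_triangle (x y z : E n) : g.dist x z ≤ g.dist x y + g.dist y z := by
  refine le_of_forall_pos_le_add fun ε hε => ?_
  obtain ⟨c₁, h₁, h₁0, h₁1, hl₁⟩ := g.exists_curve_lt x y (half_pos hε)
  obtain ⟨c₂, h₂, h₂0, h₂1, hl₂⟩ := g.exists_curve_lt y z (half_pos hε)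
  obtain ⟨c, hc, hc0, hc1, hl⟩ := g.exists_concat h₁ h₂ (h₁1.trans h₂0.symm)
  have := g.dist_le_length hc (hc0.trans h₁0) (hc1.trans h₂1)
  linarith

end RMetric

end Pool.Agent.NCP
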