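import Mathlib

/-! # MP_23cc9a_gt: smooth Riemannian metrics on `ℝⁿ`, distance, geodesics (definitions) -/

open Set Filter Topology
open scoped ContDiff

namespace Pool.Agent.NCP

/-- `ℝⁿ` -/
abbrev E (n : ℕ) : Type := EuclideanSpace ℝ (Fin n)

/-- A smooth Riemannian metric on `ℝⁿ`. -/
structure RMetric (n : ℕ) where
  /-- the inner product at a point -/
  form : E n → E n →L[ℝ] E n →L[ℝ] ℝ
  smooth : ContDiff ℝ ∞ form
  symm : ∀ x v w, form x v w = form x w v
  pos : ∀ x v, v ≠ 0 → 0 < form x v v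

namespace RMetric

variable {n : ℕ}

/-- speed of a curve -/
noncomputable def speed (g : RMetric n) (c : ℝ → E n) (t : ℝ) : ℝ :=
  √(g.form (c t) (deriv c t) (deriv c t))

/-- length of a curve between the parameters `0` and `1` -/
noncomputable def length (g : RMetric n) (c : ℝ → E n) : ℝ :=
  ∫ t in (0 : ℝ)..1, g.speed c t

/-- Riemannian distance: infimum of the lengths of `C¹` curves from `x` to `y` -/
noncomputable def dist (g : RMetric n) (x y : E n) : ℝ :=
  sInf {L : ℝ | ∃ c : ℝ → E n, ContDiff ℝ 1 c ∧ c 0 = x ∧ c 1 = y ∧ L = g.length c}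

/-- `c` is a (complete) geodesic of constant speed `v` : locally distance minimising -/
def IsGeodesic (g : RMetric n) (c : ℝ → E n) (v : ℝ) : Prop :=
  0 ≤ v ∧ ∀ t : ℝ, ∃ ε > 0, ∀ s ∈ Ioo (t - ε) (t + ε), ∀ s' ∈ Ioo (t - ε) (t + ε),
    g.dist (c s) (c s') = v * |s - s'|

/-- No conjugate points (for a complete metric on the simply connected manifold `ℝⁿ`): every
geodesic is minimising, and any two distinct points are joined by exactly one geodesic. -/
structure NoConjugatePoints (g : RMetric n) : Prop where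
  minimising : ∀ (c : ℝ → E n) (v : ℝ), g.IsGeodesic c v →
    ∀ s t, g.dist (c s) (c t) = v * |s - t|
  unique : ∀ p q : E n, p ≠ q → ∃! c : ℝ → E n, (∃ v, g.IsGeodesic c v) ∧ c 0 = p ∧ c 1 = q

/-- `ρ` is a free, properly discontinuous, cocompact action of `Γ` by isometries of `g` (the deck
transformation action of the fundamental group of a closed Riemannian manifold with universal
covering `(ℝⁿ, g)`). -/
structure IsDeckAction (g : RMetric n) {Γ : Type*} [Group Γ] (ρ : Γ →* Equiv.Perm (E n)) :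
    Prop where
  isometric : ∀ (γ : Γ) (x y : E n), g.dist (ρ γ x) (ρ γ y) = g.dist x y
  free : ∀ (γ : Γ) (x : E n), ρ γ x = x → γ = 1
  disc : ∀ K : Set (E n), IsCompact K → {γ : Γ | ∃ x ∈ K, ρ γ x ∈ K}.Finite
  cocompact : ∃ K : Set (E n), IsCompact K ∧ ∀ x, ∃ γ : Γ, ρ γ x ∈ K

end RMetric

end Pool.Agent.NCP
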