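import Pool.Agent.NCP.RDefs

/-! # MP_23cc9a_gt, module NCP/RLen: length and distance, elementary properties

-/

open Set Filter Topology
open scoped ContDiff

namespace Pool.Agent.NCP

namespace RMetric

variable {n : ℕ} (g : RMetric n)

theorem form_nonneg (x v : E n) : 0 ≤ g.form x v v := by
  by_cases hv : v = 0
  · subst hv
    simp
  · exact (g.pos x v hv).le

theorem continuous_form : Continuous g.form := g.smooth.continuous

theorem continuous_speed {c : ℝ → E n} (hc : ContDiff ℝ 1 c) : Continuous (g.speed c) := by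
  have h1 : Continuous c := hc.continuous
  have h2 : Continuous (deriv c) := hc.continuous_deriv (by norm_num)
  have h3 : Continuous fun t => g.form (c t) := g.continuous_form.comp h1
  have h4 : Continuous fun t => g.form (c t) (deriv c t) (deriv c t) :=
    (h3.clm_apply h2).clm_apply h2
  exact Real.continuous_sqrt.comp h4

theorem speed_nonneg (c : ℝ → E n) (t : ℝ) : 0 ≤ g.speed c t := Real.sqrt_nonneg _

theorem length_nonneg (c : ℝ → E n) : 0 ≤ g.length c :=
  intervalIntegral.integral_nonneg (by norm_num) fun t _ => g.speed_nonneg c t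

theorem dist_nonneg (x y : E n) : 0 ≤ g.dist x y := by
  refine Real.sInf_nonneg ?_
  rintro L ⟨c, -, -, -, rfl⟩
  exact g.length_nonneg c

theorem dist_le_length {c : ℝ → E n} (hc : ContDiff ℝ 1 c) {x y : E n} (h0 : c 0 = x)
    (h1 : c 1 = y) : g.dist x y ≤ g.length c := by
  refine csInf_le ⟨0, ?_⟩ ⟨c, hc, h0, h1, rfl⟩
  rintro L ⟨c, -, -, -, rfl⟩
  exact g.length_nonneg c

theorem exists_curve_lt (x y : E n) {ε : ℝ} (hε : 0 < ε) :
    ∃ c : ℝ → E n, ContDiff ℝ 1 c ∧ c 0 = x ∧ c 1 = y ∧ g.length c < g.dist x y + ε := by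
  have hne : {L : ℝ | ∃ c : ℝ → E n, ContDiff ℝ 1 c ∧ c 0 = x ∧ c 1 = y ∧
      L = g.length c}.Nonempty := by
    refine ⟨_, fun t => x + t • (y - x), ?_, ?_, ?_, rfl⟩
    · exact contDiff_const.add (contDiff_id.smul contDiff_const)
    · simp
    · simp
  obtain ⟨L, ⟨c, hc, h0, h1, rfl⟩, hL⟩ := Real.lt_sInf_add_pos hne hε
  exact ⟨c, hc, h0, h1, hL⟩

theorem dist_self (x : E n) : g.dist x x = 0 := by
  refine le_antisymm ?_ (g.dist_nonneg x x)
  have h : g.length (fun _ : ℝ => x) = 0 := by
    simp [length, speed]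
  rw [← h]
  exact g.dist_le_length contDiff_const rfl rfl

theorem speed_comp {c : ℝ → E n} (hc : ContDiff ℝ 1 c) {τ : ℝ → ℝ} (hτ : ContDiff ℝ 1 τ)
    (t : ℝ) : g.speed (fun s => c (τ s)) t = g.speed c (τ t) * |deriv τ t| := by
  have h1 : HasDerivAt c (deriv c (τ t)) (τ t) :=
    (hc.differentiable (by norm_num) _).hasDerivAt
  have h2 : HasDerivAt τ (deriv τ t) t := (hτ.differentiable (by norm_num) _).hasDerivAt
  have h3 : deriv (fun s => c (τ s)) t = deriv τ t • deriv c (τ t) :=
    (h1.scomp t h2).deriv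
  unfold speed
  rw [h3]
  simp only [map_smul, FunLike.coe_smul, Pi.smul_apply, smul_eq_mul]
  rw [← mul_assoc, Real.sqrt_mul (mul_self_nonneg _), Real.sqrt_mul_self_eq_abs, mul_comm]

theorem dist_comm_le (x y : E n) : g.dist x y ≤ g.dist y x := by
  refine le_of_forall_pos_le_add fun ε hε => ?_
  obtain ⟨c, hc, h0, h1, hl⟩ := g.exists_curve_lt y x hε
  have hτ : ContDiff ℝ 1 (fun t : ℝ => 1 - t) := by fun_prop
  have hd : ∀ t : ℝ, deriv (fun t : ℝ => 1 - t) t = -1 := by
    intro t
    simp
  have hlen : g.length (fun s => c (1 - s)) = g.length c := by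
    unfold length
    have : ∀ t, g.speed (fun s => c (1 - s)) t = g.speed c (1 - t) := by
      intro t
      rw [g.speed_comp hc hτ t, hd t]
      simp
    simp_rw [this]
    rw [intervalIntegral.integral_comp_sub_left (fun t => g.speed c t) 1]
    simp
  have h2 : g.dist x y ≤ g.length (fun s => c (1 - s)) :=
    g.dist_le_length (hc.comp hτ) (by simpa using h1) (by simpa using h0)
  linarith

theorem dist_comm (x y : E n) : g.dist x y = g.dist y x :=
  le_antisymm (g.dist_comm_le x y) (g.dist_comm_le y x)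

end RMetric

end Pool.Agent.NCP
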