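import Pool.Agent.NCP.RTay

/-! # MP_23cc9a_gt, module NCP/RPt: the pointwise second variation estimate

PROOF. `B_y = g.form y`, `η = φ • ξ`, `ζ = φ' • ξ`, `v = √(B_x w w)`, `c₀² ‖w‖² ≤ v²`
(`exists_form_bounds`), `‖ζ‖ ≤ (v / L) ‖ξ‖`. With `a = B_{x+η}(w+ζ, w+ζ)`, `b = B_{x-η}(w-ζ, w-ζ)`,
`a + b = B_{x+η}(w,w) + B_{x-η}(w,w) + 2 (B_{x+η}(w,ζ) - B_{x-η}(w,ζ)) + B_{x+η}(ζ,ζ) + B_{x-η}(ζ,ζ)`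
(use `g.symm`) `≤ 2 v² + M₂ ‖η‖² ‖w‖² + 2 M₁ ‖η‖ ‖w‖ ‖ζ‖ + 2 M₀ ‖ζ‖² ≤ 2 v² (1 + κ ‖ξ‖²)`,
`κ = (M₂/c₀² + 2 M₁/(c₀ l₁) + 2 M₀/l₁²)/2`, and `√a + √b ≤ √(2 (a + b)) ≤ 2 v √(1 + κ ‖ξ‖²)`
`≤ v (2 + κ ‖ξ‖²)`. -/

open Set Filter Topology Metric
open scoped ContDiff

namespace Pool.Agent.NCP

namespace RMetric

variable {n : ℕ} (g : RMetric n)

/-- bound of a bilinear form -/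
lemma form_le (B : E n →L[ℝ] E n →L[ℝ] ℝ) (u w : E n) : B u w ≤ ‖B‖ * ‖u‖ * ‖w‖ :=
  (le_abs_self _).trans (B.le_opNorm₂ u w)

/-- the sum of the two squares -/
lemma sum_sq_le {Bp Bm B : E n →L[ℝ] E n →L[ℝ] ℝ} (hp : ∀ v w, Bp v w = Bp w v)
    (hm : ∀ v w, Bm v w = Bm w v) {M₀ M₁ M₂ e : ℝ} (h0 : ‖Bp‖ ≤ M₀) (h0' : ‖Bm‖ ≤ M₀)
    (h1 : ‖Bp - Bm‖ ≤ M₁ * e) (h2 : ‖Bp + Bm - 2 • B‖ ≤ M₂ * e ^ 2) (w ζ : E n) :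
    Bp (w + ζ) (w + ζ) + Bm (w - ζ) (w - ζ) ≤
      2 * B w w + M₂ * e ^ 2 * ‖w‖ ^ 2 + 2 * (M₁ * e * ‖w‖ * ‖ζ‖) + 2 * (M₀ * ‖ζ‖ ^ 2) := by
  have e1 : Bp (w + ζ) (w + ζ) = Bp w w + 2 * Bp w ζ + Bp ζ ζ := by
    simp only [map_add, add_apply]
    rw [hp ζ w]; ring
  have e2 : Bm (w - ζ) (w - ζ) = Bm w w - 2 * Bm w ζ + Bm ζ ζ := by
    simp only [map_sub, sub_apply]
    rw [hm ζ w]; ring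
  have f1 := form_le (Bp - Bm) w ζ
  have f2 := form_le (Bp + Bm - 2 • B) w w
  have f3 := form_le Bp ζ ζ
  have f4 := form_le Bm ζ ζ
  have g1 : (Bp - Bm) w ζ = Bp w ζ - Bm w ζ := rfl
  have g2 : (Bp + Bm - 2 • B) w w = Bp w w + Bm w w - 2 * B w w := by
    simp [two_smul, two_mul]
  rw [g1] at f1
  rw [g2] at f2
  have k1 : ‖Bp - Bm‖ * ‖w‖ * ‖ζ‖ ≤ M₁ * e * ‖w‖ * ‖ζ‖ := by gcongr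
  have k2 : ‖Bp + Bm - 2 • B‖ * ‖w‖ * ‖w‖ ≤ M₂ * e ^ 2 * ‖w‖ * ‖w‖ := by gcongr
  have k3 : ‖Bp‖ * ‖ζ‖ * ‖ζ‖ ≤ M₀ * ‖ζ‖ * ‖ζ‖ := by gcongr
  have k4 : ‖Bm‖ * ‖ζ‖ * ‖ζ‖ ≤ M₀ * ‖ζ‖ * ‖ζ‖ := by gcongr
  rw [e1, e2]
  nlinarith

/-- pointwise estimate -/
theorem exists_pointwise {K : Set (E n)} (hK : IsCompact K) {l₁ : ℝ} (hl₁ : 0 < l₁) :
    ∃ C ≥ (0:ℝ), ∀ x ∈ K, ∀ L : ℝ, l₁ ≤ L → ∀ (w ξ : E n) (φ φ' : ℝ), ‖ξ‖ ≤ 1 → |φ| ≤ 1 →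
      |φ'| * L = √(g.form x w w) →
      √(g.form (x + φ • ξ) (w + φ' • ξ) (w + φ' • ξ)) +
        √(g.form (x - φ • ξ) (w - φ' • ξ) (w - φ' • ξ)) ≤
      √(g.form x w w) * (2 + C * ‖ξ‖ ^ 2) := by
  obtain ⟨c₀, hc₀, C₀, hC₀, hb⟩ := g.exists_form_bounds hK
  obtain ⟨M₀, hM₀, M₁, hM₁, M₂, hM₂, ht⟩ := g.exists_taylor hK
  set κ : ℝ := (M₂ / c₀ ^ 2 + 2 * M₁ / (c₀ * l₁) + 2 * M₀ / l₁ ^ 2) / 2 with hκ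
  have hκ0 : 0 ≤ κ := by positivity
  refine ⟨κ, hκ0, ?_⟩
  intro x hx L hL w ξ φ φ' hξ hφ hφ'
  set v : ℝ := √(g.form x w w) with hv
  have hv0 : 0 ≤ v := Real.sqrt_nonneg _
  have hvsq : v ^ 2 = g.form x w w := Real.sq_sqrt (g.form_nonneg x w)
  have hw : ‖w‖ ≤ v / c₀ := by
    rw [le_div_iff₀ hc₀]
    apply le_of_sq_le_sq _ hv0
    rw [hvsq]
    calc (‖w‖ * c₀) ^ 2 = c₀ ^ 2 * ‖w‖ ^ 2 := by ring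
      _ ≤ _ := (hb x hx w).1
  have hφ'2 : |φ'| ≤ v / l₁ := by
    rw [le_div_iff₀ hl₁, ← hφ']
    exact mul_le_mul_of_nonneg_left hL (abs_nonneg _)
  have hη : ‖φ • ξ‖ ≤ ‖ξ‖ := by
    rw [norm_smul, Real.norm_eq_abs]
    exact mul_le_of_le_one_left (norm_nonneg _) hφ
  have hη1 : ‖φ • ξ‖ ≤ 1 := hη.trans hξ
  have hζ : ‖φ' • ξ‖ ≤ v / l₁ * ‖ξ‖ := by
    rw [norm_smul, Real.norm_eq_abs]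
    gcongr
  obtain ⟨t0, t1, t2⟩ := ht x hx (φ • ξ) hη1
  have t0' := (ht x hx (-(φ • ξ)) (by rwa [norm_neg])).1
  rw [← sub_eq_add_neg] at t0'
  have key := sum_sq_le (g.symm (x + φ • ξ)) (g.symm (x - φ • ξ)) t0 t0' t1 t2 w (φ' • ξ)
  set a := g.form (x + φ • ξ) (w + φ' • ξ) (w + φ' • ξ) with ha
  set b := g.form (x - φ • ξ) (w - φ' • ξ) (w - φ' • ξ) with hb'
  have ha0 : 0 ≤ a := g.form_nonneg _ _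
  have hb0 : 0 ≤ b := g.form_nonneg _ _
  have hab : a + b ≤ 2 * v ^ 2 * (1 + κ * ‖ξ‖ ^ 2) := by
    have b1 : M₂ * ‖φ • ξ‖ ^ 2 * ‖w‖ ^ 2 ≤ M₂ * ‖ξ‖ ^ 2 * (v / c₀) ^ 2 := by gcongr
    have b2 : M₁ * ‖φ • ξ‖ * ‖w‖ * ‖φ' • ξ‖ ≤ M₁ * ‖ξ‖ * (v / c₀) * (v / l₁ * ‖ξ‖) := by gcongr
    have b3 : M₀ * ‖φ' • ξ‖ ^ 2 ≤ M₀ * (v / l₁ * ‖ξ‖) ^ 2 := by gcongr
    have e : 2 * v ^ 2 * (1 + κ * ‖ξ‖ ^ 2) = 2 * v ^ 2 + M₂ * ‖ξ‖ ^ 2 * (v / c₀) ^ 2 +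
        2 * (M₁ * ‖ξ‖ * (v / c₀) * (v / l₁ * ‖ξ‖)) + 2 * (M₀ * (v / l₁ * ‖ξ‖) ^ 2) := by
      rw [hκ]
      field_simp
      ring
    rw [e, hvsq]
    linarith
  apply le_of_sq_le_sq _ (by positivity)
  have s1 : √a ^ 2 = a := Real.sq_sqrt ha0
  have s2 : √b ^ 2 = b := Real.sq_sqrt hb0
  have : (√a + √b) ^ 2 ≤ 2 * (a + b) := by nlinarith [sq_nonneg (√a - √b)]
  refine this.trans ?_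
  calc 2 * (a + b) ≤ 2 * (2 * v ^ 2 * (1 + κ * ‖ξ‖ ^ 2)) := by linarith
    _ ≤ 2 * (2 * v ^ 2 * (1 + κ * ‖ξ‖ ^ 2)) + (v * κ * ‖ξ‖ ^ 2) ^ 2 := by
        linarith [sq_nonneg (v * κ * ‖ξ‖ ^ 2)]
    _ = (v * (2 + κ * ‖ξ‖ ^ 2)) ^ 2 := by ring

end RMetric

end Pool.Agent.NCP
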