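import Pool.Agent.NCP.RBound

/-! # MP_23cc9a_gt, module NCP/RTay: second order difference bounds for the metric

`K₂ = cthickening 1 K` is compact; `M₀, M₁/2, M₂` bounds of `form`, `fderiv form`,
`fderiv (fderiv form)` on `K₂` (mean value inequality on the segment `[x-η, x+η]`,
`Convex.norm_image_sub_le_of_norm_fderiv_le`; the second difference is
`(f (x+η) - f x - Df x η) + (f (x-η) - f x + Df x η)`). -/

open Set Filter Topology Metric
open scoped ContDiff

namespace Pool.Agent.NCP

namespace RMetric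

variable {n : ℕ} (g : RMetric n)

/-- second order difference bounds for a smooth map near a compact set -/
theorem exists_taylor_aux {F : Type*} [NormedAddCommGroup F] [NormedSpace ℝ F] (f : E n → F)
    (hf : ContDiff ℝ ∞ f) {K : Set (E n)} (hK : IsCompact K) :
    ∃ M₀ ≥ (0:ℝ), ∃ M₁ ≥ (0:ℝ), ∃ M₂ ≥ (0:ℝ), ∀ x ∈ K, ∀ η : E n, ‖η‖ ≤ 1 →
      ‖f (x + η)‖ ≤ M₀ ∧ ‖f (x + η) - f (x - η)‖ ≤ M₁ * ‖η‖ ∧
      ‖f (x + η) + f (x - η) - 2 • f x‖ ≤ M₂ * ‖η‖ ^ 2 := by
  have hK2 : IsCompact (cthickening 1 K) := hK.cthickening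
  have hD : ContDiff ℝ ∞ (fderiv ℝ f) := hf.fderiv_right (m := ∞) (by simp)
  have hDD : ContDiff ℝ ∞ (fderiv ℝ (fderiv ℝ f)) := hD.fderiv_right (m := ∞) (by simp)
  obtain ⟨M₀, h0⟩ := hK2.exists_bound_of_continuousOn hf.continuous.continuousOn
  obtain ⟨B₁, h1⟩ := hK2.exists_bound_of_continuousOn hD.continuous.continuousOn
  obtain ⟨B₂, h2⟩ := hK2.exists_bound_of_continuousOn (f := fderiv ℝ (fderiv ℝ f))
    (by exact hDD.continuous.continuousOn)
  have hfd : Differentiable ℝ f := hf.differentiable (by simp)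
  have hDd : Differentiable ℝ (fderiv ℝ f) := hD.differentiable (by simp)
  have hball : ∀ x ∈ K, closedBall x 1 ⊆ cthickening 1 K := fun x hx =>
    closedBall_subset_cthickening hx 1
  refine ⟨max M₀ 0, le_max_right _ _, 2 * max B₁ 0, by positivity, 2 * max B₂ 0, by positivity,
    ?_⟩
  intro x hx η hη
  have hm : ∀ t : ℝ, |t| ≤ 1 → x + t • η ∈ closedBall x 1 := by
    intro t ht
    rw [mem_closedBall, dist_eq_norm, add_sub_cancel_left, norm_smul, Real.norm_eq_abs]
    exact mul_le_one₀ ht (norm_nonneg _) hη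
  have hp : x + η ∈ closedBall x 1 := by simpa using hm 1 (by simp)
  have hq : x - η ∈ closedBall x 1 := by
    have := hm (-1) (by simp)
    rwa [neg_one_smul, ← sub_eq_add_neg] at this
  refine ⟨(h0 _ (hball x hx hp)).trans (le_max_left _ _), ?_, ?_⟩
  · have := (convex_closedBall x 1).norm_image_sub_le_of_norm_fderiv_le (f := f) (C := max B₁ 0)
      (fun y _ => hfd y) (fun y hy => (h1 y (hball x hx hy)).trans (le_max_left _ _)) hq hp
    refine this.trans (le_of_eq ?_)
    have : x + η - (x - η) = (2:ℝ) • η := by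
      rw [two_smul]; abel
    rw [this, norm_smul, Real.norm_eq_abs, abs_two]
    ring
  · -- `h t = f (x + t η) + f (x - t η)`
    set h : ℝ → F := fun t => f (x + t • η) + f (x - t • η) with hh
    have hd : ∀ t : ℝ, HasDerivAt h (fderiv ℝ f (x + t • η) η - fderiv ℝ f (x - t • η) η) t := by
      intro t
      have e1 : HasDerivAt (fun t : ℝ => x + t • η) η t := by
        simpa using ((hasDerivAt_id t).smul_const η).const_add x
      have e2 : HasDerivAt (fun t : ℝ => x - t • η) (-η) t := by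
        simpa using ((hasDerivAt_id t).smul_const η).const_sub x
      have d1 := (hfd (x + t • η)).hasFDerivAt.comp_hasDerivAt t e1
      have d2 := (hfd (x - t • η)).hasFDerivAt.comp_hasDerivAt t e2
      have := d1.add d2
      rw [map_neg, ← sub_eq_add_neg] at this
      exact this
    have hb : ∀ t ∈ Icc (0:ℝ) 1, ‖deriv h t‖ ≤ 2 * max B₂ 0 * ‖η‖ ^ 2 := by
      intro t ht
      rw [(hd t).deriv]
      have ht1 : |t| ≤ 1 := abs_le.2 ⟨by linarith [ht.1], ht.2⟩
      have a1 : x + t • η ∈ closedBall x 1 := hm t ht1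
      have a2 : x - t • η ∈ closedBall x 1 := by
        have := hm (-t) (by rwa [abs_neg])
        rwa [neg_smul, ← sub_eq_add_neg] at this
      have := (convex_closedBall x 1).norm_image_sub_le_of_norm_fderiv_le (f := fderiv ℝ f)
        (C := max B₂ 0) (fun y _ => hDd y)
        (fun y hy => (h2 y (hball x hx hy)).trans (le_max_left _ _)) a2 a1
      rw [← sub_apply]
      refine (ContinuousLinearMap.le_opNorm _ _).trans ?_
      have e : x + t • η - (x - t • η) = (2 * t) • η := by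
        rw [mul_smul, two_smul]; abel
      rw [e, norm_smul, Real.norm_eq_abs, abs_mul, abs_two] at this
      have hB : 0 ≤ max B₂ 0 := le_max_right _ _
      calc ‖fderiv ℝ f (x + t • η) - fderiv ℝ f (x - t • η)‖ * ‖η‖
          ≤ (max B₂ 0 * (2 * |t| * ‖η‖)) * ‖η‖ := by gcongr
        _ ≤ (max B₂ 0 * (2 * 1 * ‖η‖)) * ‖η‖ := by gcongr
        _ = 2 * max B₂ 0 * ‖η‖ ^ 2 := by ring
    have := (convex_Icc (0:ℝ) 1).norm_image_sub_le_of_norm_deriv_le (f := h)
      (fun t _ => (hd t).differentiableAt) hb (left_mem_Icc.2 zero_le_one)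
      (right_mem_Icc.2 zero_le_one)
    have e : h 1 - h 0 = f (x + η) + f (x - η) - 2 • f x := by
      simp only [hh, one_smul, zero_smul, add_zero, sub_zero, two_smul]
    rw [e] at this
    simpa using this

/-- second order difference bounds for `form` near a compact set -/
theorem exists_taylor {K : Set (E n)} (hK : IsCompact K) :
    ∃ M₀ ≥ (0:ℝ), ∃ M₁ ≥ (0:ℝ), ∃ M₂ ≥ (0:ℝ), ∀ x ∈ K, ∀ η : E n, ‖η‖ ≤ 1 →
      ‖g.form (x + η)‖ ≤ M₀ ∧ ‖g.form (x + η) - g.form (x - η)‖ ≤ M₁ * ‖η‖ ∧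
      ‖g.form (x + η) + g.form (x - η) - 2 • g.form x‖ ≤ M₂ * ‖η‖ ^ 2 :=
  exists_taylor_aux g.form g.smooth hK

end RMetric

end Pool.Agent.NCP
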