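import Pool.Agent.NCP.RPt

/-! # MP_23cc9a_gt, module NCP/RVar: second variation inequality for `C¹` curves

PROOF. `B_x = g.form x`. For `x ∈ K₁` (compact), `‖η‖ ≤ 1`, with `K₂ = cthickening 1 K₁`:
`‖B_{x+η} + B_{x-η} - 2 B_x‖ ≤ M₂ ‖η‖²`, `‖B_{x+η} - B_{x-η}‖ ≤ M₁ ‖η‖`, `‖B_y‖ ≤ M₀` on `K₂`, and
`c₀² ‖w‖² ≤ B_x (w, w)`. With `a = B_{x+η}(w+ζ, w+ζ)`, `b = B_{x-η}(w-ζ, w-ζ)`,
`a + b ≤ 2 B_x(w,w) + M₂ ‖η‖² ‖w‖² + 2 M₁ ‖η‖ ‖w‖ ‖ζ‖ + 2 M₀ ‖ζ‖²`.
For `η = φ t • ξ`, `ζ = φ' t • ξ`, `w = c' t`, `v = speed`, `|φ t| ≤ 1`, `|φ' t| = v / L`: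
`a + b ≤ 2 v² (1 + κ ‖ξ‖²)`, `κ = (M₂/c₀² + 2 M₁/(c₀ L) + 2 M₀/L²)/2`, and
`√a + √b ≤ √(2 (a + b)) ≤ 2 v (1 + κ ‖ξ‖² / 2)`; integrate.
`φ t = 1 - (1/L) ∫_0^t v` is `C¹` (`v` is continuous), `φ 0 = 1`, `φ 1 = 0`. -/

open Set Filter Topology Metric
open scoped ContDiff

namespace Pool.Agent.NCP

namespace RMetric

variable {n : ℕ} (g : RMetric n)

/-- variation of the initial point `c 0` in the directions `± ξ` -/
theorem exists_variation {K : Set (E n)} (hK : IsCompact K) {l₁ : ℝ} (hl₁ : 0 < l₁) :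
    ∃ C ≥ (0:ℝ), ∀ c : ℝ → E n, ContDiff ℝ 1 c → (∀ t ∈ Icc (0:ℝ) 1, c t ∈ K) →
      l₁ ≤ g.length c → ∀ ξ : E n, ‖ξ‖ ≤ 1 →
      g.dist (c 0 + ξ) (c 1) + g.dist (c 0 - ξ) (c 1) ≤
        g.length c * (2 + C * ‖ξ‖ ^ 2) := by
  obtain ⟨C, hC, hP⟩ := g.exists_pointwise hK hl₁
  refine ⟨C, hC, ?_⟩
  intro c hc hcK hlen ξ hξ
  set L : ℝ := g.length c with hL
  have hL0 : 0 < L := lt_of_lt_of_le hl₁ hlen
  have hv : Continuous (g.speed c) := g.continuous_speed hc
  have hvi : ∀ a b : ℝ, IntervalIntegrable (g.speed c) MeasureTheory.volume a b :=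
    fun a b => hv.intervalIntegrable a b
  set I : ℝ → ℝ := fun t => ∫ s in (0:ℝ)..t, g.speed c s with hI
  have hId : ∀ t, HasDerivAt I (g.speed c t) t := fun t =>
    intervalIntegral.integral_hasDerivAt_right (hvi 0 t)
      (hv.stronglyMeasurableAtFilter _ _) hv.continuousAt
  set φ : ℝ → ℝ := fun t => 1 - I t / L with hφ
  have hφd : ∀ t, HasDerivAt φ (-(g.speed c t / L)) t := by
    intro t
    have := ((hId t).div_const L).const_sub 1
    exact this
  have hφc : ContDiff ℝ 1 φ := by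
    rw [contDiff_one_iff_deriv]
    refine ⟨fun t => (hφd t).differentiableAt, ?_⟩
    have : deriv φ = fun t => -(g.speed c t / L) := funext fun t => (hφd t).deriv
    rw [this]
    exact (hv.div_const L).neg
  have hI0 : I 0 = 0 := by simp [hI]
  have hI1 : I 1 = L := rfl
  have hφ0 : φ 0 = 1 := by simp [hφ, hI0]
  have hφ1 : φ 1 = 0 := by simp [hφ, hI1, hL0.ne']
  have hφbd : ∀ t ∈ Icc (0:ℝ) 1, |φ t| ≤ 1 := by
    intro t ht
    have h1 : 0 ≤ I t := intervalIntegral.integral_nonneg ht.1 (fun s _ => g.speed_nonneg c s)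
    have h2 : I t ≤ L := by
      have h3 : I t + ∫ s in t..1, g.speed c s = L :=
        intervalIntegral.integral_add_adjacent_intervals (hvi 0 t) (hvi t 1)
      have h4 : 0 ≤ ∫ s in t..1, g.speed c s :=
        intervalIntegral.integral_nonneg ht.2 (fun s _ => g.speed_nonneg c s)
      linarith
    have h5 : 0 ≤ I t / L := div_nonneg h1 hL0.le
    have h6 : I t / L ≤ 1 := (div_le_one hL0).2 h2
    rw [abs_le]
    constructor
    · simp only [hφ]; linarith
    · simp only [hφ]; linarith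
  have hcd : ∀ t, HasDerivAt c (deriv c t) t := fun t =>
    ((hc.differentiable (by simp)) t).hasDerivAt
  set cp : ℝ → E n := fun t => c t + φ t • ξ with hcp
  set cm : ℝ → E n := fun t => c t - φ t • ξ with hcm
  have hcpc : ContDiff ℝ 1 cp := hc.add (hφc.smul contDiff_const)
  have hcmc : ContDiff ℝ 1 cm := hc.sub (hφc.smul contDiff_const)
  have hcpd : ∀ t, deriv cp t = deriv c t + (-(g.speed c t / L)) • ξ := fun t =>
    ((hcd t).add ((hφd t).smul_const ξ)).deriv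
  have hcmd : ∀ t, deriv cm t = deriv c t - (-(g.speed c t / L)) • ξ := fun t =>
    ((hcd t).sub ((hφd t).smul_const ξ)).deriv
  have h1 : g.dist (c 0 + ξ) (c 1) ≤ g.length cp :=
    g.dist_le_length hcpc (by simp [hcp, hφ0]) (by simp [hcp, hφ1])
  have h2 : g.dist (c 0 - ξ) (c 1) ≤ g.length cm :=
    g.dist_le_length hcmc (by simp [hcm, hφ0]) (by simp [hcm, hφ1])
  have hpi : IntervalIntegrable (g.speed cp) MeasureTheory.volume 0 1 :=
    (g.continuous_speed hcpc).intervalIntegrable _ _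
  have hmi : IntervalIntegrable (g.speed cm) MeasureTheory.volume 0 1 :=
    (g.continuous_speed hcmc).intervalIntegrable _ _
  have h3 : g.length cp + g.length cm ≤ L * (2 + C * ‖ξ‖ ^ 2) := by
    have h4 : g.length cp + g.length cm = ∫ t in (0:ℝ)..1, (g.speed cp t + g.speed cm t) :=
      (intervalIntegral.integral_add hpi hmi).symm
    have h5 : L * (2 + C * ‖ξ‖ ^ 2) = ∫ t in (0:ℝ)..1, g.speed c t * (2 + C * ‖ξ‖ ^ 2) := by
      rw [intervalIntegral.integral_mul_const]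
      rfl
    rw [h4, h5]
    apply intervalIntegral.integral_mono_on zero_le_one (hpi.add hmi)
      ((hvi 0 1).mul_const _)
    intro t ht
    have h6 : g.speed c t = √(g.form (c t) (deriv c t) (deriv c t)) := rfl
    have h7 : g.speed cp t = √(g.form (c t + φ t • ξ)
        (deriv c t + (-(g.speed c t / L)) • ξ) (deriv c t + (-(g.speed c t / L)) • ξ)) := by
      rw [speed, hcpd t]
    have h8 : g.speed cm t = √(g.form (c t - φ t • ξ)
        (deriv c t - (-(g.speed c t / L)) • ξ) (deriv c t - (-(g.speed c t / L)) • ξ)) := by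
      rw [speed, hcmd t]
    rw [h7, h8]
    have h9 := hP (c t) (hcK t ht) L hlen (deriv c t) ξ (φ t) (-(g.speed c t / L)) hξ
      (hφbd t ht) (by
        rw [abs_neg, abs_div, abs_of_nonneg (g.speed_nonneg c t), abs_of_pos hL0,
          div_mul_cancel₀ _ hL0.ne', h6])
    rw [← h6] at h9
    exact h9
  linarith

end RMetric

end Pool.Agent.NCP
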