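import Mathlib

/-! # MP_23cc9a_gt, module NCP/Shift: shifted grids

`exists_shift`: `∫_{[0,1]²} #{(i,j) : ((i+a)/N, (j+b)/N) ∈ S} da db = ∑_{i,j} N² volume (S ∩ cell_{ij})`
`≤ N² volume (S ∩ [0,1]²)`, so some `(a, b)` has count at most this average.
`tendsto_volume_small`: the sets `{0 < e ≤ η}` decrease to `∅` as `η → 0+`
(`MeasureTheory.tendsto_measure_iInter_atTop`). -/

open Set Filter Topology MeasureTheory

namespace Pool.Agent.NCP

/-- measure of the part of the unit cell whose image under `x ↦ (x + v) / N` lies in `S` -/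
theorem cell_measure {S : Set (ℝ × ℝ)} (N : ℕ) (hN : 0 < N) (v : ℝ × ℝ) :
    volume ((Ico (0:ℝ) 1 ×ˢ Ico (0:ℝ) 1) ∩ {p : ℝ × ℝ | (N:ℝ)⁻¹ • (p + v) ∈ S}) =
      (N : ENNReal) ^ 2 * volume (S ∩ {q : ℝ × ℝ | (N:ℝ) • q - v ∈ Ico (0:ℝ) 1 ×ˢ Ico (0:ℝ) 1}) := by
  have hN' : (N:ℝ) ≠ 0 := by positivity
  have h1 : (Ico (0:ℝ) 1 ×ˢ Ico (0:ℝ) 1) ∩ {p : ℝ × ℝ | (N:ℝ)⁻¹ • (p + v) ∈ S} =
      (fun p : ℝ × ℝ => p + v) ⁻¹' ((fun p : ℝ × ℝ => (N:ℝ)⁻¹ • p) ⁻¹'
        (S ∩ {q : ℝ × ℝ | (N:ℝ) • q - v ∈ Ico (0:ℝ) 1 ×ˢ Ico (0:ℝ) 1})) := by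
    ext p
    simp only [mem_inter_iff, mem_preimage, mem_ofPred_eq]
    rw [smul_inv_smul₀ hN', add_sub_cancel_right]
    tauto
  rw [h1, measure_preimage_add_right, Measure.addHaar_preimage_smul volume (inv_ne_zero hN')]
  congr 1
  have : Module.finrank ℝ (ℝ × ℝ) = 2 := by simp
  rw [this, inv_pow, inv_inv, abs_of_nonneg (by positivity), ENNReal.ofReal_pow (by positivity),
    ENNReal.ofReal_natCast]

open Classical in
/-- Averaging over shifts: some shift of the `1/N`-grid has at most `N² * volume S` points in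
`S ⊆ [0,1]²` (`S` measurable). -/
theorem exists_shift {S : Set (ℝ × ℝ)} (hS : MeasurableSet S) (N : ℕ) (hN : 0 < N) :
    ∃ a ∈ Icc (0:ℝ) 1, ∃ b ∈ Icc (0:ℝ) 1,
      (((Finset.range N ×ˢ Finset.range N).filter (fun p : ℕ × ℕ =>
        (((p.1 : ℝ) + a) / N, ((p.2 : ℝ) + b) / N) ∈ S)).card : ℝ) ≤
        (N : ℝ) ^ 2 * (volume (S ∩ Icc 0 1 ×ˢ Icc 0 1)).toReal := by
  have hN' : (0:ℝ) < (N:ℝ) := by positivity
  set Q : Set (ℝ × ℝ) := Ico (0:ℝ) 1 ×ˢ Ico (0:ℝ) 1 with hQ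
  set I : Finset (ℕ × ℕ) := Finset.range N ×ˢ Finset.range N with hI
  set v : ℕ × ℕ → ℝ × ℝ := fun p => ((p.1:ℝ), (p.2:ℝ)) with hv
  set T : ℕ × ℕ → Set (ℝ × ℝ) := fun p => {x : ℝ × ℝ | (N:ℝ)⁻¹ • (x + v p) ∈ S} with hT
  have hTm : ∀ p, MeasurableSet (T p) := by
    intro p
    exact (by fun_prop : Measurable fun x : ℝ × ℝ => (N:ℝ)⁻¹ • (x + v p)) hS
  set f : ℝ × ℝ → ENNReal := fun x => ∑ p ∈ I, (T p).indicator 1 x with hf
  have hfm : Measurable f := by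
    refine Finset.measurable_sum _ fun p _ => ?_
    exact measurable_one.indicator (hTm p)
  have hQm : volume Q = 1 := by
    rw [hQ, Measure.volume_eq_prod, Measure.prod_prod]; simp
  have hQmeas : MeasurableSet Q := measurableSet_Ico.prod measurableSet_Ico
  have hint : ∫⁻ x in Q, f x ≤ (N:ENNReal)^2 * volume (S ∩ Icc 0 1 ×ˢ Icc 0 1) := by
    rw [hf, lintegral_finsetSum _ (fun p _ => measurable_one.indicator (hTm p))]
    have h1 : ∀ p ∈ I, ∫⁻ x in Q, (T p).indicator 1 x =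
        (N:ENNReal)^2 * volume (S ∩ {q : ℝ × ℝ | (N:ℝ) • q - v p ∈ Q}) := by
      intro p _
      rw [lintegral_indicator_one (hTm p), Measure.restrict_apply (hTm p), inter_comm,
        cell_measure N hN (v p)]
    rw [Finset.sum_congr rfl h1, ← Finset.mul_sum]
    gcongr
    rw [← measure_biUnion_finset]
    · apply measure_mono
      intro q hq
      simp only [mem_iUnion] at hq
      obtain ⟨p, hp, hqS, hq⟩ := hq
      refine ⟨hqS, ?_⟩
      rw [hI, Finset.mem_product, Finset.mem_range, Finset.mem_range] at hp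
      simp only [hQ, mem_ofPred_eq, mem_prod, mem_Ico, hv, Prod.fst_sub, Prod.snd_sub, Prod.smul_fst,
        Prod.smul_snd, smul_eq_mul] at hq
      have h1 : (p.1:ℝ) + 1 ≤ N := by exact_mod_cast hp.1
      have h2 : (p.2:ℝ) + 1 ≤ N := by exact_mod_cast hp.2
      have h3 : (0:ℝ) ≤ p.1 := by positivity
      have h4 : (0:ℝ) ≤ p.2 := by positivity
      refine ⟨⟨?_, ?_⟩, ⟨?_, ?_⟩⟩
      · by_contra hc
        push Not at hc
        nlinarith
      · by_contra hc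
        push Not at hc
        nlinarith
      · by_contra hc
        push Not at hc
        nlinarith
      · by_contra hc
        push Not at hc
        nlinarith
    · intro p _ p' _ hpp'
      rw [Function.onFun, Set.disjoint_left]
      rintro q ⟨_, hq⟩ ⟨_, hq'⟩
      apply hpp'
      simp only [hQ, mem_ofPred_eq, mem_prod, mem_Ico, hv, Prod.fst_sub, Prod.snd_sub, Prod.smul_fst,
        Prod.smul_snd, smul_eq_mul] at hq hq'
      have e1 : (p.1:ℝ) < p'.1 + 1 := by linarith [hq.1.1, hq'.1.2]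
      have e2 : (p'.1:ℝ) < p.1 + 1 := by linarith [hq'.1.1, hq.1.2]
      have e3 : (p.2:ℝ) < p'.2 + 1 := by linarith [hq.2.1, hq'.2.2]
      have e4 : (p'.2:ℝ) < p.2 + 1 := by linarith [hq'.2.1, hq.2.2]
      norm_cast at e1 e2 e3 e4
      ext <;> omega
    · intro p _
      apply hS.inter
      have : Measurable fun q : ℝ × ℝ => (N:ℝ) • q - v p := by fun_prop
      exact this hQmeas
  obtain ⟨x, hxQ, hx⟩ := exists_le_setLAverage (μ := volume) (s := Q) (f := f)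
    (by rw [hQm]; exact one_ne_zero) (by rw [hQm]; exact ENNReal.one_ne_top) hfm.aemeasurable
  rw [setLAverage_eq, hQm, ENNReal.div_eq_inv_mul, inv_one, one_mul] at hx
  have hx2 := hx.trans hint
  refine ⟨x.1, ⟨hxQ.1.1, hxQ.1.2.le⟩, x.2, ⟨hxQ.2.1, hxQ.2.2.le⟩, ?_⟩
  have hcount : f x = ((I.filter (fun p : ℕ × ℕ =>
        (((p.1 : ℝ) + x.1) / N, ((p.2 : ℝ) + x.2) / N) ∈ S)).card : ENNReal) := by
    rw [hf, Finset.card_filter]
    push_cast
    refine Finset.sum_congr rfl fun p _ => ?_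
    have : x ∈ T p ↔ (((p.1 : ℝ) + x.1) / N, ((p.2 : ℝ) + x.2) / N) ∈ S := by
      simp only [hT, hv, mem_ofPred_eq]
      have : (N:ℝ)⁻¹ • (x + ((p.1:ℝ), (p.2:ℝ))) =
          (((p.1 : ℝ) + x.1) / N, ((p.2 : ℝ) + x.2) / N) := by
        ext <;> simp <;> field_simp <;> ring
      rw [this]
    by_cases h : x ∈ T p
    · rw [indicator_of_mem h, if_pos (this.1 h)]; rfl
    · rw [indicator_of_notMem h, if_neg (fun h' => h (this.2 h'))]
  rw [hcount] at hx2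
  have hfin : (N:ENNReal)^2 * volume (S ∩ Icc 0 1 ×ˢ Icc 0 1) ≠ ⊤ := by
    apply ENNReal.mul_ne_top (ENNReal.pow_ne_top (ENNReal.natCast_ne_top N))
    refine ne_top_of_le_ne_top ?_ (measure_mono inter_subset_right)
    exact ((isCompact_Icc.prod isCompact_Icc).measure_lt_top).ne
  have := ENNReal.toReal_mono hfin hx2
  simpa [ENNReal.toReal_mul, ENNReal.toReal_pow] using this

/-- For a continuous `e ≥ 0` on the square the measure of `{0 < e ≤ η}` tends to `0`. -/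
theorem tendsto_volume_small {e : ℝ × ℝ → ℝ}
    (he : ContinuousOn e (Icc (0:ℝ) 1 ×ˢ Icc (0:ℝ) 1)) (c : ℝ) (hc : 0 < c) :
    (∀ η : ℝ, MeasurableSet {p ∈ Icc (0:ℝ) 1 ×ˢ Icc (0:ℝ) 1 | 0 < e p ∧ e p ≤ η}) ∧
    Tendsto (fun N : ℕ => (volume {p ∈ Icc (0:ℝ) 1 ×ˢ Icc (0:ℝ) 1 |
      0 < e p ∧ e p ≤ c / (N : ℝ) ^ 2}).toReal) atTop (𝓝 0) := by
  have hmeas : ∀ η : ℝ, MeasurableSet {p ∈ Icc (0:ℝ) 1 ×ˢ Icc (0:ℝ) 1 | 0 < e p ∧ e p ≤ η} := by
    intro η
    have hsq : MeasurableSet (Icc (0:ℝ) 1 ×ˢ Icc (0:ℝ) 1) := measurableSet_Icc.prod measurableSet_Icc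
    have hc' : Measurable ((Icc (0:ℝ) 1 ×ˢ Icc (0:ℝ) 1).domRestrict e) :=
      (continuousOn_iff_continuous_domRestrict.1 he).measurable
    have h1 := hc' (measurableSet_Ioc (a := 0) (b := η))
    have h2 := hsq.subtype_image h1
    convert h2 using 1
    ext p
    constructor
    · rintro ⟨hp, hp2⟩
      exact ⟨⟨p, hp⟩, hp2, rfl⟩
    · rintro ⟨q, hq, rfl⟩
      exact ⟨q.2, hq⟩
  refine ⟨hmeas, ?_⟩
  rw [← tendsto_add_atTop_iff_nat 1]
  set B : ℕ → Set (ℝ × ℝ) := fun N => {p ∈ Icc (0:ℝ) 1 ×ˢ Icc (0:ℝ) 1 |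
      0 < e p ∧ e p ≤ c / ((N + 1 : ℕ) : ℝ) ^ 2} with hB
  have hanti : Antitone B := by
    intro m n hmn p hp
    refine ⟨hp.1, hp.2.1, hp.2.2.trans ?_⟩
    have : (m:ℝ) ≤ n := by exact_mod_cast hmn
    push_cast
    gcongr
  have hinter : ⋂ n, B n = ∅ := by
    rw [eq_empty_iff_forall_notMem]
    intro p hp
    rw [mem_iInter] at hp
    have hpos := (hp 0).2.1
    have ht : Tendsto (fun N : ℕ => c / ((N + 1 : ℕ) : ℝ) ^ 2) atTop (𝓝 0) := by
      have h1 : Tendsto (fun N : ℕ => ((N + 1 : ℕ) : ℝ) ^ 2) atTop atTop := by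
        refine (tendsto_pow_atTop two_ne_zero).comp ?_
        exact tendsto_natCast_atTop_atTop.comp (tendsto_add_atTop_nat 1)
      exact h1.const_div_atTop c
    have := ge_of_tendsto ht (Eventually.of_forall fun n => (hp n).2.2)
    linarith
  have hfin : ∃ i, volume (B i) ≠ ⊤ := by
    refine ⟨0, ?_⟩
    refine ne_top_of_le_ne_top ?_ (measure_mono (fun p hp => hp.1 : B 0 ⊆ Icc (0:ℝ) 1 ×ˢ Icc (0:ℝ) 1))
    exact ((isCompact_Icc.prod isCompact_Icc).measure_lt_top).ne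
  have := tendsto_measure_iInter_atTop (μ := volume) (fun n => (hmeas _).nullMeasurableSet) hanti hfin
  rw [hinter, measure_empty] at this
  exact (ENNReal.tendsto_toReal ENNReal.zero_ne_top).comp this

end Pool.Agent.NCP
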