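import Pool.Agent.NCP.Cell
import Pool.Agent.NCP.Grid
import Pool.Agent.NCP.Shift
import Pool.Agent.NCP.LineC

/-! # MP_23cc9a_gt, module NCP/Stokes: additivity of the line sums in the limit

For a Lipschitz filling `Φ` of the triangle `u, v, w` take the `N × N` grid, boundary vertices
unshifted, interior vertices shifted by the `θ` of `exists_shift` applied to
`S = {p | 0 < e (Φ p) ≤ C₁/N²}` (intersected with the square): `V i j = Φ ((i+a)/N) ((j+b)/N)` for
`1 ≤ i, j ≤ N-1`, `V i j = Φ (i/N) (j/N)` if `i ∈ {0, N}` or `j ∈ {0, N}`. The four vertices of a cell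
are at mutual distance `≤ 4 L/N` (use `cell` with constant `4 L`). By `grid_stokes` for `lamA N`
(`lamA_antisymm`), with bottom side constant `u` (`lamA u u = 0`), right side `JN u w`, top side
`JN v w`, left side `JN u v`:
`|JN u v + JN v w - JN u w| ≤ ∑ cells |curvature|`
`≤ N² C₁/N³ + (4 N) C₁/N² + 4 (N² volume S_N) C₁/N² → 0`: the cells touching the boundary of the
square are at most `4 N`; a cell of the second kind has a vertex in `S_N`, and every interior vertex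
is in at most 4 cells, at most `N² volume S_N` interior vertices lie in `S_N` (`exists_shift`,
`tendsto_volume_small`). -/

open Set Filter Topology

namespace Pool.Agent.NCP

variable {𝒢 X Q : Type*} [Group 𝒢] [MetricSpace X] [MulAction 𝒢 X] [MulAction 𝒢 Q]

theorem CData.lamA_antisymm (D : CData 𝒢 X Q) (N : ℕ) (u v : X) :
    D.lamA N u v = - D.lamA N v u := by
  unfold CData.lamA
  ring

/-- shifting the summation index of a nonnegative function which vanishes at the end -/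
private theorem sum_shift_le (g : ℕ → ℝ) (N : ℕ) (h0 : 0 ≤ g 0) (hN : g N = 0) :
    ∑ i ∈ Finset.range N, g (i + 1) ≤ ∑ i ∈ Finset.range N, g i := by
  have h1 := Finset.sum_range_succ' g N
  have h2 := Finset.sum_range_succ g N
  rw [hN, add_zero] at h2
  linarith

private theorem coord_mem {N : ℕ} (hN : 0 < N) {i : ℕ} (hi : i ≤ N) {c : ℝ} (hc : c ∈ Icc (0:ℝ) 1)
    (h : c = 0 ∨ i < N) : ((i : ℝ) + c) / N ∈ Icc (0:ℝ) 1 := by
  have hN' : (0:ℝ) < N := by exact_mod_cast hN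
  refine ⟨div_nonneg (add_nonneg (Nat.cast_nonneg _) hc.1) hN'.le, ?_⟩
  rw [div_le_one hN']
  rcases h with h | h
  · subst h
    have : (i:ℝ) ≤ N := by exact_mod_cast hi
    linarith
  · have : (i:ℝ) + 1 ≤ N := by exact_mod_cast h
    linarith [hc.2]

private theorem coord_dist {N : ℕ} (hN : 0 < N) {i k : ℕ} (h1 : i ≤ k + 1) (h2 : k ≤ i + 1)
    {c c' : ℝ} (hc : c ∈ Icc (0:ℝ) 1) (hc' : c' ∈ Icc (0:ℝ) 1) :
    |((i : ℝ) + c) / N - ((k : ℝ) + c') / N| ≤ 2 / N := by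
  have hN' : (0:ℝ) < N := by exact_mod_cast hN
  rw [← sub_div, abs_div, abs_of_pos hN']
  apply div_le_div_of_nonneg_right _ hN'.le
  have h1' : (i:ℝ) ≤ k + 1 := by exact_mod_cast h1
  have h2' : (k:ℝ) ≤ i + 1 := by exact_mod_cast h2
  rw [abs_le]
  constructor <;> linarith [hc.1, hc.2, hc'.1, hc'.2]

/-- the estimate at scale `N` -/
private theorem CData.triangle_le (D : CData 𝒢 X Q) (u v w : X)
    (Φ : ℝ → ℝ → X) (L : ℝ) (hL : 0 ≤ L)
    (hΦ : ∀ s ∈ Icc (0:ℝ) 1, ∀ s' ∈ Icc (0:ℝ) 1, ∀ t ∈ Icc (0:ℝ) 1, ∀ t' ∈ Icc (0:ℝ) 1,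
      dist (Φ s t) (Φ s' t') ≤ L * (|s - s'| + |t - t'|))
    (hb : ∀ s ∈ Icc (0:ℝ) 1, Φ s 0 = u) (ht : ∀ s ∈ Icc (0:ℝ) 1, Φ s 1 = pt v w s)
    (hl : ∀ t ∈ Icc (0:ℝ) 1, Φ 0 t = pt u v t) (hr : ∀ t ∈ Icc (0:ℝ) 1, Φ 1 t = pt u w t)
    (C₁ : ℝ) (hC₁ : 0 ≤ C₁) (N : ℕ) (hN0 : 0 < N)
    (hcell : ∀ u : Fin 4 → X, (∀ i j, dist (u i) (u j) ≤ 4 * L / N) →
      (|D.lamA N (u 0) (u 1) + D.lamA N (u 1) (u 2) + D.lamA N (u 2) (u 3) + D.lamA N (u 3) (u 0)|
          ≤ C₁ / (N : ℝ) ^ 3) ∨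
      ((|D.lamA N (u 0) (u 1) + D.lamA N (u 1) (u 2) + D.lamA N (u 2) (u 3) + D.lamA N (u 3) (u 0)|
          ≤ C₁ / (N : ℝ) ^ 2) ∧ ∃ i, 0 < D.e (u i) ∧ D.e (u i) ≤ C₁ / (N : ℝ) ^ 2))
    (S : Set (ℝ × ℝ)) (hS : MeasurableSet S)
    (hSm : ∀ p : ℝ × ℝ, p ∈ Icc (0:ℝ) 1 ×ˢ Icc (0:ℝ) 1 → 0 < D.e (Φ p.1 p.2) →
      D.e (Φ p.1 p.2) ≤ C₁ / (N : ℝ) ^ 2 → p ∈ S)
    (hSs : S ⊆ Icc (0:ℝ) 1 ×ˢ Icc (0:ℝ) 1) :
    |D.JN N u v + D.JN N v w - D.JN N u w| ≤
      5 * C₁ / N + 4 * C₁ * (MeasureTheory.volume S).toReal := by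
  classical
  have hN' : (0:ℝ) < N := by exact_mod_cast hN0
  obtain ⟨a, ha, b, hbm, hcard⟩ := exists_shift hS N hN0
  rw [inter_eq_left.mpr hSs] at hcard
  -- the shifted grid
  obtain ⟨α, hα⟩ : ∃ α : ℕ → ℕ → ℝ, α = fun i j =>
    if i = 0 ∨ i = N ∨ j = 0 ∨ j = N then 0 else a := ⟨_, rfl⟩
  obtain ⟨β, hβ⟩ : ∃ β : ℕ → ℕ → ℝ, β = fun i j =>
    if i = 0 ∨ i = N ∨ j = 0 ∨ j = N then 0 else b := ⟨_, rfl⟩
  have hα1 : ∀ i j, α i j ∈ Icc (0:ℝ) 1 := fun i j => by
    rw [hα]; dsimp only; split_ifs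
    · exact ⟨le_rfl, zero_le_one⟩
    · exact ha
  have hβ1 : ∀ i j, β i j ∈ Icc (0:ℝ) 1 := fun i j => by
    rw [hβ]; dsimp only; split_ifs
    · exact ⟨le_rfl, zero_le_one⟩
    · exact hbm
  have hα2 : ∀ i j, i ≤ N → (α i j = 0 ∨ i < N) := fun i j hi => by
    by_cases h : i = N
    · left; rw [hα]; dsimp only; rw [if_pos (Or.inr (Or.inl h))]
    · right; omega
  have hβ2 : ∀ i j, j ≤ N → (β i j = 0 ∨ j < N) := fun i j hj => by
    by_cases h : j = N
    · left; rw [hβ]; dsimp only; rw [if_pos (Or.inr (Or.inr (Or.inr h)))]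
    · right; omega
  obtain ⟨V, hV⟩ : ∃ V : ℕ → ℕ → X, V = fun (i j : ℕ) => Φ (((i:ℝ) + α i j) / N) (((j:ℝ) + β i j) / N) :=
    ⟨_, rfl⟩
  have hVdist : ∀ i j k l, i ≤ N → j ≤ N → k ≤ N → l ≤ N → i ≤ k + 1 → k ≤ i + 1 → j ≤ l + 1 →
      l ≤ j + 1 → dist (V i j) (V k l) ≤ 4 * L / N := by
    intro i j k l hi hj hk hl' h1 h2 h3 h4
    rw [hV]
    refine (hΦ _ (coord_mem hN0 hi (hα1 i j) (hα2 i j hi)) _
      (coord_mem hN0 hk (hα1 k l) (hα2 k l hk)) _ (coord_mem hN0 hj (hβ1 i j) (hβ2 i j hj)) _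
      (coord_mem hN0 hl' (hβ1 k l) (hβ2 k l hl'))).trans ?_
    have e1 := coord_dist hN0 h1 h2 (hα1 i j) (hα1 k l)
    have e2 := coord_dist hN0 h3 h4 (hβ1 i j) (hβ1 k l)
    calc L * _ ≤ L * (2 / N + 2 / N) := mul_le_mul_of_nonneg_left (add_le_add e1 e2) hL
      _ = 4 * L / N := by ring
  have hbd : ∀ i j, (i = 0 ∨ i = N ∨ j = 0 ∨ j = N) → V i j = Φ ((i:ℝ) / N) ((j:ℝ) / N) := by
    intro i j h
    rw [hV, hα, hβ]
    dsimp only
    rw [if_pos h, if_pos h, add_zero, add_zero]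
  have hint : ∀ i j, ¬ (i = 0 ∨ i = N ∨ j = 0 ∨ j = N) →
      V i j = Φ (((i:ℝ) + a) / N) (((j:ℝ) + b) / N) := by
    intro i j h
    rw [hV, hα, hβ]
    dsimp only
    rw [if_neg h, if_neg h]
  -- the set of bad interior vertices
  obtain ⟨T, hT⟩ : ∃ T : Finset (ℕ × ℕ), T = (Finset.range N ×ˢ Finset.range N).filter
    (fun p : ℕ × ℕ => (((p.1 : ℝ) + a) / N, ((p.2 : ℝ) + b) / N) ∈ S) := ⟨_, rfl⟩
  rw [← hT] at hcard
  obtain ⟨τ, hτ⟩ : ∃ τ : ℕ → ℕ → ℝ, τ = fun i j => if (i, j) ∈ T then 1 else 0 := ⟨_, rfl⟩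
  have hτ0 : ∀ i j, 0 ≤ τ i j := fun i j => by
    rw [hτ]; dsimp only; split_ifs <;> norm_num
  have hτN1 : ∀ j, τ N j = 0 := fun j => by
    rw [hτ]; dsimp only
    rw [if_neg]
    rw [hT, Finset.mem_filter, Finset.mem_product, Finset.mem_range]
    rintro ⟨⟨h, _⟩, _⟩
    exact lt_irrefl _ h
  have hτN2 : ∀ i, τ i N = 0 := fun i => by
    rw [hτ]; dsimp only
    rw [if_neg]
    rw [hT, Finset.mem_filter, Finset.mem_product, Finset.mem_range, Finset.mem_range]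
    rintro ⟨⟨_, h⟩, _⟩
    exact lt_irrefl _ h
  have hτsum : ∑ i ∈ Finset.range N, ∑ j ∈ Finset.range N, τ i j ≤ T.card := by
    rw [← Finset.sum_product', Finset.card_eq_sum_ones]
    push_cast
    have hTs : T ⊆ Finset.range N ×ˢ Finset.range N := by
      rw [hT]; exact Finset.filter_subset _ _
    rw [← Finset.sum_subset hTs (f := fun p : ℕ × ℕ => τ p.1 p.2)]
    · apply Finset.sum_le_sum
      intro p hp
      rw [hτ]; dsimp only; rw [if_pos hp]
    · intro p _ hp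
      rw [hτ]; dsimp only; rw [if_neg hp]
  have hs01 : ∑ i ∈ Finset.range N, ∑ j ∈ Finset.range N, τ i (j + 1) ≤ T.card :=
    (Finset.sum_le_sum fun i _ => sum_shift_le (fun j => τ i j) N (hτ0 i 0) (hτN2 i)).trans hτsum
  have hs10 : ∑ i ∈ Finset.range N, ∑ j ∈ Finset.range N, τ (i + 1) j ≤ T.card := by
    refine (sum_shift_le (fun i => ∑ j ∈ Finset.range N, τ i j) N
      (Finset.sum_nonneg fun j _ => hτ0 0 j) ?_).trans hτsum
    exact Finset.sum_eq_zero fun j _ => hτN1 j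
  have hs11 : ∑ i ∈ Finset.range N, ∑ j ∈ Finset.range N, τ (i + 1) (j + 1) ≤ T.card := by
    refine (sum_shift_le (fun i => ∑ j ∈ Finset.range N, τ i (j + 1)) N
      (Finset.sum_nonneg fun j _ => hτ0 0 (j + 1)) ?_).trans hs01
    exact Finset.sum_eq_zero fun j _ => hτN1 (j + 1)
  -- curvature of one cell
  obtain ⟨κ, hκ⟩ : ∃ κ : ℕ → ℕ → ℝ, κ = fun i j =>
    (D.lamA N (V i j) (V (i + 1) j) + D.lamA N (V (i + 1) j) (V (i + 1) (j + 1)) +
        D.lamA N (V (i + 1) (j + 1)) (V i (j + 1)) + D.lamA N (V i (j + 1)) (V i j)) := ⟨_, rfl⟩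
  have hbad : ∀ k l, k ≤ N → l ≤ N → ¬ (k = 0 ∨ k = N ∨ l = 0 ∨ l = N) → 0 < D.e (V k l) →
      D.e (V k l) ≤ C₁ / (N:ℝ) ^ 2 → τ k l = 1 := by
    intro k l hk hl' hkl h1 h2
    rw [hint k l hkl] at h1 h2
    have hk2 : k < N := by omega
    have hl2 : l < N := by omega
    have hmem : (((k : ℝ) + a) / N, ((l : ℝ) + b) / N) ∈ S := by
      apply hSm _ _ h1 h2
      exact ⟨coord_mem hN0 hk ha (Or.inr hk2), coord_mem hN0 hl' hbm (Or.inr hl2)⟩
    rw [hτ]; dsimp only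
    rw [if_pos]
    rw [hT, Finset.mem_filter, Finset.mem_product, Finset.mem_range, Finset.mem_range]
    exact ⟨⟨hk2, hl2⟩, hmem⟩
  have hκle : ∀ i ∈ Finset.range N, ∀ j ∈ Finset.range N, |κ i j| ≤ C₁ / (N:ℝ) ^ 3 +
      C₁ / (N:ℝ) ^ 2 * ((if i = 0 then 1 else 0) + (if i + 1 = N then 1 else 0) +
        (if j = 0 then 1 else 0) + (if j + 1 = N then 1 else 0) +
        (τ i j + τ i (j + 1) + τ (i + 1) j + τ (i + 1) (j + 1))) := by
    intro i hi j hj
    rw [Finset.mem_range] at hi hj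
    have hnn2 : (0:ℝ) ≤ C₁ / (N:ℝ) ^ 2 := by positivity
    have hnn3 : (0:ℝ) ≤ C₁ / (N:ℝ) ^ 3 := by positivity
    have q1 := hτ0 i j
    have q2 := hτ0 i (j + 1)
    have q3 := hτ0 (i + 1) j
    have q4 := hτ0 (i + 1) (j + 1)
    have p1 : (0:ℝ) ≤ (if i = 0 then 1 else 0) := by split_ifs <;> norm_num
    have p2 : (0:ℝ) ≤ (if i + 1 = N then 1 else 0) := by split_ifs <;> norm_num
    have p3 : (0:ℝ) ≤ (if j = 0 then 1 else 0) := by split_ifs <;> norm_num
    have p4 : (0:ℝ) ≤ (if j + 1 = N then 1 else 0) := by split_ifs <;> norm_num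
    have hd := hcell ![V i j, V (i + 1) j, V (i + 1) (j + 1), V i (j + 1)] (by
      intro x y
      fin_cases x <;> fin_cases y <;> simp only [Fin.mk_one, Fin.zero_eta, Fin.isValue,
        Matrix.cons_val_zero, Matrix.cons_val_one, Matrix.cons_val, Fin.reduceFinMk] <;>
        (apply hVdist <;> omega))
    simp only [Fin.isValue, Matrix.cons_val_zero, Matrix.cons_val_one, Matrix.cons_val] at hd
    rw [hκ]
    dsimp only
    rcases hd with hd | ⟨hd, x, hx1, hx2⟩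
    · refine hd.trans ?_
      have : 0 ≤ C₁ / (N:ℝ) ^ 2 * ((if i = 0 then 1 else 0) + (if i + 1 = N then 1 else 0) +
        (if j = 0 then 1 else 0) + (if j + 1 = N then 1 else 0) +
        (τ i j + τ i (j + 1) + τ (i + 1) j + τ (i + 1) (j + 1))) := by
        apply mul_nonneg hnn2
        linarith
      linarith
    · have hone : (1:ℝ) ≤ (if i = 0 then 1 else 0) + (if i + 1 = N then 1 else 0) +
        (if j = 0 then 1 else 0) + (if j + 1 = N then 1 else 0) +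
        (τ i j + τ i (j + 1) + τ (i + 1) j + τ (i + 1) (j + 1)) := by
        by_cases c1 : i = 0
        · rw [if_pos c1]; linarith
        by_cases c2 : i + 1 = N
        · rw [if_pos c2]; linarith
        by_cases c3 : j = 0
        · rw [if_pos c3]; linarith
        by_cases c4 : j + 1 = N
        · rw [if_pos c4]; linarith
        fin_cases x
        · simp only [Fin.zero_eta, Fin.isValue, Matrix.cons_val_zero] at hx1 hx2
          have := hbad i j (by omega) (by omega) (by omega) hx1 hx2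
          linarith
        · simp only [Fin.mk_one, Fin.isValue, Matrix.cons_val_one, Matrix.cons_val_zero] at hx1 hx2
          have := hbad (i + 1) j (by omega) (by omega) (by omega) hx1 hx2
          linarith
        · simp only [Fin.reduceFinMk, Matrix.cons_val] at hx1 hx2
          have := hbad (i + 1) (j + 1) (by omega) (by omega) (by omega) hx1 hx2
          linarith
        · simp only [Fin.reduceFinMk, Matrix.cons_val] at hx1 hx2
          have := hbad i (j + 1) (by omega) (by omega) (by omega) hx1 hx2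
          linarith
      have := mul_le_mul_of_nonneg_left hone hnn2
      linarith
  -- sum over all cells
  have hsumle : |∑ i ∈ Finset.range N, ∑ j ∈ Finset.range N, κ i j| ≤
      5 * C₁ / N + 4 * C₁ * (MeasureTheory.volume S).toReal := by
    have h1 : |∑ i ∈ Finset.range N, ∑ j ∈ Finset.range N, κ i j| ≤
        ∑ i ∈ Finset.range N, ∑ j ∈ Finset.range N, (C₁ / (N:ℝ) ^ 3 +
      C₁ / (N:ℝ) ^ 2 * ((if i = 0 then 1 else 0) + (if i + 1 = N then 1 else 0) +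
        (if j = 0 then 1 else 0) + (if j + 1 = N then 1 else 0) +
        (τ i j + τ i (j + 1) + τ (i + 1) j + τ (i + 1) (j + 1)))) := by
      refine (Finset.abs_sum_le_sum_abs _ _).trans ?_
      apply Finset.sum_le_sum
      intro i hi
      refine (Finset.abs_sum_le_sum_abs _ _).trans ?_
      apply Finset.sum_le_sum
      intro j hj
      exact hκle i hi j hj
    refine h1.trans ?_
    simp only [Finset.sum_add_distrib, ← Finset.mul_sum, Finset.sum_const, Finset.card_range,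
      nsmul_eq_mul]
    have e1 : ∑ i ∈ Finset.range N, (N:ℝ) * (if i = 0 then (1:ℝ) else 0) ≤ N := by
      rw [← Finset.mul_sum, Finset.sum_ite_eq' ]
      split_ifs <;> nlinarith
    have e2 : ∑ i ∈ Finset.range N, (N:ℝ) * (if i + 1 = N then (1:ℝ) else 0) ≤ N := by
      rw [← Finset.mul_sum]
      have : ∑ i ∈ Finset.range N, (if i + 1 = N then (1:ℝ) else 0) ≤ 1 := by
        have h2 : ∀ i ∈ Finset.range N, (if i + 1 = N then (1:ℝ) else 0) =
            if i = N - 1 then 1 else 0 := by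
          intro i _
          congr 1
          apply propext
          omega
        rw [Finset.sum_congr rfl h2, Finset.sum_ite_eq']
        split_ifs <;> norm_num
      nlinarith
    have e3 : ∑ j ∈ Finset.range N, (if j = 0 then (1:ℝ) else 0) ≤ 1 := by
      rw [Finset.sum_ite_eq']
      split_ifs <;> norm_num
    have e4 : ∑ j ∈ Finset.range N, (if j + 1 = N then (1:ℝ) else 0) ≤ 1 := by
      have h2 : ∀ i ∈ Finset.range N, (if i + 1 = N then (1:ℝ) else 0) =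
          if i = N - 1 then 1 else 0 := by
        intro i _
        congr 1
        apply propext
        omega
      rw [Finset.sum_congr rfl h2, Finset.sum_ite_eq']
      split_ifs <;> norm_num
    have e5 : (T.card : ℝ) ≤ (N:ℝ) ^ 2 * (MeasureTheory.volume S).toReal := hcard
    have hnn2 : (0:ℝ) ≤ C₁ / (N:ℝ) ^ 2 := by positivity
    simp only [Finset.mul_sum] at e1 e2 ⊢
    simp only [← Finset.mul_sum] at e1 e2 ⊢
    have f3 : (N:ℝ) * ∑ j ∈ Finset.range N, (if j = 0 then (1:ℝ) else 0) ≤ N := by nlinarith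
    have f4 : (N:ℝ) * ∑ j ∈ Finset.range N, (if j + 1 = N then (1:ℝ) else 0) ≤ N := by nlinarith
    have key : (N:ℝ) * ∑ i ∈ Finset.range N, (if i = 0 then (1:ℝ) else 0) +
        (N:ℝ) * ∑ i ∈ Finset.range N, (if i + 1 = N then (1:ℝ) else 0) +
        (N:ℝ) * ∑ j ∈ Finset.range N, (if j = 0 then (1:ℝ) else 0) +
        (N:ℝ) * ∑ j ∈ Finset.range N, (if j + 1 = N then (1:ℝ) else 0) +
        (∑ i ∈ Finset.range N, ∑ j ∈ Finset.range N, τ i j +
          ∑ i ∈ Finset.range N, ∑ j ∈ Finset.range N, τ i (j + 1) +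
          ∑ i ∈ Finset.range N, ∑ j ∈ Finset.range N, τ (i + 1) j +
          ∑ i ∈ Finset.range N, ∑ j ∈ Finset.range N, τ (i + 1) (j + 1)) ≤
        4 * N + 4 * ((N:ℝ) ^ 2 * (MeasureTheory.volume S).toReal) := by
      linarith
    have key2 := mul_le_mul_of_nonneg_left key hnn2
    have fin1 : C₁ / (N:ℝ) ^ 2 * (4 * N + 4 * ((N:ℝ) ^ 2 * (MeasureTheory.volume S).toReal)) =
        4 * C₁ / N + 4 * C₁ * (MeasureTheory.volume S).toReal := by
      field_simp
    have fin2 : (N:ℝ) * ((N:ℝ) * (C₁ / (N:ℝ) ^ 3)) = C₁ / N := by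
      field_simp
    rw [fin1] at key2
    have fin3 : 5 * C₁ / N = C₁ / N + 4 * C₁ / N := by ring
    rw [fin3]
    linarith
  -- Stokes
  have hst := grid_stokes (D.lamA N) (D.lamA_antisymm N) V N
  rw [hκ] at hsumle
  rw [hst] at hsumle
  have hdiv : ∀ i : ℕ, i ≤ N → (i:ℝ) / N ∈ Icc (0:ℝ) 1 := fun i hi => by
    have := coord_mem hN0 hi (c := 0) ⟨le_rfl, zero_le_one⟩ (Or.inl rfl)
    rwa [add_zero] at this
  have hNN : (N:ℝ) / N = 1 := div_self hN'.ne'
  have s1 : ∑ i ∈ Finset.range N, D.lamA N (V i 0) (V (i + 1) 0) = 0 := by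
    apply Finset.sum_eq_zero
    intro i hi
    rw [Finset.mem_range] at hi
    rw [hbd i 0 (by simp), hbd (i + 1) 0 (by simp)]
    simp only [Nat.cast_zero, zero_div]
    rw [hb _ (hdiv i hi.le), hb _ (hdiv (i + 1) hi)]
    have := D.lamA_antisymm N u u
    linarith
  have s2 : ∑ j ∈ Finset.range N, D.lamA N (V N j) (V N (j + 1)) = D.JN N u w := by
    unfold CData.JN
    apply Finset.sum_congr rfl
    intro j hj
    rw [Finset.mem_range] at hj
    rw [hbd N j (by simp), hbd N (j + 1) (by simp), hNN, hr _ (hdiv j hj.le),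
      hr _ (hdiv (j + 1) hj)]
    push_cast
    rfl
  have s3 : ∑ i ∈ Finset.range N, D.lamA N (V i N) (V (i + 1) N) = D.JN N v w := by
    unfold CData.JN
    apply Finset.sum_congr rfl
    intro i hi
    rw [Finset.mem_range] at hi
    rw [hbd i N (by simp), hbd (i + 1) N (by simp), hNN, ht _ (hdiv i hi.le),
      ht _ (hdiv (i + 1) hi)]
    push_cast
    rfl
  have s4 : ∑ j ∈ Finset.range N, D.lamA N (V 0 j) (V 0 (j + 1)) = D.JN N u v := by
    unfold CData.JN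
    apply Finset.sum_congr rfl
    intro j hj
    rw [Finset.mem_range] at hj
    rw [hbd 0 j (by simp), hbd 0 (j + 1) (by simp)]
    simp only [Nat.cast_zero, zero_div]
    rw [hl _ (hdiv j hj.le), hl _ (hdiv (j + 1) hj)]
    push_cast
    rfl
  rw [s1, s2, s3, s4] at hsumle
  rw [← abs_neg]
  convert hsumle using 2
  ring

theorem CData.tendsto_triangle (D : CData 𝒢 X Q) (hX : Straight X) (hT : LipTri X) (u v w : X) :
    Tendsto (fun N : ℕ => D.JN N u v + D.JN N v w - D.JN N u w) atTop (𝓝 0) := by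
  obtain ⟨Φ, L₀, hΦ₀, hb, ht, hl, hr⟩ := hT u v w
  obtain ⟨L, hL⟩ : ∃ L : ℝ, L = |L₀| := ⟨_, rfl⟩
  have hL0 : 0 ≤ L := by rw [hL]; exact abs_nonneg _
  have hΦ : ∀ s ∈ Icc (0:ℝ) 1, ∀ s' ∈ Icc (0:ℝ) 1, ∀ t ∈ Icc (0:ℝ) 1, ∀ t' ∈ Icc (0:ℝ) 1,
      dist (Φ s t) (Φ s' t') ≤ L * (|s - s'| + |t - t'|) := by
    intro s hs s' hs' t ht t' ht'
    refine (hΦ₀ s hs s' hs' t ht t' ht').trans ?_
    apply mul_le_mul_of_nonneg_right
    · rw [hL]; exact le_abs_self _
    · positivity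
  obtain ⟨C₁, hC₁, N₀, hN₀⟩ := D.cell hX (4 * L) (by positivity)
  have hcont : ContinuousOn (fun p : ℝ × ℝ => D.e (Φ p.1 p.2)) (Icc (0:ℝ) 1 ×ˢ Icc (0:ℝ) 1) := by
    apply D.e_cont.comp_continuousOn
    rw [Metric.continuousOn_iff]
    intro p hp ε hε
    refine ⟨ε / (2 * L + 1), by positivity, fun q hq hpq => ?_⟩
    have h1 := hΦ q.1 hq.1 p.1 hp.1 q.2 hq.2 p.2 hp.2
    have h2 : |q.1 - p.1| ≤ dist q p := by
      rw [← Real.dist_eq, Prod.dist_eq]; exact le_max_left _ _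
    have h3 : |q.2 - p.2| ≤ dist q p := by
      rw [← Real.dist_eq, Prod.dist_eq]; exact le_max_right _ _
    have h4 : L * (|q.1 - p.1| + |q.2 - p.2|) ≤ L * (dist q p + dist q p) :=
      mul_le_mul_of_nonneg_left (add_le_add h2 h3) hL0
    rw [lt_div_iff₀ (by positivity)] at hpq
    have h5 : 0 ≤ dist q p := dist_nonneg
    by_cases h6 : dist q p = 0
    · rw [h6] at h4
      calc dist (Φ q.1 q.2) (Φ p.1 p.2) ≤ L * (0 + 0) := h1.trans h4
        _ < ε := by simpa using hε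
    · have h7 : 0 < dist q p := lt_of_le_of_ne h5 (Ne.symm h6)
      calc dist (Φ q.1 q.2) (Φ p.1 p.2) ≤ L * (dist q p + dist q p) := h1.trans h4
        _ < dist q p * (2 * L + 1) := by nlinarith
        _ < ε := hpq
  obtain ⟨hmeas, hvol⟩ := tendsto_volume_small hcont (C₁ + 1) (by positivity)
  have hlim : Tendsto (fun N : ℕ => 5 * C₁ / (N:ℝ) + 4 * C₁ *
      (MeasureTheory.volume {p ∈ Icc (0:ℝ) 1 ×ˢ Icc (0:ℝ) 1 |
        0 < D.e (Φ p.1 p.2) ∧ D.e (Φ p.1 p.2) ≤ (C₁ + 1) / (N : ℝ) ^ 2}).toReal) atTop (𝓝 0) := by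
    have h1 : Tendsto (fun N : ℕ => 5 * C₁ / (N:ℝ)) atTop (𝓝 0) :=
      tendsto_const_div_atTop_nhds_zero_nat _
    have h2 := hvol.const_mul (4 * C₁)
    rw [mul_zero] at h2
    have h3 := h1.add h2
    rwa [add_zero] at h3
  refine squeeze_zero_norm' ?_ hlim
  filter_upwards [eventually_ge_atTop N₀, eventually_ge_atTop 1] with N hN1 hN2
  rw [Real.norm_eq_abs]
  refine D.triangle_le u v w Φ L hL0 hΦ hb ht hl hr C₁ hC₁ N hN2 (hN₀ N hN1 hN2) _
    (hmeas ((C₁ + 1) / (N:ℝ) ^ 2)) ?_ ?_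
  · intro p hp h1 h2
    refine ⟨hp, h1, h2.trans ?_⟩
    apply div_le_div_of_nonneg_right _ (by positivity)
    linarith
  · intro p hp
    exact hp.1

end Pool.Agent.NCP
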