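import Pool.Agent.NCP.Axis
import Pool.Agent.NCP.LineC

/-! # MP_23cc9a_gt, module NCP/Up: the upward map and the extension of labels

`upM γ u = pt (γ • u) u (3/2)` extends the segment `[γ u, u]` beyond `u` by half its length.
With `D = disp γ u`, `u_s = pt (γ u) u (1 + s)` (`0 ≤ s ≤ 1/2`):
`dist u_s (γ u) = (1+s) D`, `dist (γ u_s) (γ u) = s D`, so `disp γ u_s ≥ D`. If equality holds for
`s = 1/2`, `γ u_{1/2}` is between `u_{1/2}` and `γ u`, at distance `D/2` from `γ u`, so it is the
midpoint `m` of `[γ u, u]`; it also lies beyond `γ u` on the line from `γ² u`, so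
`dist m (γ m) = D` and the midpoint criterion applies.
Iterates: if `disp γ (upM^[k] u)` stayed bounded, conjugate back into the compact fundamental
domain (finitely many conjugates of `γ` occur, `finite_small_disp`), pass to a limit `w` and get
`disp c (upM c w) = disp c w > ell c`, a contradiction. -/

open Set Filter Topology

namespace Pool.Agent.NCP

variable {X : Type*} [MetricSpace X] {Γ : Type*} [Group Γ] [MulAction Γ X] [IsIsometricSMul Γ X]

theorem disp_le_disp_up (hX : Straight X) (γ : Γ) (u : X) {s : ℝ} (hs : 0 ≤ s) (hs' : s ≤ 1 / 2) :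
    disp γ u ≤ disp γ (pt (γ • u) u (1 + s)) := by
  set w := pt (γ • u) u (1 + s) with hw
  have e1 : dist (γ • u) w = disp γ u * (1 + s) := by
    rw [hw, dist_left_pt hX, abs_of_nonneg (by linarith)]
    unfold disp
    rw [dist_comm]
  have e2 : dist w u = disp γ u * s := by
    rw [hw, dist_pt_right hX, show (1:ℝ) - (1 + s) = -s by ring, abs_neg, abs_of_nonneg hs]
    unfold disp
    rw [dist_comm]
  have e3 : dist (γ • w) (γ • u) = disp γ u * s := by rw [dist_smul, e2]
  have h := dist_triangle w (γ • w) (γ • u)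
  rw [e3, dist_comm w (γ • u), e1] at h
  have e4 : disp γ w = dist w (γ • w) := rfl
  rw [e4]
  linarith

theorem exc_le_exc_up (hX : Straight X) (γ : Γ) (u : X) {s : ℝ} (hs : 0 ≤ s) (hs' : s ≤ 1 / 2) :
    exc γ u ≤ exc γ (pt (γ • u) u (1 + s)) :=
  sub_le_sub_right (disp_le_disp_up hX γ u hs hs') _

theorem eq_ell_of_disp_upM (hX : Straight X) (γ : Γ) (u : X)
    (h : disp γ (upM γ u) = disp γ u) : disp γ u = ell X γ := by
  by_cases hD : u = γ • u
  · have h0 : disp γ u = 0 := by
      unfold disp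
      rw [← hD, dist_self]
    refine le_antisymm ?_ (ell_le γ u)
    rw [h0]
    exact ell_nonneg γ
  · have hpos : 0 < disp γ u := dist_pos.mpr hD
    set w := upM γ u with hw
    have hw' : w = pt (γ • u) u (3 / 2) := rfl
    have e1 : dist w (γ • u) = disp γ u * (3 / 2) := by
      rw [dist_comm, hw', dist_left_pt hX, abs_of_nonneg (by norm_num)]
      unfold disp
      rw [dist_comm]
    have e2 : dist (γ • w) (γ • u) = disp γ u * (1 / 2) := by
      rw [dist_smul, hw', dist_pt_right hX, show |(1:ℝ) - 3 / 2| = 1 / 2 by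
        rw [show (1:ℝ) - 3 / 2 = -(1 / 2) by norm_num, abs_neg, abs_of_pos (by norm_num)]]
      unfold disp
      rw [dist_comm]
    have e3 : dist w (γ • w) = disp γ u := h
    have hne : w ≠ γ • u := by
      rw [← dist_pos, e1]
      positivity
    have e4 := eq_pt_of_between hX hne (m := γ • w) (by rw [e1, e2, e3]; ring)
    have e5 : dist w (γ • w) / dist w (γ • u) = 2 / 3 := by
      rw [e3, e1]
      field_simp
    rw [e5] at e4
    have e6 : pt w (γ • u) (2 / 3) = pt (γ • u) u (1 / 2) := by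
      have := pt_pt hX (γ • u) u (3 / 2) 0 (2 / 3)
      rw [pt_zero] at this
      rw [hw', this]
      norm_num
    rw [e6] at e4
    have hm : pt u (γ • u) (1 / 2) = pt (γ • u) u (1 / 2) := by
      rw [pt_symm hX (γ • u) u]
      norm_num
    have e7 : dist (pt u (γ • u) (1 / 2)) (γ • pt u (γ • u) (1 / 2)) = disp γ u := by
      have a1 : pt u (γ • u) (1 / 2) = pt (γ • γ • u) (γ • u) (3 / 2) := by
        rw [hm, ← e4, hw', smul_pt hX]
      have a2 : γ • pt u (γ • u) (1 / 2) = pt (γ • γ • u) (γ • u) (1 / 2) := by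
        rw [hm, smul_pt hX]
      rw [a2, a1, dist_pt hX, dist_smul]
      unfold disp
      rw [dist_comm, show |(3:ℝ) / 2 - 1 / 2| = 1 by norm_num, mul_one]
    exact disp_eq_ell_of_pow (dist_pow_of_mid hX e7)

theorem smul_upM (hX : Straight X) (g γ : Γ) (u : X) :
    g • upM γ u = upM (g * γ * g⁻¹) (g • u) := by
  unfold upM
  rw [smul_pt hX, smul_smul (g * γ * g⁻¹), inv_mul_cancel_right, mul_smul]

theorem smul_upM_of_comm (hX : Straight X) {g γ : Γ} (h : g * γ = γ * g) (u : X) :
    g • upM γ u = upM γ (g • u) := by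
  rw [smul_upM hX, h, mul_inv_cancel_right]

theorem continuous_upM (hX : Straight X) [ProperSpace X] (γ : Γ) :
    Continuous (fun u : X => upM γ u) := by
  have h : Continuous (fun u : X => γ • u) := (isometry_smul X γ).continuous
  exact (continuous_pt hX).comp (h.prodMk (continuous_id.prodMk continuous_const))

theorem tendsto_disp_iterate (hX : Straight X) [ProperSpace X] (hA : GoodAction Γ X) (γ : Γ)
    (u : X) (h : 0 < exc γ u) :
    Tendsto (fun k : ℕ => exc γ ((upM γ)^[k] u)) atTop atTop := by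
  have hmono : Monotone (fun k : ℕ => exc γ ((upM γ)^[k] u)) := by
    refine monotone_nat_of_le_succ fun k => ?_
    rw [Function.iterate_succ_apply']
    have := exc_le_exc_up hX γ ((upM γ)^[k] u) (s := 1 / 2) (by norm_num) le_rfl
    rwa [show (1:ℝ) + 1 / 2 = 3 / 2 by norm_num] at this
  rcases tendsto_atTop_of_monotone hmono with ht | ⟨l, hl⟩
  · exact ht
  exfalso
  have hl0 : exc γ u ≤ l := by
    have := hmono.ge_of_tendsto hl 0
    simpa using this
  obtain ⟨K, hK, hcov⟩ := hA.cocpt
  choose g hg using hcov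
  set F : Set Γ := {δ : Γ | ∃ x ∈ K, dist x (δ • x) ≤ l + ell X γ} with hF
  have hFfin : F.Finite := finite_small_disp hA hK (l + ell X γ)
  set z : ℕ → X := fun k => (upM γ)^[k] u with hz
  have hz1 : ∀ k, z (k + 1) = upM γ (z k) := fun k => Function.iterate_succ_apply' _ _ _
  set c : ℕ → Γ := fun k => g (z k) * γ * (g (z k))⁻¹ with hc
  have hcF : ∀ k, c k ∈ F := by
    intro k
    refine ⟨g (z k) • z k, hg _, ?_⟩
    have h1 : dist (g (z k) • z k) (c k • g (z k) • z k) = disp γ (z k) := disp_conj (g (z k)) γ (z k)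
    have h2 : exc γ (z k) ≤ l := hmono.ge_of_tendsto hl k
    rw [h1]
    unfold exc at h2
    linarith
  set 𝒰 : Ultrafilter ℕ := Ultrafilter.of atTop with h𝒰
  have h𝒰le : (𝒰 : Filter ℕ) ≤ atTop := Ultrafilter.of_le _
  obtain ⟨c₀, -, hc₀⟩ : ∃ c₀ ∈ F, {k : ℕ | c k = c₀} ∈ 𝒰 := by
    refine (Ultrafilter.finite_biUnion_mem_iff (f := 𝒰) hFfin (s := fun c₀ => {k : ℕ | c k = c₀})).1
      ?_
    refine Filter.mem_of_superset Filter.univ_mem fun k _ => ?_
    exact Set.mem_biUnion (hcF k) rfl
  obtain ⟨w, -, hw⟩ : ∃ w ∈ K, Tendsto (fun k => g (z k) • z k) 𝒰 (𝓝 w) := by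
    have hmem : (fun k => g (z k) • z k) ⁻¹' K ∈ 𝒰 :=
      Filter.mem_of_superset Filter.univ_mem fun k _ => hg (z k)
    exact hK.ultrafilter_le_nhds' (𝒰.map (fun k => g (z k) • z k)) hmem
  have hex : Tendsto (fun k => exc γ (z k)) 𝒰 (𝓝 l) := hl.mono_left h𝒰le
  have hex1 : Tendsto (fun k => exc γ (z (k + 1))) 𝒰 (𝓝 l) :=
    ((tendsto_add_atTop_iff_nat 1).2 hl).mono_left h𝒰le
  have hd0 : disp c₀ w = l + ell X γ := by
    refine tendsto_nhds_unique (((continuous_disp c₀).tendsto w).comp hw) ?_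
    refine (hex.add_const (ell X γ)).congr' ?_
    filter_upwards [hc₀] with k hk
    have hk' : c k = c₀ := hk
    have h1 : disp (c k) (g (z k) • z k) = disp γ (z k) := disp_conj (g (z k)) γ (z k)
    simp only [Function.comp_apply]
    rw [← hk', h1]
    unfold exc
    ring
  have hd1 : disp c₀ (upM c₀ w) = l + ell X γ := by
    have hcont : Continuous (fun x : X => disp c₀ (upM c₀ x)) :=
      (continuous_disp c₀).comp (continuous_upM hX c₀)
    refine tendsto_nhds_unique ((hcont.tendsto w).comp hw) ?_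
    refine (hex1.add_const (ell X γ)).congr' ?_
    filter_upwards [hc₀] with k hk
    have hk' : c k = c₀ := hk
    simp only [Function.comp_apply]
    have h2 : upM (c k) (g (z k) • z k) = g (z k) • z (k + 1) := by
      rw [hz1]
      exact (smul_upM hX (g (z k)) γ (z k)).symm
    have h1 : disp (c k) (g (z k) • z (k + 1)) = disp γ (z (k + 1)) :=
      disp_conj (g (z k)) γ (z (k + 1))
    rw [← hk', h2, h1]
    unfold exc
    ring
  have hfin := eq_ell_of_disp_upM hX c₀ w (hd1.trans hd0.symm)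
  obtain ⟨k, hk⟩ := 𝒰.nonempty_of_mem hc₀
  have hk' : c k = c₀ := hk
  have hell : ell X c₀ = ell X γ := by
    rw [← hk']
    exact ell_conj (g (z k)) γ
  rw [hd0, hell] at hfin
  linarith

end Pool.Agent.NCP
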